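import Pool.Agent.H25.EA.Defs

/-!
# Acyclic sets
-/

set_option autoImplicit false
set_option linter.unusedSectionVars false

namespace Pool.Agent.H25.EA

open Finset

variable {V : Type*} [DecidableEq V]

section A
variable {μ : V → V → ℕ} {S T W : Finset V} {v y : V}

theorem ee_mono (hST : S ⊆ T) : ee μ v S ≤ ee μ v T :=
  sum_le_sum_of_subset hST

theorem ee_erase (hv : y ∈ S) : ee μ v (S.erase y) + μ v y = ee μ v S :=
  sum_erase_add _ _ hv

theorem ee_insert (hv : y ∉ S) : ee μ v (Insert.insert y S) = μ v y + ee μ v S :=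
  sum_insert hv

theorem ee_insert_le : ee μ v (Insert.insert y S) ≤ μ v y + ee μ v S := by
  by_cases hv : y ∈ S
  · rw [insert_eq_of_mem hv]; omega
  · rw [ee_insert hv]

theorem Ac.mono (h : Ac μ T) (hST : S ⊆ T) : Ac μ S :=
  fun R hR hne => h R (hR.trans hST) hne

theorem Ac.insert (hμ : MG μ) (h : Ac μ S) (hv : ee μ v S ≤ 1) : Ac μ (insert v S) := by
  intro T hT hne
  by_cases hvT : v ∈ T
  · refine ⟨v, hvT, ?_⟩
    have h1 : ee μ v T ≤ ee μ v (Insert.insert v S) := ee_mono hT
    have h2 := ee_insert_le (μ := μ) (v := v) (y := v) (S := S)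
    have h3 := hμ.diag v
    omega
  · exact h T (fun x hx => by
      rcases mem_insert.1 (hT hx) with rfl | h'
      · exact absurd hx hvT
      · exact h') hne

theorem two_le_of_not_ac (hμ : MG μ) (h : Ac μ S) (hv : ¬ Ac μ (Insert.insert v S)) :
    2 ≤ ee μ v S := by
  by_contra hcon
  exact hv (h.insert hμ (by omega))

/-- general form of `exists_solo` with a weight function instead of the vertex `y` -/
theorem exists_hit (hμ : MG μ) : ∀ (n : ℕ) (W : Finset V) (h : V → ℕ), W.card = n → Ac μ W →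
    W.Nonempty → ∑ w ∈ W, h w ≤ 3 →
    ∃ m ∈ W, ∀ T ⊆ W, m ∉ T → 2 ≤ ∑ w ∈ T, h w → ∃ v ∈ T, ee μ v T + h v ≤ 1 := by
  intro n
  induction n with
  | zero =>
    intro W h hc _ hne _
    rw [card_eq_zero] at hc
    exact absurd hc (nonempty_iff_ne_empty.1 hne)
  | succ n ih =>
    intro W h hc hac hne hsum
    obtain ⟨l, hl, hle⟩ := hac W (Subset.refl _) hne
    have hcW : (W.erase l).card = n := by rw [card_erase_of_mem hl]; omega
    have hsumW : ∑ w ∈ W.erase l, h w + h l = ∑ w ∈ W, h w := sum_erase_add _ _ hl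
    -- the case `h l ≥ 2`
    by_cases hl2 : 2 ≤ h l
    · refine ⟨l, hl, fun T hT hlT h2 => ?_⟩
      exfalso
      have : ∑ w ∈ T, h w ≤ ∑ w ∈ W.erase l, h w := by
        apply sum_le_sum_of_subset
        intro x hx
        exact mem_erase.2 ⟨fun e => hlT (e ▸ hx), hT hx⟩
      omega
    by_cases hW1 : W.erase l = ∅
    · refine ⟨l, hl, fun T hT hlT h2 => ?_⟩
      exfalso
      have : T ⊆ W.erase l := fun x hx => mem_erase.2 ⟨fun e => hlT (e ▸ hx), hT hx⟩
      rw [hW1] at this
      have := subset_empty.1 this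
      subst this
      simp at h2
    have hne' : (W.erase l).Nonempty := nonempty_iff_ne_empty.2 hW1
    have hac' : Ac μ (W.erase l) := hac.mono (erase_subset _ _)
    -- the case where `l` is in no core
    by_cases hl0 : ee μ l W + h l ≤ 1
    · obtain ⟨m, hm, hmT⟩ := ih (W.erase l) h hcW hac' hne' (by omega)
      refine ⟨m, (mem_erase.1 hm).2, fun T hT hmT' h2 => ?_⟩
      by_cases hlT : l ∈ T
      · refine ⟨l, hlT, ?_⟩
        have := ee_mono (μ := μ) (v := l) hT
        omega
      · exact hmT T (fun x hx => mem_erase.2 ⟨fun e => hlT (e ▸ hx), hT hx⟩) hmT' h2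
    -- now `h l = 1` and `l` has exactly one neighbour
    have h1 : h l = 1 := by omega
    have he1 : ee μ l W = 1 := by omega
    obtain ⟨v, hv, hvl⟩ : ∃ v ∈ W, μ l v ≠ 0 := by
      by_contra hno
      push Not at hno
      have : ee μ l W = 0 := sum_eq_zero hno
      omega
    have hvl1 : μ l v = 1 ∧ ∀ u ∈ W, u ≠ v → μ l u = 0 := by
      have h3 : ee μ l (W.erase v) + μ l v = ee μ l W := ee_erase hv
      refine ⟨by omega, fun u hu huv => ?_⟩
      have h4 : ee μ l (W.erase v) = 0 := by omega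
      exact sum_eq_zero_iff.1 h4 u (mem_erase.2 ⟨huv, hu⟩)
    have hvne : v ≠ l := by
      rintro rfl
      exact hvl (hμ.diag v)
    set h' : V → ℕ := fun w => h w + if w = v then 1 else 0 with hh'
    have hvW' : v ∈ W.erase l := mem_erase.2 ⟨hvne, hv⟩
    have hsum' : ∑ w ∈ W.erase l, h' w ≤ 3 := by
      rw [hh', sum_add_distrib, sum_ite_eq' (W.erase l) v, if_pos hvW']
      omega
    obtain ⟨m, hm, hmT⟩ := ih (W.erase l) h' hcW hac' hne' hsum'
    refine ⟨m, (mem_erase.1 hm).2, fun T hT hmT' h2 => ?_⟩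
    by_contra hno
    push Not at hno
    by_cases hlT : l ∈ T
    · -- `v ∈ T`
      have hvT : v ∈ T := by
        by_contra hvT
        have h3 : ee μ l T = 0 := sum_eq_zero fun u hu =>
          hvl1.2 u (hT hu) (fun e => hvT (e ▸ hu))
        have := hno l hlT
        omega
      have hsub : T.erase l ⊆ W.erase l := erase_subset_erase _ hT
      have hsumT : ∑ w ∈ T.erase l, h' w = ∑ w ∈ T, h w := by
        have h3 : ∑ w ∈ T.erase l, h w + h l = ∑ w ∈ T, h w := sum_erase_add _ _ hlT
        rw [hh', sum_add_distrib, sum_ite_eq' (T.erase l) v, if_pos (mem_erase.2 ⟨hvne, hvT⟩)]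
        omega
      obtain ⟨w, hw, hwe⟩ := hmT (T.erase l) hsub
        (fun hx => hmT' (mem_erase.1 hx).2) (by omega)
      have hw' := mem_erase.1 hw
      have h4 := hno w hw'.2
      have h5 : ee μ w (T.erase l) + μ w l = ee μ w T := ee_erase hlT
      by_cases hwv : w = v
      · subst hwv
        have h6 : μ w l = 1 := by rw [hμ.symm]; exact hvl1.1
        simp only [hh', if_true] at hwe
        omega
      · have h6 : μ w l = 0 := by rw [hμ.symm]; exact hvl1.2 w (hT hw'.2) hwv
        simp only [hh', if_neg hwv] at hwe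
        omega
    · have hsub : T ⊆ W.erase l := fun x hx => mem_erase.2 ⟨fun e => hlT (e ▸ hx), hT hx⟩
      have hle' : ∑ w ∈ T, h w ≤ ∑ w ∈ T, h' w := sum_le_sum fun w _ => by
        simp only [hh']; omega
      obtain ⟨w, hw, hwe⟩ := hmT T hsub hmT' (by omega)
      have h4 := hno w hw
      simp only [hh'] at hwe
      omega

/-- some vertex meets all cycles through `y` if `y` sends at most three edges -/
theorem exists_solo (hμ : MG μ) (hW : Ac μ W) (hne : W.Nonempty) (_hy : y ∉ W)
    (h3 : ee μ y W ≤ 3) : ∃ m ∈ W, Ac μ (Insert.insert y (W.erase m)) := by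
  obtain ⟨m, hm, hmT⟩ := exists_hit hμ W.card W (μ y) rfl hW hne h3
  refine ⟨m, hm, ?_⟩
  intro T hT hTne
  by_cases hyT : y ∈ T
  · by_cases h2 : 2 ≤ ee μ y T
    · have h5 : ee μ y (T.erase y) + μ y y = ee μ y T := ee_erase hyT
      have h6 := hμ.diag y
      have hsub : T.erase y ⊆ W.erase m := by
        intro x hx
        rw [mem_erase] at hx
        rcases mem_insert.1 (hT hx.2) with h | h
        · exact absurd h hx.1
        · exact h
      have hm' : m ∉ T.erase y := fun h => (mem_erase.1 (hsub h)).1 rfl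
      have h7 : 2 ≤ ∑ w ∈ T.erase y, μ y w := by
        have : ee μ y (T.erase y) = ∑ w ∈ T.erase y, μ y w := rfl
        omega
      obtain ⟨v, hv, hve⟩ := hmT (T.erase y) (hsub.trans (erase_subset _ _)) hm' h7
      refine ⟨v, (mem_erase.1 hv).2, ?_⟩
      have h8 : ee μ v (T.erase y) + μ v y = ee μ v T := ee_erase hyT
      have h9 := hμ.symm v y
      omega
    · exact ⟨y, hyT, by omega⟩
  · exact hW T (fun x hx => by
      rcases mem_insert.1 (hT hx) with h | h
      · exact absurd (h ▸ hx) hyT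
      · exact (mem_erase.1 h).2) hTne

end A

end Pool.Agent.H25.EA
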