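import Pool.Agent.H25.EA.Defs

/-!
# Module D: choice of the region
-/

set_option autoImplicit false

namespace Pool.Agent.H25.EA

open Finset

/-- `K` avoids `S` and `r`, and its arcs end in `K ∪ S` -/
def Clo (ar : ℕ → ℕ → Prop) (𝒜 : Finset ℕ) (r : ℕ) (S K : Finset ℕ) : Prop :=
  K ⊆ 𝒜 ∧ Disjoint K S ∧ r ∉ K ∧ ∀ x ∈ K, ∀ y ∈ 𝒜, ar x y → y ∈ K ∨ y ∈ S

theorem noCl_iff {ar : ℕ → ℕ → Prop} {𝒜 : Finset ℕ} {r : ℕ} {S : Finset ℕ} :
    NoCl ar 𝒜 r S ↔ ∀ K, Clo ar 𝒜 r S K → K = ∅ := by
  constructor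
  · intro h K hK
    by_contra hne
    obtain ⟨x, hx, y, hy, hyK, hyS, hxy⟩ := h K hK.1 hK.2.1 hK.2.2.1 (nonempty_iff_ne_empty.2 hne)
    rcases hK.2.2.2 x hx y hy hxy with h | h
    · exact hyK h
    · exact hyS h
  · intro h K hK hd hr hne
    by_contra hcon
    push Not at hcon
    have := h K ⟨hK, hd, hr, fun x hx y hy hxy => by
      by_cases hyK : y ∈ K
      · exact Or.inl hyK
      · by_cases hyS : y ∈ S
        · exact Or.inr hyS
        · exact absurd hxy (hcon x hx y hy hyK hyS)⟩
    exact hne.ne_empty this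

theorem exists_max_clo (ar : ℕ → ℕ → Prop) (𝒜 : Finset ℕ) (r : ℕ) (S : Finset ℕ) :
    ∃ D, Clo ar 𝒜 r S D ∧ ∀ K, Clo ar 𝒜 r S K → K ⊆ D := by
  classical
  refine ⟨(𝒜.powerset.filter (Clo ar 𝒜 r S)).biUnion id, ⟨?_, ?_, ?_, ?_⟩, ?_⟩
  · intro x hx
    simp only [mem_biUnion, mem_filter, mem_powerset, id] at hx
    obtain ⟨K, ⟨hK, _⟩, hx⟩ := hx
    exact hK hx
  · rw [disjoint_biUnion_left]
    intro K hK
    simp only [mem_filter] at hK
    exact hK.2.2.1
  · intro hx
    simp only [mem_biUnion, mem_filter, mem_powerset, id] at hx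
    obtain ⟨K, ⟨_, hK⟩, hx⟩ := hx
    exact hK.2.2.1 hx
  · intro x hx y hy hxy
    simp only [mem_biUnion, mem_filter, mem_powerset, id] at hx ⊢
    obtain ⟨K, hK, hx⟩ := hx
    rcases hK.2.2.2.2 x hx y hy hxy with h | h
    · exact Or.inl ⟨K, hK, h⟩
    · exact Or.inr h
  · intro K hK x hx
    simp only [mem_biUnion, mem_filter, mem_powerset, id]
    exact ⟨K, ⟨hK.1, hK⟩, hx⟩

/-- a minimal nonempty subset of `D` whose arcs end in itself and `S` -/
theorem exists_min_region (ar : ℕ → ℕ → Prop) (𝒜 : Finset ℕ) (r : ℕ) (S D : Finset ℕ)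
    (hD : Clo ar 𝒜 r S D) (hne : D.Nonempty) :
    ∃ J ⊆ D, J.Nonempty ∧ Clo ar 𝒜 r S J ∧
      ∀ K ⊆ J, K.Nonempty → (∀ W ∈ K, ∀ Y ∈ J, ar W Y → Y ∈ K) → K = J := by
  classical
  have hP : (D.powerset.filter (fun J => J.Nonempty ∧ Clo ar 𝒜 r S J)).Nonempty :=
    ⟨D, by simp [hD, hne]⟩
  obtain ⟨J, hJ, hmin⟩ := exists_min_image _ (fun J : Finset ℕ => J.card) hP
  simp only [mem_filter, mem_powerset] at hJ
  refine ⟨J, hJ.1, hJ.2.1, hJ.2.2, ?_⟩
  intro K hK hKne hcl
  have hK' : Clo ar 𝒜 r S K := by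
    refine ⟨hK.trans hJ.2.2.1, disjoint_of_subset_left hK hJ.2.2.2.1, fun h => hJ.2.2.2.2.1 (hK h), ?_⟩
    intro x hx y hy hxy
    rcases hJ.2.2.2.2.2 x (hK hx) y hy hxy with h | h
    · exact Or.inl (hcl x hx y h hxy)
    · exact Or.inr h
  have := hmin K (by
    simp only [mem_filter, mem_powerset]
    exact ⟨hK.trans hJ.1, hKne, hK'⟩)
  exact eq_of_subset_of_card_le hK this

theorem choice (ar : ℕ → ℕ → Prop) (𝒜 : Finset ℕ) (r : ℕ) (hr : r ∈ 𝒜) (h2 : 2 ≤ 𝒜.card)
    (hreach : NoCl ar 𝒜 r ∅) (b : ℕ) :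
    (∃ D : Finset ℕ, ∃ Q : ℕ, D ⊆ 𝒜 ∧ r ∉ D ∧ (∀ W ∈ D, NoCl ar 𝒜 r {W}) ∧
      (∀ W ∈ D, ∀ Y ∈ 𝒜, ar W Y → Y ∈ D ∨ Y = Q) ∧ D.Nonempty ∧ 2 * b ≤ D.card + 1) ∨
    (∃ J S : Finset ℕ, Region ar 𝒜 r J S ∧
      ((S.card = 1 ∧ J.card + 2 ≤ 2 * b) ∨
       (S.card = 2 ∧ r ∉ S ∧ (∀ Z ∈ S, NoCl ar 𝒜 r {Z}) ∧
        (∀ W ∈ J, ∀ Z ∈ S, NoCl ar 𝒜 r {W, Z}) ∧ J.card + 4 ≤ 2 * b))) := by
  classical
  rw [noCl_iff] at hreach
  choose DS hDS hmax using exists_max_clo ar 𝒜 r
  -- `NoCl` means that the largest closed set is empty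
  have hNo : ∀ S, NoCl ar 𝒜 r S ↔ DS S = ∅ := by
    intro S
    rw [noCl_iff]
    constructor
    · intro h
      exact h _ (hDS S)
    · intro h K hK
      have := hmax S K hK
      rw [h] at this
      exact subset_empty.1 this
  -- choice of `Q`
  have hP : (𝒜.filter (fun Q => (DS {Q}).Nonempty)).Nonempty := by
    refine ⟨r, ?_⟩
    rw [mem_filter]
    refine ⟨hr, ?_⟩
    have hc : Clo ar 𝒜 r {r} (𝒜.erase r) := by
      refine ⟨erase_subset _ _, ?_, by simp, ?_⟩
      · rw [disjoint_singleton_right]; simp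
      · intro x _ y hy _
        by_cases h : y = r
        · right; simp [h]
        · left; simp [h, hy]
    have h1 : (𝒜.erase r).Nonempty := by
      rw [← card_pos, card_erase_of_mem hr]; omega
    exact h1.mono (hmax _ _ hc)
  obtain ⟨Q, hQ, hQmin⟩ := exists_min_image _ (fun Q : ℕ => (DS {Q}).card) hP
  rw [mem_filter] at hQ
  obtain ⟨hQA, hQne⟩ := hQ
  obtain ⟨D, hDdef⟩ : ∃ D, D = DS {Q} := ⟨_, rfl⟩
  have hD : Clo ar 𝒜 r {Q} D := hDdef ▸ hDS {Q}
  rw [← hDdef] at hQne
  obtain ⟨hDA, hDQ, hDr, hDout⟩ := hD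
  rw [disjoint_singleton_right] at hDQ
  -- a closed set up to a subset of `D` lies in `D`
  have key : ∀ S ⊆ D, DS S ⊆ D := by
    intro S hS
    obtain ⟨h1, h2, h3, h4⟩ := hDS S
    by_cases hU : Q ∈ DS S
    · exfalso
      have := hreach (DS S ∪ D) ⟨union_subset h1 hDA, disjoint_empty_right _, by
        simp [h3, hDr], ?_⟩
      · have h5 : D ⊆ ∅ := this ▸ subset_union_right
        exact hQne.ne_empty (subset_empty.1 h5)
      · intro x hx y hy hxy
        left
        rw [mem_union] at hx ⊢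
        rcases hx with hx | hx
        · rcases h4 x hx y hy hxy with h | h
          · exact Or.inl h
          · exact Or.inr (hS h)
        · rcases hDout x hx y hy hxy with h | h
          · exact Or.inr h
          · rw [mem_singleton] at h
            rw [h]; exact Or.inl hU
    · have h5 : DS S ∪ D ⊆ D := by
        conv_rhs => rw [hDdef]
        apply hmax
        refine ⟨union_subset h1 hDA, ?_, by simp [h3, hDr], ?_⟩
        · rw [disjoint_singleton_right, mem_union]
          rintro (h | h)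
          · exact hU h
          · exact hDQ h
        · intro x hx y hy hxy
          rw [mem_union] at hx
          rcases hx with hx | hx
          · rcases h4 x hx y hy hxy with h | h
            · exact Or.inl (mem_union_left _ h)
            · exact Or.inl (mem_union_right _ (hS h))
          · rcases hDout x hx y hy hxy with h | h
            · exact Or.inl (mem_union_right _ h)
            · exact Or.inr h
      exact subset_union_left.trans h5
  have hterm : ∀ W ∈ D, NoCl ar 𝒜 r {W} := by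
    intro W hW
    rw [hNo]
    by_contra hne
    have hne' := nonempty_iff_ne_empty.2 hne
    have h1 := hQmin W (by rw [mem_filter]; exact ⟨hDA hW, hne'⟩)
    simp only [← hDdef] at h1
    have h2 := key {W} (by simpa using hW)
    have h3 : DS {W} ⊂ D := by
      refine ⟨h2, fun h => ?_⟩
      have := (hDS {W}).2.1
      rw [disjoint_singleton_right] at this
      exact this (h hW)
    exact absurd (card_lt_card h3) (not_lt.2 h1)
  by_cases hbig : 2 * b ≤ D.card + 1
  · left
    exact ⟨D, Q, hDA, hDr, hterm, fun W hW Y hY h => by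
      simpa using hDout W hW Y hY h, hQne, hbig⟩
  right
  by_cases hA : ∀ W ∈ D, ∀ Z ∈ D, NoCl ar 𝒜 r {W, Z}
  · -- case A
    obtain ⟨J, hJD, hJne, hJ, hJmin⟩ := exists_min_region ar 𝒜 r {Q} D
      ⟨hDA, by rwa [disjoint_singleton_right], hDr, hDout⟩ hQne
    refine ⟨J, {Q}, ⟨hJ.1, by simpa using hQA, hJ.2.1, hJne, hJ.2.2.1, hJ.2.2.2, hJmin,
      fun W hW Z hZ => hA W (hJD hW) Z (hJD hZ)⟩, Or.inl ⟨card_singleton _, ?_⟩⟩
    have := card_le_card hJD
    omega
  · -- case B
    push Not at hA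
    obtain ⟨W0, hW0, Z0, hZ0, hWZ⟩ := hA
    have hP2 : ((D ×ˢ D).filter (fun p => (DS {p.1, p.2}).Nonempty)).Nonempty := by
      refine ⟨(W0, Z0), ?_⟩
      rw [mem_filter, mem_product]
      refine ⟨⟨hW0, hZ0⟩, nonempty_iff_ne_empty.2 ?_⟩
      rw [hNo] at hWZ
      exact hWZ
    obtain ⟨⟨S1, S2⟩, hS, hSmin⟩ := exists_min_image _ (fun p : ℕ × ℕ => (DS {p.1, p.2}).card) hP2
    rw [mem_filter, mem_product] at hS
    obtain ⟨⟨hS1, hS2⟩, hSne⟩ := hS
    simp only at hS1 hS2 hSne
    have hne12 : S1 ≠ S2 := by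
      intro h
      rw [h, pair_eq_singleton] at hSne
      have := hterm S2 hS2
      rw [hNo] at this
      exact hSne.ne_empty this
    obtain ⟨E, hEdef⟩ : ∃ E, E = DS {S1, S2} := ⟨_, rfl⟩
    have hE : Clo ar 𝒜 r {S1, S2} E := hEdef ▸ hDS {S1, S2}
    have hSD : ({S1, S2} : Finset ℕ) ⊆ D := by
      intro x hx
      simp only [mem_insert, mem_singleton] at hx
      rcases hx with rfl | rfl
      · exact hS1
      · exact hS2
    have hED : E ⊆ D := hEdef ▸ key {S1, S2} hSD
    have hS1E : S1 ∉ E := fun h => by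
      have := hE.2.1
      rw [disjoint_left] at this
      exact this h (by simp)
    have hS2E : S2 ∉ E := fun h => by
      have := hE.2.1
      rw [disjoint_left] at this
      exact this h (by simp)
    -- all pairs
    have hpair : ∀ W ∈ E, ∀ Z ∈ D, Z ∈ E ∨ Z = S1 ∨ Z = S2 → NoCl ar 𝒜 r {W, Z} := by
      intro W hW Z hZD hZ
      rw [hNo]
      by_contra hne
      have hne' := nonempty_iff_ne_empty.2 hne
      obtain ⟨K, hKdef⟩ : ∃ K, K = DS {W, Z} := ⟨_, rfl⟩
      have hK : Clo ar 𝒜 r {W, Z} K := hKdef ▸ hDS {W, Z}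
      have hmin := hSmin (W, Z) (by
        rw [mem_filter, mem_product]
        exact ⟨⟨hED hW, hZD⟩, hne'⟩)
      simp only [← hKdef, ← hEdef] at hmin
      have hWK : W ∉ K := fun h => by
        have := hK.2.1
        rw [disjoint_left] at this
        exact this h (by simp)
      -- the union
      have hout : ∀ x ∈ K ∪ E, ∀ y ∈ 𝒜, ar x y → y ∈ K ∪ E ∨ y = S1 ∨ y = S2 := by
        intro x hx y hy hxy
        rw [mem_union] at hx ⊢
        rcases hx with hx | hx
        · rcases hK.2.2.2 x hx y hy hxy with h | h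
          · exact Or.inl (Or.inl h)
          · simp only [mem_insert, mem_singleton] at h
            rcases h with rfl | rfl
            · exact Or.inl (Or.inr hW)
            · rcases hZ with hZ | hZ
              · exact Or.inl (Or.inr hZ)
              · exact Or.inr hZ
        · rcases hE.2.2.2 x hx y hy hxy with h | h
          · exact Or.inl (Or.inr h)
          · simp only [mem_insert, mem_singleton] at h
            exact Or.inr h
      have hsub : K ∪ E ⊆ 𝒜 := union_subset hK.1 hE.1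
      have hrn : r ∉ K ∪ E := by simp [hK.2.2.1, hE.2.2.1]
      have hneU : (K ∪ E) ≠ ∅ := by
        intro h
        have : E ⊆ ∅ := h ▸ subset_union_right
        rw [subset_empty] at this
        rw [this] at hW
        simp at hW
      by_cases h1 : S1 ∈ K
      · by_cases h2 : S2 ∈ K
        · apply hneU
          apply hreach
          refine ⟨hsub, disjoint_empty_right _, hrn, ?_⟩
          intro x hx y hy hxy
          left
          rcases hout x hx y hy hxy with h | h | h
          · exact h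
          · rw [h]; exact mem_union_left _ h1
          · rw [h]; exact mem_union_left _ h2
        · apply hneU
          have hT := hterm S2 hS2
          rw [noCl_iff] at hT
          apply hT
          refine ⟨hsub, by rw [disjoint_singleton_right]; simp [h2, hS2E], hrn, ?_⟩
          intro x hx y hy hxy
          rcases hout x hx y hy hxy with h | h | h
          · exact Or.inl h
          · rw [h]; exact Or.inl (mem_union_left _ h1)
          · exact Or.inr (by simp [h])
      · by_cases h2 : S2 ∈ K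
        · apply hneU
          have hT := hterm S1 hS1
          rw [noCl_iff] at hT
          apply hT
          refine ⟨hsub, by rw [disjoint_singleton_right]; simp [h1, hS1E], hrn, ?_⟩
          intro x hx y hy hxy
          rcases hout x hx y hy hxy with h | h | h
          · exact Or.inl h
          · exact Or.inr (by simp [h])
          · rw [h]; exact Or.inl (mem_union_left _ h2)
        · have h3 : K ∪ E ⊆ E := by
            conv_rhs => rw [hEdef]
            apply hmax
            refine ⟨hsub, ?_, hrn, ?_⟩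
            · rw [disjoint_left]
              intro x hx hx'
              simp only [mem_insert, mem_singleton] at hx'
              rcases hx' with rfl | rfl
              · simp [h1, hS1E] at hx
              · simp [h2, hS2E] at hx
            · intro x hx y hy hxy
              simpa using hout x hx y hy hxy
          have h4 : K ⊂ E := ⟨subset_union_left.trans h3, fun h => hWK (h hW)⟩
          exact absurd (card_lt_card h4) (not_lt.2 hmin)
    obtain ⟨J, hJE, hJne, hJ, hJmin⟩ := exists_min_region ar 𝒜 r {S1, S2} E hE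
      (hEdef ▸ hSne)
    refine ⟨J, {S1, S2}, ⟨hJ.1, hSD.trans hDA, hJ.2.1, hJne, hJ.2.2.1, hJ.2.2.2, hJmin,
      fun W hW Z hZ => hpair W (hJE hW) Z (hED (hJE hZ)) (Or.inl (hJE hZ))⟩,
      Or.inr ⟨card_pair hne12, fun h => hDr (hSD h), fun Z hZ => hterm Z (hSD hZ), ?_, ?_⟩⟩
    · intro W hW Z hZ
      refine hpair W (hJE hW) Z (hSD hZ) (Or.inr ?_)
      simpa using hZ
    · have h1 : Disjoint J {S1, S2} := hJ.2.1
      have h2 : J ∪ {S1, S2} ⊆ D := union_subset (hJE.trans hED) hSD
      have h3 := card_le_card h2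
      rw [card_union_of_disjoint h1, card_pair hne12] at h3
      omega

end Pool.Agent.H25.EA
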