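import Mathlib

/-!
# Module L: the clean lemma
-/

set_option autoImplicit false

namespace Pool.Agent.H25.EA

open Finset

/-- `R` is a nonempty part of `J - W` closed under arcs inside `J - W`. -/
def ClosedIn (ar : ℕ → ℕ → Prop) (J : Finset ℕ) (W : ℕ) (R : Finset ℕ) : Prop :=
  R ⊆ J.erase W ∧ ∀ Y ∈ R, ∀ Y' ∈ J.erase W, ar Y Y' → Y' ∈ R

theorem clean_lemma_part1 (ar : ℕ → ℕ → Prop) (J : Finset ℕ) (part : ℕ → ℕ → Prop)
    [∀ a, DecidablePred (part a)] (clean : ℕ → Prop) (β : ℕ)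
    (hmin : ∀ K ⊆ J, K.Nonempty → (∀ W ∈ K, ∀ Y ∈ J, ar W Y → Y ∈ K) → K = J)
    (harc : ∀ W ∈ J, ∀ X ∈ J, part W X → W ≠ X ∧ ar W X)
    (h1 : ∀ W ∈ J, clean W → β ≤ (J.filter (part W)).card)
    (h2 : ∀ W ∈ J, ¬ clean W → ∃ T ⊆ J.erase W, T.Nonempty ∧ (∀ Y ∈ T, ar W Y) ∧
      ∃ X ∈ J, part W X ∧ ∃ R ⊆ J.erase W, T ⊆ R ∧ X ∉ R ∧
        ∀ Y ∈ R, ∀ Y' ∈ J.erase W, ar Y Y' → Y' ∈ R) :
    ∀ n : ℕ, ∀ W ∈ J, ∀ R : Finset ℕ, ClosedIn ar J W R → R.Nonempty → R.card = n → β ≤ n := by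
  classical
  intro n
  induction n using Nat.strong_induction_on with
  | _ n ih =>
  intro W hW R hR hRne hRn
  by_contra hlt
  -- every clean vertex of R gives the bound
  have hnoclean : ∀ V ∈ R, ¬ clean V := by
    intro V hV hc
    have hVJ : V ∈ J := Finset.mem_of_mem_erase (hR.1 hV)
    have hsub : J.filter (part V) ⊆ (insert W R).erase V := by
      intro X hX
      rw [Finset.mem_filter] at hX
      obtain ⟨hXJ, hp⟩ := hX
      obtain ⟨hne, har⟩ := harc V hVJ X hXJ hp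
      rw [Finset.mem_erase, Finset.mem_insert]
      refine ⟨fun h => hne h.symm, ?_⟩
      by_cases hXW : X = W
      · exact Or.inl hXW
      · exact Or.inr (hR.2 V hV X (Finset.mem_erase.2 ⟨hXW, hXJ⟩) har)
    have hWR : W ∉ R := fun h => (Finset.mem_erase.1 (hR.1 h)).1 rfl
    have hcard : ((insert W R).erase V).card = R.card := by
      rw [Finset.card_erase_of_mem (Finset.mem_insert_of_mem hV), Finset.card_insert_of_notMem hWR]
      rfl
    have := Finset.card_le_card hsub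
    have := h1 V hVJ hc
    omega
  -- the set Z_V
  let Z : ℕ → Finset ℕ := fun V => (R.erase V).filter
    (fun X => ∃ K : Finset ℕ, ClosedIn ar J V K ∧ W ∈ K ∧ X ∉ K)
  have key : ∀ k : ℕ, ∀ V ∈ R, (Z V).card = k → False := by
    intro k
    induction k using Nat.strong_induction_on with
    | _ k ihk =>
    intro V hV hk
    have hVJ : V ∈ J := Finset.mem_of_mem_erase (hR.1 hV)
    have hVW : V ≠ W := (Finset.mem_erase.1 (hR.1 hV)).1
    obtain ⟨T, hTJ, hTne, hTar, X, hXJ, hpX, RV, hRVJ, hTR, hXR, hRVc⟩ := h2 V hVJ (hnoclean V hV)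
    have hVRV : V ∉ RV := fun h => (Finset.mem_erase.1 (hRVJ h)).1 rfl
    have hRV : ClosedIn ar J V RV := ⟨hRVJ, hRVc⟩
    obtain ⟨hVX, harVX⟩ := harc V hVJ X hXJ hpX
    -- W is in RV
    have hWRV : W ∈ RV := by
      by_contra hWn
      have hne : (R ∩ RV).Nonempty := by
        obtain ⟨Y, hY⟩ := hTne
        have hYJ := Finset.mem_erase.1 (hTJ hY)
        have hYRV := hTR hY
        have hYW : Y ≠ W := fun h => hWn (h ▸ hYRV)
        exact ⟨Y, Finset.mem_inter.2 ⟨hR.2 V hV Y (Finset.mem_erase.2 ⟨hYW, hYJ.2⟩) (hTar Y hY), hYRV⟩⟩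
      have hcl : ClosedIn ar J V (R ∩ RV) := by
        refine ⟨fun Y hY => hRVJ (Finset.mem_inter.1 hY).2, ?_⟩
        intro Y hY Y' hY' hYY'
        have h1' : Y' ∈ RV := hRVc Y (Finset.mem_inter.1 hY).2 Y' hY' hYY'
        have h2' : Y' ≠ W := fun h => hWn (h ▸ h1')
        exact Finset.mem_inter.2 ⟨hR.2 Y (Finset.mem_inter.1 hY).1 Y'
          (Finset.mem_erase.2 ⟨h2', Finset.mem_of_mem_erase hY'⟩) hYY', h1'⟩
      have hlt' : (R ∩ RV).card < R.card := by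
        apply Finset.card_lt_card
        refine ⟨Finset.inter_subset_left, fun h => hVRV (Finset.mem_inter.1 (h hV)).2⟩
      have := ih (R ∩ RV).card (by omega) V hVJ (R ∩ RV) hcl hne rfl
      omega
    have hXW : X ≠ W := fun h => hXR (h ▸ hWRV)
    have hXRR : X ∈ R := hR.2 V hV X (Finset.mem_erase.2 ⟨hXW, hXJ⟩) harVX
    have hXZ : X ∈ Z V := by
      refine Finset.mem_filter.2 ⟨Finset.mem_erase.2 ⟨fun h => hVX h.symm, hXRR⟩, RV, hRV, hWRV, hXR⟩
    have hss : Z X ⊂ Z V := by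
      refine ⟨?_, fun h => ?_⟩
      · intro X' hX'
        obtain ⟨hX'R, K, hK, hWK, hX'K⟩ := Finset.mem_filter.1 hX'
        obtain ⟨hX'X, hX'R⟩ := Finset.mem_erase.1 hX'R
        have hVK : V ∈ K := by
          by_contra hVK
          have hJ : K ∩ RV = J := by
            apply hmin
            · exact fun Y hY => Finset.mem_of_mem_erase (hRVJ (Finset.mem_inter.1 hY).2)
            · exact ⟨W, Finset.mem_inter.2 ⟨hWK, hWRV⟩⟩
            · intro Y hY Y' hY' hYY'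
              obtain ⟨hYK, hYRV⟩ := Finset.mem_inter.1 hY
              have hY'X : Y' ≠ X := by
                intro h
                subst h
                exact hXR (hRVc Y hYRV Y' (Finset.mem_erase.2 ⟨fun h => hVX h.symm, hXJ⟩) hYY')
              have hY'K : Y' ∈ K := hK.2 Y hYK Y' (Finset.mem_erase.2 ⟨hY'X, hY'⟩) hYY'
              have hY'V : Y' ≠ V := fun h => hVK (h ▸ hY'K)
              exact Finset.mem_inter.2 ⟨hY'K, hRVc Y hYRV Y' (Finset.mem_erase.2 ⟨hY'V, hY'⟩) hYY'⟩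
          exact hXR (Finset.mem_inter.1 (hJ.symm ▸ hXJ : X ∈ K ∩ RV)).2
        have hX'V : X' ≠ V := fun h => hX'K (h ▸ hVK)
        refine Finset.mem_filter.2 ⟨Finset.mem_erase.2 ⟨hX'V, hX'R⟩, K ∩ RV, ⟨?_, ?_⟩, ?_, ?_⟩
        · exact fun Y hY => hRVJ (Finset.mem_inter.1 hY).2
        · intro Y hY Y' hY' hYY'
          obtain ⟨hYK, hYRV⟩ := Finset.mem_inter.1 hY
          have h1' : Y' ∈ RV := hRVc Y hYRV Y' hY' hYY'
          have h2' : Y' ≠ X := fun h => hXR (h ▸ h1')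
          exact Finset.mem_inter.2 ⟨hK.2 Y hYK Y'
            (Finset.mem_erase.2 ⟨h2', Finset.mem_of_mem_erase hY'⟩) hYY', h1'⟩
        · exact Finset.mem_inter.2 ⟨hWK, hWRV⟩
        · exact fun h => hX'K (Finset.mem_inter.1 h).1
      · have := h hXZ
        exact (Finset.mem_erase.1 (Finset.mem_filter.1 this).1).1 rfl
    exact ihk (Z X).card (by have := Finset.card_lt_card hss; omega) X hXRR rfl
  obtain ⟨V, hV⟩ := hRne
  exact key _ V hV rfl

theorem clean_lemma_part2 (ar : ℕ → ℕ → Prop) (J : Finset ℕ) (part : ℕ → ℕ → Prop)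
    [∀ a, DecidablePred (part a)] (clean : ℕ → Prop) (β : ℕ)
    (hmin : ∀ K ⊆ J, K.Nonempty → (∀ W ∈ K, ∀ Y ∈ J, ar W Y → Y ∈ K) → K = J)
    (hsymm : ∀ W ∈ J, ∀ X ∈ J, part W X → part X W)
    (harc : ∀ W ∈ J, ∀ X ∈ J, part W X → W ≠ X ∧ ar W X)
    (hβ : J.card < 2 * β)
    (h1 : ∀ W ∈ J, clean W → β ≤ (J.filter (part W)).card)
    (h2 : ∀ W ∈ J, ¬ clean W → ∃ T ⊆ J.erase W, T.Nonempty ∧ (∀ Y ∈ T, ar W Y) ∧
      ∃ X ∈ J, part W X ∧ ∃ R ⊆ J.erase W, T ⊆ R ∧ X ∉ R ∧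
        ∀ Y ∈ R, ∀ Y' ∈ J.erase W, ar Y Y' → Y' ∈ R) :
    ∀ n : ℕ, ∀ W ∈ J, ∀ R : Finset ℕ, ClosedIn ar J W R → R.Nonempty →
      ((J.erase W) \ R).card = n → ((J.erase W) \ R).Nonempty → False := by
  classical
  have hp1 := clean_lemma_part1 ar J part clean β hmin harc h1 h2
  intro n
  induction n using Nat.strong_induction_on with
  | _ n ih =>
  intro W hW R hR hRne hQn hQne
  obtain ⟨V, hVQ⟩ := hQne
  obtain ⟨hVJW, hVR⟩ := Finset.mem_sdiff.1 hVQ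
  obtain ⟨hVW, hVJ⟩ := Finset.mem_erase.1 hVJW
  have hβR : β ≤ R.card := hp1 _ W hW R hR hRne rfl
  have hcardQ : ((J.erase W) \ R).card + R.card + 1 = J.card := by
    rw [Finset.card_sdiff_of_subset hR.1, Finset.card_erase_of_mem hW]
    have h3 := Finset.card_le_card hR.1
    rw [Finset.card_erase_of_mem hW] at h3
    have h4 : 0 < J.card := Finset.card_pos.2 ⟨W, hW⟩
    omega
  -- partners of V
  have hpart : ∀ X ∈ J, part V X → X = W ∨ X ∈ (J.erase W) \ R := by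
    intro X hXJ hp
    by_cases hXW : X = W
    · exact Or.inl hXW
    · right
      refine Finset.mem_sdiff.2 ⟨Finset.mem_erase.2 ⟨hXW, hXJ⟩, fun hXR => hVR ?_⟩
      exact hR.2 X hXR V hVJW (harc X hXJ V hVJ (hsymm V hVJ X hXJ hp)).2
  have hncl : ¬ clean V := by
    intro hc
    have h3 := h1 V hVJ hc
    have hsub : J.filter (part V) ⊆ (insert W ((J.erase W) \ R)).erase V := by
      intro X hX
      obtain ⟨hXJ, hp⟩ := Finset.mem_filter.1 hX
      refine Finset.mem_erase.2 ⟨fun h => (harc V hVJ X hXJ hp).1 h.symm, ?_⟩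
      exact Finset.mem_insert.2 (hpart X hXJ hp)
    have h4 := Finset.card_le_card hsub
    have hWn : W ∉ (J.erase W) \ R := fun h => (Finset.mem_erase.1 (Finset.mem_sdiff.1 h).1).1 rfl
    rw [Finset.card_erase_of_mem (Finset.mem_insert_of_mem hVQ),
      Finset.card_insert_of_notMem hWn] at h4
    omega
  obtain ⟨T, hTJ, hTne, hTar, X, hXJ, hpX, RV, hRVJ, hTR, hXR, hRVc⟩ := h2 V hVJ hncl
  have hVRV : V ∉ RV := fun h => (Finset.mem_erase.1 (hRVJ h)).1 rfl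
  have hRV : ClosedIn ar J V RV := ⟨hRVJ, hRVc⟩
  have hRVne : RV.Nonempty := hTne.mono hTR
  have hβRV : β ≤ RV.card := hp1 _ V hVJ RV hRV hRVne rfl
  have hint : (R ∩ RV).Nonempty := by
    by_contra hemp
    rw [Finset.not_nonempty_iff_eq_empty] at hemp
    have hdisj : Disjoint R RV := Finset.disjoint_iff_inter_eq_empty.2 hemp
    have h5 := Finset.card_union_of_disjoint hdisj
    have h6 : (R ∪ RV).card ≤ J.card := Finset.card_le_card (Finset.union_subset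
      (hR.1.trans (Finset.erase_subset _ _)) (hRVJ.trans (Finset.erase_subset _ _)))
    omega
  have hWRV : W ∈ RV := by
    by_contra hWn
    have hJ : R ∩ RV = J := by
      apply hmin _ _ hint
      · intro Y hY Y' hY' hYY'
        obtain ⟨hYR, hYRV⟩ := Finset.mem_inter.1 hY
        have hY'W : Y' ≠ W := by
          intro h
          subst h
          exact hWn (hRVc Y hYRV Y' (Finset.mem_erase.2 ⟨fun h => hVW h.symm, hY'⟩) hYY')
        have hY'R : Y' ∈ R := hR.2 Y hYR Y' (Finset.mem_erase.2 ⟨hY'W, hY'⟩) hYY'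
        have hY'V : Y' ≠ V := fun h => hVR (h ▸ hY'R)
        exact Finset.mem_inter.2 ⟨hY'R, hRVc Y hYRV Y' (Finset.mem_erase.2 ⟨hY'V, hY'⟩) hYY'⟩
      · exact fun Y hY => Finset.mem_of_mem_erase (hRVJ (Finset.mem_inter.1 hY).2)
    exact hVRV (Finset.mem_inter.1 (hJ.symm ▸ hVJ : V ∈ R ∩ RV)).2
  have hXW : X ≠ W := fun h => hXR (h ▸ hWRV)
  have hXQ : X ∈ (J.erase W) \ R := (hpart X hXJ hpX).resolve_left hXW
  obtain ⟨hVX, _⟩ := harc V hVJ X hXJ hpX
  have hcl : ClosedIn ar J V (R ∪ RV) := by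
    refine ⟨?_, ?_⟩
    · intro Y hY
      rcases Finset.mem_union.1 hY with h | h
      · exact Finset.mem_erase.2 ⟨fun h' => hVR (h' ▸ h), Finset.mem_of_mem_erase (hR.1 h)⟩
      · exact hRVJ h
    · intro Y hY Y' hY' hYY'
      rcases Finset.mem_union.1 hY with h | h
      · by_cases hY'W : Y' = W
        · exact Finset.mem_union_right _ (hY'W ▸ hWRV)
        · exact Finset.mem_union_left _ (hR.2 Y h Y'
            (Finset.mem_erase.2 ⟨hY'W, Finset.mem_of_mem_erase hY'⟩) hYY')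
      · exact Finset.mem_union_right _ (hRVc Y h Y' hY' hYY')
  have hss : (J.erase V) \ (R ∪ RV) ⊂ (J.erase W) \ R := by
    refine ⟨?_, fun h => ?_⟩
    · intro Y hY
      obtain ⟨hY1, hY2⟩ := Finset.mem_sdiff.1 hY
      obtain ⟨hYV, hYJ⟩ := Finset.mem_erase.1 hY1
      rw [Finset.mem_union, not_or] at hY2
      refine Finset.mem_sdiff.2 ⟨Finset.mem_erase.2 ⟨fun h' => hY2.2 (h' ▸ hWRV), hYJ⟩, hY2.1⟩
    · have := h hVQ
      exact (Finset.mem_erase.1 (Finset.mem_sdiff.1 this).1).1 rfl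
  refine ih _ (by have := Finset.card_lt_card hss; omega) V hVJ (R ∪ RV) hcl
    (hRVne.mono Finset.subset_union_right) rfl ?_
  refine ⟨X, Finset.mem_sdiff.2 ⟨Finset.mem_erase.2 ⟨fun h => hVX h.symm, hXJ⟩, ?_⟩⟩
  rw [Finset.mem_union, not_or]
  exact ⟨(Finset.mem_sdiff.1 hXQ).2, hXR⟩

theorem clean_lemma (ar : ℕ → ℕ → Prop) (J : Finset ℕ) (part : ℕ → ℕ → Prop)
    [∀ a, DecidablePred (part a)] (clean : ℕ → Prop) (β : ℕ)
    (hmin : ∀ K ⊆ J, K.Nonempty → (∀ W ∈ K, ∀ Y ∈ J, ar W Y → Y ∈ K) → K = J)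
    (hsymm : ∀ W ∈ J, ∀ X ∈ J, part W X → part X W)
    (harc : ∀ W ∈ J, ∀ X ∈ J, part W X → W ≠ X ∧ ar W X)
    (hβ : J.card < 2 * β)
    (h1 : ∀ W ∈ J, clean W → β ≤ (J.filter (part W)).card)
    (h2 : ∀ W ∈ J, ¬ clean W → ∃ T ⊆ J.erase W, T.Nonempty ∧ (∀ Y ∈ T, ar W Y) ∧
      ∃ X ∈ J, part W X ∧ ∃ R ⊆ J.erase W, T ⊆ R ∧ X ∉ R ∧
        ∀ Y ∈ R, ∀ Y' ∈ J.erase W, ar Y Y' → Y' ∈ R) :
    ∀ W ∈ J, clean W := by
  classical
  intro W hW
  by_contra hc
  obtain ⟨T, hTJ, hTne, hTar, X, hXJ, hpX, R, hRJ, hTR, hXR, hRc⟩ := h2 W hW hc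
  refine clean_lemma_part2 ar J part clean β hmin hsymm harc hβ h1 h2 _ W hW R ⟨hRJ, hRc⟩
    (hTne.mono hTR) rfl ⟨X, Finset.mem_sdiff.2 ⟨Finset.mem_erase.2 ⟨?_, hXJ⟩, hXR⟩⟩
  exact fun h => (harc W hW X hXJ hpX).1 h.symm

end Pool.Agent.H25.EA
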