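import Pool.Agent.H25.EA.Cert
import Pool.Agent.H25.EA.Choice
import Pool.Agent.H25.EA.Clean

/-!
# Assembly
-/

set_option autoImplicit false
set_option linter.unusedSectionVars false

namespace Pool.Agent.H25.EA

open Finset

variable {V : Type*} [DecidableEq V] {μ : V → V → ℕ} {s b : ℕ} {U : Finset V} {f : V → ℕ}
  {𝒜 : Finset ℕ} {r : ℕ} {J S : Finset ℕ}

theorem two_le_card (h : Setup μ s b U f 𝒜 r) : 2 ≤ 𝒜.card := by
  by_contra hcon
  have h1 : 𝒜.card = 1 := by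
    have := card_pos.2 ⟨r, h.r_mem⟩
    omega
  have hA : 𝒜 = {r} := by
    obtain ⟨c, hc⟩ := card_eq_one.1 h1
    rw [hc]
    have := h.r_mem
    rw [hc, mem_singleton] at this
    rw [this]
  -- edges between `B` and the class `r`
  have h2 : ∀ y ∈ BB U f 𝒜, 2 ≤ ee μ y (cl U f r) := fun y hy =>
    ee_cl_ge_two h hy h.r_mem
  have h3 : ∀ w ∈ cl U f r, (ee μ w (BB U f 𝒜) : ℤ) ≤ 2 * b := by
    intro w hw
    have := ee_B_bound h h.r_mem hw
    rw [hA] at this ⊢
    simp at this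
    have h4 : (0 : ℤ) ≤ ee μ w (cl U f r) := by positivity
    linarith
  have h5 := card_nsmul_le_sum _ _ _ h2
  rw [dc h.mg (cl U f r) (BB U f 𝒜)] at h5
  have h6 : ∑ w ∈ cl U f r, ee μ w (BB U f 𝒜) ≤ (cl U f r).card * (2 * b) := by
    have : ∀ w ∈ cl U f r, ee μ w (BB U f 𝒜) ≤ 2 * b := fun w hw => by
      have := h3 w hw
      omega
    have := sum_le_card_nsmul _ _ _ this
    rwa [smul_eq_mul] at this
  rw [h.card_B, smul_eq_mul] at h5
  have h7 := h.card_r
  have h8 : (cl U f r).card * (2 * b) ≤ s * (2 * b) := Nat.mul_le_mul_right _ (by omega)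
  have h9 : (b * s + 1) * 2 = s * (2 * b) + 2 := by ring
  omega

/-- if `W` is not clean then some partner of `W` is not reachable -/
theorem witness_of_not_clean (h : Setup μ s b U f 𝒜 r) (hR : Region (arc μ U f) 𝒜 r J S)
    (hc : Case μ b U f 𝒜 r J S) {W : ℕ} (hW : W ∈ J)
    (hn : ¬ ∀ y ∈ BB U f 𝒜, ¬ Heavy μ U f 𝒜 J W y) :
    ∃ T ⊆ J.erase W, T.Nonempty ∧ (∀ Y ∈ T, arc μ U f W Y) ∧
      ∃ X ∈ J, (X ≠ W ∧ 0 < gg μ U f W X) ∧ ∃ R ⊆ J.erase W, T ⊆ R ∧ X ∉ R ∧
        ∀ Y ∈ R, ∀ Y' ∈ J.erase W, arc μ U f Y Y' → Y' ∈ R := by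
  by_contra hcon
  apply hn
  apply no_heavy h hR hc hW
  intro y hy hH X hX hXW hpos R hRs hT hcl
  by_contra hXR
  apply hcon
  refine ⟨TS μ U f 𝒜 W y ∩ J, ?_, hH.2.2, ?_, X, hX, ⟨hXW, hpos⟩, R, hRs, hT, hXR, hcl⟩
  · intro c hc'
    exact hRs (hT hc')
  · intro c hc'
    obtain ⟨w, hw, hcw⟩ := mem_biUnion.1 (mem_inter.1 hc').1
    have hwcl : w ∈ cl U f W := Fm_sub (Tn_sub hw)
    have hcw' := mem_tg.1 hcw
    have hfw := (mem_cl.1 hwcl).2
    refine ⟨?_, w, hwcl, hcw'.2.2⟩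
    rw [← hfw]
    exact hcw'.2.1.symm

/-- a positive gain gives an arc -/
theorem arc_of_gg_pos (h : Setup μ s b U f 𝒜 r) {W X : ℕ} (hX : X ∈ 𝒜) (hXW : X ≠ W)
    (hpos : 0 < gg μ U f W X) : arc μ U f W X := by
  by_contra hna
  have := gg_nonpos_of_not_out h hX hXW hna
  omega

theorem all_clean (h : Setup μ s b U f 𝒜 r) (hR : Region (arc μ U f) 𝒜 r J S)
    (hc : Case μ b U f 𝒜 r J S) :
    ∀ W ∈ J, ∀ y ∈ BB U f 𝒜, ¬ Heavy μ U f 𝒜 J W y := by
  classical
  have hb2 := Case.b_ge hR hc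
  by_cases h4 : S.card = 1 ∨ 4 ≤ b
  · apply clean_lemma (arc μ U f) J (fun W X => X ≠ W ∧ 0 < gg μ U f W X)
      (fun W => ∀ y ∈ BB U f 𝒜, ¬ Heavy μ U f 𝒜 J W y) (b + 1 - S.card) hR.min
    · rintro W hW X hX ⟨hXW, hpos⟩
      refine ⟨hXW.symm, ?_⟩
      have h1 := hR.isTerm hW
      have h2 := hR.isTerm hX
      rw [gg_symm h h2.mem h2.ne h1.mem h1.ne]
      exact hpos
    · rintro W hW X hX ⟨hXW, hpos⟩
      exact ⟨hXW.symm, arc_of_gg_pos h (hR.sub hX) hXW hpos⟩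
    · rcases hc with ⟨h1, h2⟩ | ⟨h1, _, _, _, h2⟩
      · omega
      · rcases h4 with h4 | h4
        · omega
        · omega
    · intro W hW hclean
      have h1 := many_partners h hR hc h4 hW hclean
      have h2 : (J ∪ S).filter (fun X => X ≠ W ∧ 0 < gg μ U f W X) ⊆
          J.filter (fun X => X ≠ W ∧ 0 < gg μ U f W X) ∪ S := by
        intro X hX
        rw [mem_filter, mem_union] at hX
        rw [mem_union, mem_filter]
        rcases hX.1 with hX' | hX'
        · exact Or.inl ⟨hX', hX.2⟩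
        · exact Or.inr hX'
      have h3 := (card_le_card h2).trans (card_union_le _ _)
      omega
    · intro W hW hn
      exact witness_of_not_clean h hR hc hW hn
  · push Not at h4
    intro W hW
    by_contra hn
    obtain ⟨T, hTJ, ⟨Y, hY⟩, _, X, hX, ⟨hXW, _⟩, R, hRs, hTR, hXR, _⟩ :=
      witness_of_not_clean h hR hc hW hn
    have hJc : J.card ≤ 2 := by
      rcases hc with ⟨h1, _⟩ | ⟨_, _, _, _, h2⟩
      · exact absurd h1 h4.1
      · omega
    have hYJ := mem_erase.1 (hTJ hY)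
    have hXY : X ≠ Y := fun e => hXR (e ▸ hTR hY)
    have : ({W, X, Y} : Finset ℕ) ⊆ J := by
      intro Z hZ
      simp only [mem_insert, mem_singleton] at hZ
      rcases hZ with rfl | rfl | rfl
      · exact hW
      · exact hX
      · exact hYJ.2
    have h3 := card_le_card this
    have h5 : ({W, X, Y} : Finset ℕ).card = 3 := by
      rw [card_insert_of_notMem, card_insert_of_notMem, card_singleton]
      · simpa using hXY
      · simp only [mem_insert, mem_singleton, not_or]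
        exact ⟨hXW.symm, fun e => hYJ.1 e.symm⟩
    omega

theorem no_setup (h : Setup μ s b U f 𝒜 r) : False := by
  rcases choice (arc μ U f) 𝒜 r h.r_mem (two_le_card h) h.reach b with
    ⟨D, Q, hD, hr, ht, ho, hne, hb⟩ | ⟨J, S, hR, hc⟩
  · exact certificate0 h D Q hD hr ht ho hne hb
  · exact certificate h hR hc (all_clean h hR hc)

end Pool.Agent.H25.EA
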