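import Pool.Agent.H25.EA.Count1

/-!
# Counting at one class: heavy vertices of type Q, and the number of partners
-/

set_option autoImplicit false
set_option linter.unusedSectionVars false

namespace Pool.Agent.H25.EA

open Finset

variable {V : Type*} [DecidableEq V] {μ : V → V → ℕ} {s b : ℕ} {U : Finset V} {f : V → ℕ}
  {𝒜 : Finset ℕ} {r : ℕ} {J S : Finset ℕ}

open Classical in
/-- the movable neighbours of the vertices of type `P` -/
noncomputable def LL (μ : V → V → ℕ) (U : Finset V) (f : V → ℕ) (𝒜 : Finset ℕ) (W : ℕ) :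
    Finset V :=
  ((BB U f 𝒜).filter (fun y => IsP μ U f 𝒜 W y)).biUnion (Tn μ U f 𝒜 W)

theorem LL_sub {W : ℕ} : LL μ U f 𝒜 W ⊆ Fm μ U f 𝒜 W := by
  intro w hw
  obtain ⟨y, _, hy⟩ := mem_biUnion.1 hw
  exact Tn_sub hy

theorem mem_LL {W : ℕ} {w : V} : w ∈ LL μ U f 𝒜 W ↔
    ∃ y ∈ BB U f 𝒜, IsP μ U f 𝒜 W y ∧ w ∈ Tn μ U f 𝒜 W y := by
  classical
  unfold LL
  rw [mem_biUnion]
  constructor
  · rintro ⟨y, hy, hw⟩
    rw [mem_filter] at hy
    exact ⟨y, hy.1, hy.2, hw⟩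
  · rintro ⟨y, hy, hP, hw⟩
    exact ⟨y, mem_filter.2 ⟨hy, hP⟩, hw⟩

/-- targets of the vertices which are neighbours of light vertices -/
theorem card_tg_of_light (hR : Region (arc μ U f) 𝒜 r J S)
    (hc : Case μ b U f 𝒜 r J S) {W : ℕ} (hW : W ∈ J) {y : V}
    (hPQ : IsP μ U f 𝒜 W y ∨ IsQ μ U f 𝒜 W y) (hnH : ¬ Heavy μ U f 𝒜 J W y) {w : V}
    (hw : w ∈ Tn μ U f 𝒜 W y) : (tg μ U f 𝒜 w).card ≤ S.card := by
  have hsubTS : tg μ U f 𝒜 w ⊆ TS μ U f 𝒜 W y := by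
    intro c hc'
    exact mem_biUnion.2 ⟨w, hw, hc'⟩
  by_cases h2 : 2 ≤ (TS μ U f 𝒜 W y).card
  · have hempty : ¬ (TS μ U f 𝒜 W y ∩ J).Nonempty :=
      fun hh => hnH ⟨hPQ, h2, hh⟩
    have hTS : TS μ U f 𝒜 W y ⊆ S := by
      intro c hc'
      obtain ⟨w', hw', hcw'⟩ := mem_biUnion.1 hc'
      have := TS_sub hR hW (Fm_sub (Tn_sub hw')) hcw'
      rw [mem_erase, mem_union] at this
      rcases this.2 with hJ | hS
      · exact absurd ⟨c, mem_inter.2 ⟨hc', hJ⟩⟩ hempty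
      · exact hS
    exact (card_le_card hsubTS).trans (card_le_card hTS)
  · have := card_le_card hsubTS
    have := card_S hc
    omega

/-- third counting inequality -/
theorem LO (h : Setup μ s b U f 𝒜 r) (hR : Region (arc μ U f) 𝒜 r J S)
    (hc : Case μ b U f 𝒜 r J S) {W : ℕ} (hW : W ∈ J)
    (hlight : ∀ y ∈ BB U f 𝒜, IsP μ U f 𝒜 W y → ¬ Heavy μ U f 𝒜 J W y) (sv : ℤ)
    (hsv : (∃ m ∈ Nm μ U f 𝒜 W, 6 * (ee μ m (BB U f 𝒜) : ℤ) ≤
      12 * b + 3 * Dl μ U f 𝒜 W m - sv) ∨ sv = 0) :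
    12 + sv + (4 * (b : ℤ) - 2 * S.card) * (LL μ U f 𝒜 W).card +
      6 * b * (Fm μ U f 𝒜 W \ LL μ U f 𝒜 W).card ≤ 3 * GG μ U f 𝒜 W := by
  have ht := hR.isTerm hW
  set N := Nm μ U f 𝒜 W with hN
  set F := Fm μ U f 𝒜 W with hF
  set L := LL μ U f 𝒜 W with hL
  set O := F \ L with hO
  set B := BB U f 𝒜 with hB
  have hLF : L ⊆ F := LL_sub
  have hspF : ∀ g : V → ℤ, ∑ w ∈ F, g w = ∑ w ∈ L, g w + ∑ w ∈ O, g w := by
    intro g
    rw [hO, add_comm]
    exact (sum_sdiff hLF).symm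
  have hspFe : ∀ y', ee μ y' F = ee μ y' L + ee μ y' O := by
    intro y'
    unfold ee
    rw [hO, add_comm]
    exact (sum_sdiff hLF).symm
  have h1 : ∀ y' ∈ B, (12 : ℤ) ≤ 6 * ee μ y' N + 4 * ee μ y' L + 3 * ee μ y' O := by
    intro y' hy'
    have hsp := hspFe y'
    rcases types h ht hy' with ⟨h1, h2, _⟩ | ⟨h1, h2⟩
    · rw [← hN] at h1; omega
    · rw [← hN, ← hF] at h2
      by_cases hP' : IsP μ U f 𝒜 W y'
      · have hTL : Tn μ U f 𝒜 W y' ⊆ L := fun w hw => mem_LL.2 ⟨y', hy', hP', hw⟩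
        have hO0 : ee μ y' O = 0 := by
          unfold ee
          apply sum_eq_zero
          intro w hw
          rw [hO, mem_sdiff] at hw
          by_contra hne
          exact hw.2 (hTL (mem_filter.2 ⟨hw.1, Nat.pos_of_ne_zero hne⟩))
        have := hP'.2
        rw [← hF] at this
        omega
      · by_cases hN0 : ee μ y' N = 0
        · have : ¬ ee μ y' F = 3 := fun h3 => hP' ⟨hN0, h3⟩
          omega
        · omega
  have h2 : (12 : ℤ) * B.card ≤ 6 * ∑ z ∈ N, (ee μ z B : ℤ) + 4 * ∑ w ∈ L, (ee μ w B : ℤ) +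
      3 * ∑ w ∈ O, (ee μ w B : ℤ) := by
    have e1 : ∑ z ∈ N, (ee μ z B : ℤ) = ∑ y' ∈ B, (ee μ y' N : ℤ) := by
      exact_mod_cast (dc h.mg N B).symm
    have e2 : ∑ w ∈ L, (ee μ w B : ℤ) = ∑ y' ∈ B, (ee μ y' L : ℤ) := by
      exact_mod_cast (dc h.mg L B).symm
    have e3 : ∑ w ∈ O, (ee μ w B : ℤ) = ∑ y' ∈ B, (ee μ y' O : ℤ) := by
      exact_mod_cast (dc h.mg O B).symm
    rw [e1, e2, e3, mul_sum, mul_sum, mul_sum, ← sum_add_distrib, ← sum_add_distrib]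
    have := card_nsmul_le_sum B _ 12 h1
    rw [nsmul_eq_mul] at this
    linarith
  have eD : ∀ P : Finset V, ∑ x ∈ P, 3 * Dl μ U f 𝒜 W x = 3 * ∑ x ∈ P, Dl μ U f 𝒜 W x :=
    fun P => (mul_sum _ _ _).symm
  have h3 : 6 * ∑ z ∈ N, (ee μ z B : ℤ) ≤ 12 * b * N.card + 3 * ∑ z ∈ N, Dl μ U f 𝒜 W z
      - sv := by
    have hgen : ∀ z ∈ N, 6 * (ee μ z B : ℤ) ≤ 12 * b + 3 * Dl μ U f 𝒜 W z := by
      intro z hz
      have hb := ee_B_bound' h ht.mem (Nm_sub hz)
      have hn := Dl_nonpos h hz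
      rw [← hB] at hb
      omega
    rcases hsv with ⟨m, hmN, hm⟩ | hsv
    · have hgen' : ∀ z ∈ N, 6 * (ee μ z B : ℤ) ≤ 12 * b + 3 * Dl μ U f 𝒜 W z -
          if z = m then sv else 0 := by
        intro z hz
        split_ifs with hzm
        · rw [hzm]; exact hm
        · have := hgen z hz
          linarith
      have h5 := sum_le_sum hgen'
      rw [sum_sub_distrib, sum_add_distrib, ← mul_sum, ← mul_sum, sum_const, nsmul_eq_mul,
        sum_ite_eq' N m, if_pos hmN, eD] at h5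
      linarith
    · have h5 := sum_le_sum hgen
      rw [sum_add_distrib, ← mul_sum, ← mul_sum, sum_const, nsmul_eq_mul, eD] at h5
      linarith
  have h4 : 4 * ∑ w ∈ L, (ee μ w B : ℤ) ≤ (8 * b + 2 * S.card) * L.card +
      3 * ∑ w ∈ L, Dl μ U f 𝒜 W w := by
    have hgen : ∀ w ∈ L, 4 * (ee μ w B : ℤ) ≤ (8 * b + 2 * S.card) + 3 * Dl μ U f 𝒜 W w := by
      intro w hw
      obtain ⟨y, hy, hP, hwT⟩ := mem_LL.1 hw
      have hb := ee_B_bound' h ht.mem (Fm_sub (hLF hw))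
      rw [← hB] at hb
      have h6 := card_tg_of_light hR hc hW (Or.inl hP) (hlight y hy hP) hwT
      have h7 := Dl_le h (Fm_sub (hLF hw))
      have h8 : ((tg μ U f 𝒜 w).card : ℤ) ≤ S.card := by exact_mod_cast h6
      have h9 : (0 : ℤ) ≤ ee μ w (cl U f W) := by positivity
      linarith
    have h5 := sum_le_sum hgen
    rw [sum_add_distrib, ← mul_sum, sum_const, nsmul_eq_mul, eD] at h5
    linarith
  have h5 : 3 * ∑ w ∈ O, (ee μ w B : ℤ) ≤ 6 * b * O.card + 3 * ∑ w ∈ O, Dl μ U f 𝒜 W w := by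
    have hgen : ∀ w ∈ O, 3 * (ee μ w B : ℤ) ≤ 6 * b + 3 * Dl μ U f 𝒜 W w := by
      intro w hw
      have hwF : w ∈ F := (mem_sdiff.1 hw).1
      have hb := ee_B_bound' h ht.mem (Fm_sub hwF)
      rw [← hB] at hb
      omega
    have h5 := sum_le_sum hgen
    rw [sum_add_distrib, ← mul_sum, sum_const, nsmul_eq_mul, eD] at h5
    linarith
  have h8 : ∑ w ∈ N, Dl μ U f 𝒜 W w + (∑ w ∈ L, Dl μ U f 𝒜 W w + ∑ w ∈ O, Dl μ U f 𝒜 W w) =
      GG μ U f 𝒜 W := by
    rw [← hspF, ← sum_Dl, ← sum_split]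
  have h9 : (N.card : ℤ) + (L.card + O.card) = s := by
    have := card_split (μ := μ) (U := U) (f := f) (𝒜 := 𝒜) W
    rw [h.card_cl W ht.mem ht.ne] at this
    have hLO : L.card + O.card = F.card := by
      rw [hO, card_sdiff_of_subset hLF]
      have := card_le_card hLF
      omega
    rw [← hLO] at this
    exact_mod_cast this
  have h10 : (B.card : ℤ) = b * s + 1 := by
    have := h.card_B
    exact_mod_cast this
  rw [h10] at h2
  have h11 : (b : ℤ) * s = b * N.card + b * L.card + b * O.card := by rw [← h9]; ring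
  linarith

/-- Module K1: if all partners are reachable then there is no heavy vertex at `W`. -/
theorem no_heavy (h : Setup μ s b U f 𝒜 r) (hR : Region (arc μ U f) 𝒜 r J S)
    (hc : Case μ b U f 𝒜 r J S) {W : ℕ} (hW : W ∈ J)
    (hreach : ∀ y ∈ BB U f 𝒜, Heavy μ U f 𝒜 J W y → ∀ X ∈ J, X ≠ W → 0 < gg μ U f W X →
      ∀ R ⊆ J.erase W, TS μ U f 𝒜 W y ∩ J ⊆ R →
      (∀ Y ∈ R, ∀ Y' ∈ J.erase W, arc μ U f Y Y' → Y' ∈ R) → X ∈ R) :
    ∀ y ∈ BB U f 𝒜, ¬ Heavy μ U f 𝒜 J W y := by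
  have hpay : ∀ y ∈ BB U f 𝒜, Heavy μ U f 𝒜 J W y → Pays μ U f J S W y :=
    fun y hy hH => pays_of_heavy h hR hc hW hy hH (hreach y hy hH)
  have hnP := no_heavy_P h hR hc hW hpay
  intro y hy hH
  have ht := hR.isTerm hW
  have hb2 := Case.b_ge hR hc
  have hQ : IsQ μ U f 𝒜 W y := by
    rcases hH.1 with hP | hQ
    · exact absurd hP (hnP y hy hH)
    · exact hQ
  have hp := hpay y hy hH
  obtain ⟨hst, _, m, hmN, hmac, hmu, hmd⟩ := PQ_struct h ht.mem ht.ne ht.no hy (Or.inr hQ)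
  rw [hQ.1] at hmu
  have hsw := swap_bound h ht.mem ht.ne ht.no hmN hy hmac
  have hcT := card_Tn h ht hy (Or.inr hQ)
  rw [hQ.2] at hcT
  have hLO := LO h hR hc hW (fun y' hy' hP' hH' => hnP y' hy' hH' hP')
    (3 * (2 + (EE μ U f 𝒜 y : ℤ))) (Or.inl ⟨m, hmN, by
      have hb := ee_B_bound' h ht.mem (Nm_sub hmN)
      omega⟩)
  have hG := GG_le h hR hc hW hp
  have hE := EE_erase (μ := μ) (U := U) (f := f) ht.mem y
  have hep := ep_of_PQ (Or.inr hQ)
  have hEb := EE_bound h hy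
  rw [hep] at hE
  have hS := card_S hc
  have hcard : (LL μ U f 𝒜 W).card + (Fm μ U f 𝒜 W \ LL μ U f 𝒜 W).card =
      (Fm μ U f 𝒜 W).card := by
    rw [card_sdiff_of_subset LL_sub]
    have := card_le_card (LL_sub (μ := μ) (U := U) (f := f) (𝒜 := 𝒜) (W := W))
    omega
  have hbig : 3 ≤ (LL μ U f 𝒜 W).card ∨ 2 ≤ (Fm μ U f 𝒜 W \ LL μ U f 𝒜 W).card := by
    by_cases hex : ∃ w ∈ Tn μ U f 𝒜 W y, w ∈ LL μ U f 𝒜 W
    · left
      obtain ⟨w, _, hwL⟩ := hex
      obtain ⟨y', hy', hP', _⟩ := mem_LL.1 hwL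
      have hcT' := card_Tn h ht hy' (Or.inl hP')
      rw [hP'.2] at hcT'
      rw [← hcT']
      apply card_le_card
      intro w' hw'
      exact mem_LL.2 ⟨y', hy', hP', hw'⟩
    · right
      push Not at hex
      rw [← hcT]
      apply card_le_card
      intro w' hw'
      exact mem_sdiff.2 ⟨Tn_sub hw', hex w' hw'⟩
  set E' := ∑ c ∈ 𝒜.erase W, ep μ U f y c with hE'
  set φ := (Fm μ U f 𝒜 W).card with hφ
  set lc := (LL μ U f 𝒜 W).card with hlc
  set oc := (Fm μ U f 𝒜 W \ LL μ U f 𝒜 W).card with hoc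
  have hE'b : (E' : ℤ) ≤ 2 * b - 3 := by omega
  rw [hE] at hLO
  push_cast at hLO
  have hb2' : (2 : ℤ) ≤ b := by exact_mod_cast hb2
  have hcard' : (φ : ℤ) = lc + oc := by omega
  have hlc0 : (0 : ℤ) ≤ lc := by positivity
  have hoc0 : (0 : ℤ) ≤ oc := by positivity
  rcases hS with hS | hS <;> rw [hS] at hG hLO <;> push_cast at hG hLO <;> rw [hcard'] at hG
  · rcases hbig with hbig | hbig
    · have hbig' : (3 : ℤ) ≤ lc := by exact_mod_cast hbig
      nlinarith [mul_nonneg (sub_nonneg.2 hb2') (sub_nonneg.2 hbig'),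
        mul_nonneg (sub_nonneg.2 hb2') hoc0]
    · have hbig' : (2 : ℤ) ≤ oc := by exact_mod_cast hbig
      nlinarith [mul_nonneg (sub_nonneg.2 hb2') (sub_nonneg.2 hbig'),
        mul_nonneg (sub_nonneg.2 hb2') hlc0]
  · rcases hbig with hbig | hbig
    · have hbig' : (3 : ℤ) ≤ lc := by exact_mod_cast hbig
      nlinarith [mul_nonneg (sub_nonneg.2 hb2') (sub_nonneg.2 hbig'),
        mul_nonneg (sub_nonneg.2 hb2') hoc0]
    · have hbig' : (2 : ℤ) ≤ oc := by exact_mod_cast hbig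
      nlinarith [mul_nonneg (sub_nonneg.2 hb2') (sub_nonneg.2 hbig'),
        mul_nonneg (sub_nonneg.2 hb2') hlc0]

open Classical in
/-- Module K2: a class without heavy vertices has many partners. -/
theorem many_partners (h : Setup μ s b U f 𝒜 r) (hR : Region (arc μ U f) 𝒜 r J S)
    (hc : Case μ b U f 𝒜 r J S) (h4 : S.card = 1 ∨ 4 ≤ b) {W : ℕ} (hW : W ∈ J)
    (hclean : ∀ y ∈ BB U f 𝒜, ¬ Heavy μ U f 𝒜 J W y) :
    b + 1 ≤ ((J ∪ S).filter (fun X => X ≠ W ∧ 0 < gg μ U f W X)).card := by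
  have ht := hR.isTerm hW
  have hb2 := Case.b_ge hR hc
  have hLO := LO h hR hc hW (fun y' hy' _ => hclean y' hy') 0 (Or.inr rfl)
  set Pt := (J ∪ S).filter (fun X => X ≠ W ∧ 0 < gg μ U f W X) with hPt
  set L := LL μ U f 𝒜 W with hL
  set O := Fm μ U f 𝒜 W \ L with hO
  have hJS : J ∪ S ⊆ 𝒜 := union_subset hR.sub hR.Ssub
  have hG1 : GG μ U f 𝒜 W ≤ ∑ X ∈ Pt, gg μ U f W X := by
    unfold GG
    have hsub : Pt ⊆ 𝒜.erase W := by
      intro X hX
      rw [hPt, mem_filter] at hX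
      exact mem_erase.2 ⟨hX.2.1, hJS hX.1⟩
    rw [← sum_sdiff hsub]
    have : ∑ X ∈ 𝒜.erase W \ Pt, gg μ U f W X ≤ 0 := by
      apply sum_nonpos
      intro X hX
      rw [mem_sdiff, mem_erase] at hX
      by_contra hcon
      push Not at hcon
      apply hX.2
      rw [hPt, mem_filter]
      refine ⟨?_, hX.1.1, hcon⟩
      by_contra hJ
      have hna : ¬ arc μ U f W X := by
        intro ha
        apply hJ
        rw [mem_union]
        exact hR.out W hW X hX.1.2 ha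
      have := gg_nonpos_of_not_out h hX.1.2 hX.1.1 hna
      omega
    linarith
  have hG2 : ∀ X ∈ Pt, gg μ U f W X ≤
      2 * ((L.filter (fun w => X ∈ tg μ U f 𝒜 w)).card : ℤ) + 2 * O.card := by
    intro X hX
    rw [hPt, mem_filter] at hX
    have h1 := gg_le_targets h (W := W) (hJS hX.1) hX.2.1
    have h2 : (Fm μ U f 𝒜 W).filter (fun w => X ∈ tg μ U f 𝒜 w) ⊆
        (L.filter (fun w => X ∈ tg μ U f 𝒜 w)) ∪ O := by
      intro w hw
      rw [mem_filter] at hw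
      by_cases hwL : w ∈ L
      · exact mem_union_left _ (mem_filter.2 ⟨hwL, hw.2⟩)
      · exact mem_union_right _ (mem_sdiff.2 ⟨hw.1, hwL⟩)
    have h3 := (card_le_card h2).trans (card_union_le _ _)
    have h4 : (((Fm μ U f 𝒜 W).filter (fun w => X ∈ tg μ U f 𝒜 w)).card : ℤ) ≤
        ((L.filter (fun w => X ∈ tg μ U f 𝒜 w)).card : ℤ) + O.card := by exact_mod_cast h3
    linarith
  have hG3 := sum_le_sum hG2
  rw [sum_add_distrib, ← mul_sum, sum_const, nsmul_eq_mul] at hG3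
  have hG4 : ∑ X ∈ Pt, ((L.filter (fun w => X ∈ tg μ U f 𝒜 w)).card : ℤ) ≤ S.card * L.card := by
    have e1 : ∑ X ∈ Pt, (L.filter (fun w => X ∈ tg μ U f 𝒜 w)).card =
        ∑ w ∈ L, (Pt.filter (fun X => X ∈ tg μ U f 𝒜 w)).card := by
      simp only [card_filter]
      exact sum_comm
    have e2 : ∑ w ∈ L, (Pt.filter (fun X => X ∈ tg μ U f 𝒜 w)).card ≤ ∑ w ∈ L, S.card := by
      apply sum_le_sum
      intro w hw
      obtain ⟨y, hy, hP, hwT⟩ := mem_LL.1 hw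
      have h6 := card_tg_of_light hR hc hW (Or.inl hP) (hclean y hy) hwT
      refine le_trans (card_le_card ?_) h6
      intro X hX
      exact (mem_filter.1 hX).2
    rw [sum_const, smul_eq_mul] at e2
    have : ∑ X ∈ Pt, (L.filter (fun w => X ∈ tg μ U f 𝒜 w)).card ≤ L.card * S.card := by
      rw [e1]; exact e2
    have h' : ((∑ X ∈ Pt, (L.filter (fun w => X ∈ tg μ U f 𝒜 w)).card : ℕ) : ℤ) ≤
        ((L.card * S.card : ℕ) : ℤ) := by exact_mod_cast this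
    push_cast at h'
    linarith
  by_contra hcon
  have hpb : (Pt.card : ℤ) ≤ b := by
    have : Pt.card ≤ b := by omega
    exact_mod_cast this
  have hb2' : (2 : ℤ) ≤ b := by exact_mod_cast hb2
  have hlc0 : (0 : ℤ) ≤ L.card := by positivity
  have hoc0 : (0 : ℤ) ≤ O.card := by positivity
  have hS := card_S hc
  have hfin : 12 + (4 * (b : ℤ) - 8 * S.card) * L.card ≤ 6 * (Pt.card - b) * O.card := by
    nlinarith
  have h5 : 6 * ((Pt.card : ℤ) - b) * O.card ≤ 0 := by nlinarith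
  have h6 : (0 : ℤ) ≤ (4 * (b : ℤ) - 8 * S.card) * L.card := by
    apply mul_nonneg _ hlc0
    rcases h4 with h4 | h4
    · rw [h4]; push_cast; linarith
    · have h4' : (4 : ℤ) ≤ b := by exact_mod_cast h4
      have : (S.card : ℤ) ≤ 2 := by
        rcases hS with hS | hS <;> rw [hS] <;> norm_num
      linarith
  linarith

end Pool.Agent.H25.EA
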