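import Pool.Agent.H25.EA.ExchBase
import Pool.Agent.H25.EA.AcBasic

/-!
# Module X1: the exchanges R1, E2 and the structure of the types P and Q
-/

set_option autoImplicit false
set_option linter.unusedSectionVars false

namespace Pool.Agent.H18.EAx

open Finset Pool.Agent.H25.EA

variable {V : Type*} [DecidableEq V]
variable {μ : V → V → ℕ} {s b : ℕ} {U : Finset V} {f : V → ℕ} {𝒜 : Finset ℕ} {r : ℕ}

theorem mem_tg {v : V} {c : ℕ} : c ∈ tg μ U f 𝒜 v ↔ c ∈ 𝒜 ∧ c ≠ f v ∧ mov μ U f v c := by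
  classical
  exact Finset.mem_filter

theorem mem_Fm {W : ℕ} {v : V} : v ∈ Fm μ U f 𝒜 W ↔ v ∈ cl U f W ∧ tg μ U f 𝒜 v ≠ ∅ :=
  Finset.mem_filter

theorem mem_Nm {W : ℕ} {v : V} : v ∈ Nm μ U f 𝒜 W ↔ v ∈ cl U f W ∧ tg μ U f 𝒜 v = ∅ :=
  Finset.mem_filter

theorem mem_Tn {W : ℕ} {y v : V} : v ∈ Tn μ U f 𝒜 W y ↔ v ∈ Fm μ U f 𝒜 W ∧ 0 < μ y v :=
  Finset.mem_filter

theorem exists_target {W : ℕ} {w : V} (hw : w ∈ Fm μ U f 𝒜 W) :
    ∃ Y ∈ 𝒜, Y ≠ W ∧ mov μ U f w Y := by
  obtain ⟨h1, h2⟩ := mem_Fm.1 hw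
  obtain ⟨Y, hY⟩ := Finset.nonempty_iff_ne_empty.2 h2
  obtain ⟨h3, h4, h5⟩ := mem_tg.1 hY
  refine ⟨Y, h3, ?_, h5⟩
  rw [(mem_cl.1 h1).2] at h4
  exact h4

theorem ee_Nm_add_Fm (y : V) (W : ℕ) :
    ee μ y (Nm μ U f 𝒜 W) + ee μ y (Fm μ U f 𝒜 W) = ee μ y (cl U f W) :=
  Finset.sum_filter_add_sum_filter_not (cl U f W) (fun v => tg μ U f 𝒜 v = ∅) _

end Pool.Agent.H18.EAx

namespace Pool.Agent.H25.EA

open Finset Pool.Agent.H18.EAx

variable {V : Type*} [DecidableEq V]
variable {μ : V → V → ℕ} {s b : ℕ} {U : Finset V} {f : V → ℕ} {𝒜 : Finset ℕ} {r : ℕ}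

/-- a movable vertex of a terminal class cannot be replaced by a vertex of `B` -/
theorem R1 (h : Setup μ s b U f 𝒜 r) {W : ℕ} (hW : W ∈ 𝒜) (hWr : W ≠ r)
    (ht : NoCl (arc μ U f) 𝒜 r {W}) {w : V} (hw : w ∈ Fm μ U f 𝒜 W) {y : V}
    (hy : y ∈ BB U f 𝒜) : ¬ Ac μ (insert y ((cl U f W).erase w)) := by
  intro hac
  obtain ⟨Y, hY, hYW, hmY⟩ := exists_target hw
  have hwW := (mem_Fm.1 hw).1
  obtain ⟨N, hN1, hN2⟩ := path_exchange h (S := {W})
    (by rw [Finset.mem_singleton]; exact fun h' => hWr h'.symm) ht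
    (q := w) ⟨Y, hY, by rwa [Finset.mem_singleton], hmY⟩
  have hyA : y ∉ AA U f 𝒜 := fun h' => (mem_BB.1 hy).2 (mem_AA.1 h').2
  have hcard : (insert y (AA U f 𝒜)).card = 𝒜.card * s := by
    rw [Finset.card_insert_of_notMem hyA]; exact card_AA h
  refine h.noEC (insert y (AA U f 𝒜)) ?_ hcard ?_ ?_
  · intro v hv
    rcases Finset.mem_insert.1 hv with rfl | hv
    · exact (mem_BB.1 hy).1
    · exact (mem_AA.1 hv).1
  · intro v hv
    obtain ⟨hvU, hvn⟩ := Finset.mem_sdiff.1 hv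
    have hsub : U \ insert y (AA U f 𝒜) ⊆ BB U f 𝒜 := by
      intro x hx
      obtain ⟨hxU, hxn⟩ := Finset.mem_sdiff.1 hx
      refine mem_BB.2 ⟨hxU, fun hx' => hxn ?_⟩
      exact Finset.mem_insert_of_mem (mem_AA.2 ⟨hxU, hx'⟩)
    have h1 := x_ee_BB_le h (hsub hv)
    have h2 : ee μ v (U \ insert y (AA U f 𝒜)) ≤ ee μ v (BB U f 𝒜) := x_ee_mono hsub
    omega
  · let M : ℕ → Finset V := fun c => if c = W then insert y ((cl U f W).erase w) else N c
    have hMW : M W = insert y ((cl U f W).erase w) := if_pos rfl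
    have hMc : ∀ c, c ≠ W → M c = N c := fun c hc => if_neg hc
    refine EC_of_cover M ?_ ?_ ?_ hcard
    · intro c hc
      by_cases hcW : c = W
      · subst hcW
        rw [hMW]
        have h1 := Finset.card_insert_le y ((cl U f c).erase w)
        have h2 := Finset.card_erase_of_mem hwW
        have h3 := h.card_cl c hc hWr
        have h4 : 0 < (cl U f c).card := Finset.card_pos.2 ⟨_, hwW⟩
        omega
      · rw [hMc c hcW]
        exact (hN1 c hc (by rwa [Finset.mem_singleton])).1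
    · intro c hc
      by_cases hcW : c = W
      · subst hcW
        rw [hMW]; exact hac
      · rw [hMc c hcW]
        exact (hN1 c hc (by rwa [Finset.mem_singleton])).2
    · have hN2' : ∀ v, (v = w ∨ ∃ c ∈ 𝒜, c ∉ ({W} : Finset ℕ) ∧ v ∈ cl U f c) →
          ∃ c ∈ 𝒜, v ∈ M c := by
        intro v hv
        obtain ⟨c, hc, hcS, hvc⟩ := hN2 v hv
        rw [Finset.mem_singleton] at hcS
        exact ⟨c, hc, by rw [hMc c hcS]; exact hvc⟩
      intro v hv
      rcases Finset.mem_insert.1 hv with rfl | hv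
      · exact ⟨W, hW, by rw [hMW]; exact Finset.mem_insert_self _ _⟩
      · obtain ⟨hvU, hvA⟩ := mem_AA.1 hv
        by_cases hvw : v = w
        · exact hN2' v (Or.inl hvw)
        · by_cases hvW : f v = W
          · refine ⟨W, hW, ?_⟩
            rw [hMW]
            exact Finset.mem_insert_of_mem (Finset.mem_erase.2 ⟨hvw, mem_cl.2 ⟨hvU, hvW⟩⟩)
          · exact hN2' v (Or.inr ⟨f v, hvA, by rwa [Finset.mem_singleton],
              mem_cl.2 ⟨hvU, rfl⟩⟩)

/-- the structure at `W` of the vertices of type `P` and `Q` -/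
theorem PQ_struct (h : Setup μ s b U f 𝒜 r) {W : ℕ} (hW : W ∈ 𝒜) (hWr : W ≠ r)
    (ht : NoCl (arc μ U f) 𝒜 r {W}) {y : V} (hy : y ∈ BB U f 𝒜)
    (hPQ : IsP μ U f 𝒜 W y ∨ IsQ μ U f 𝒜 W y) :
    (∀ w ∈ Tn μ U f 𝒜 W y, μ y w = 1 ∧ 1 ≤ ee μ w (cl U f W)) ∧
    (∀ p ∈ Tn μ U f 𝒜 W y, ∀ q ∈ Tn μ U f 𝒜 W y, p ≠ q →
      ee μ y (((cl U f W).erase p).erase q) ≤ 1) ∧
    ∃ m ∈ Nm μ U f 𝒜 W, Ac μ (insert y ((cl U f W).erase m)) ∧
      μ y m ≤ ee μ y (Nm μ U f 𝒜 W) ∧ 2 ≤ ee μ m (cl U f W) + μ y m := by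
  have hyW : y ∉ cl U f W := notMem_cl_of_BB hy hW
  have h3 : ee μ y (cl U f W) = 3 := by
    rw [← ee_Nm_add_Fm (𝒜 := 𝒜)]
    rcases hPQ with ⟨h1, h2⟩ | ⟨h1, h2⟩ <;> omega
  have hF2 : 2 ≤ ee μ y (Fm μ U f 𝒜 W) := by
    rcases hPQ with ⟨h1, h2⟩ | ⟨h1, h2⟩ <;> omega
  have hac := h.ac W hW
  have hone : ∀ w ∈ Tn μ U f 𝒜 W y, μ y w = 1 := by
    intro w hw
    obtain ⟨hwF, hpos⟩ := mem_Tn.1 hw
    have hwW := (mem_Fm.1 hwF).1
    by_contra hne
    apply R1 h hW hWr ht hwF hy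
    apply x_Ac_insert h.mg (x_Ac_mono hac (Finset.erase_subset _ _))
    have := x_ee_erase (μ := μ) (v := y) hwW
    omega
  have htwo : ∀ p ∈ Tn μ U f 𝒜 W y, ∀ q ∈ Tn μ U f 𝒜 W y, p ≠ q →
      ee μ y (((cl U f W).erase p).erase q) ≤ 1 := by
    intro p hp q hq hpq
    have hpW := (mem_Fm.1 (mem_Tn.1 hp).1).1
    have hqW := (mem_Fm.1 (mem_Tn.1 hq).1).1
    have h1 := x_ee_erase (μ := μ) (v := y) hpW
    have h2 := x_ee_erase (μ := μ) (v := y) (Finset.mem_erase.2 ⟨hpq.symm, hqW⟩)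
    have h4 := hone p hp
    have h5 := hone q hq
    omega
  refine ⟨?_, htwo, ?_⟩
  · intro w hw
    refine ⟨hone w hw, ?_⟩
    obtain ⟨hwF, hpos⟩ := mem_Tn.1 hw
    have hwW := (mem_Fm.1 hwF).1
    by_contra hdeg
    -- another neighbour
    have hex : ∃ w' ∈ Tn μ U f 𝒜 W y, w' ≠ w := by
      by_contra hno
      push Not at hno
      have : ee μ y (Fm μ U f 𝒜 W) ≤ μ y w := by
        have h1 := x_ee_erase (μ := μ) (v := y) hwF
        have h2 : ee μ y ((Fm μ U f 𝒜 W).erase w) = 0 := by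
          unfold ee
          apply Finset.sum_eq_zero
          intro u hu
          obtain ⟨huw, huF⟩ := Finset.mem_erase.1 hu
          by_contra h0
          exact huw (hno u (mem_Tn.2 ⟨huF, Nat.pos_of_ne_zero h0⟩))
        omega
      have := hone w hw
      omega
    obtain ⟨w', hw', hne⟩ := hex
    have hw'F := (mem_Tn.1 hw').1
    have hw'W := (mem_Fm.1 hw'F).1
    apply R1 h hW hWr ht hw'F hy
    have h1 : Ac μ (insert y (((cl U f W).erase w).erase w')) :=
      x_Ac_insert h.mg (x_Ac_mono hac ((Finset.erase_subset _ _).trans (Finset.erase_subset _ _)))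
        (htwo w hw w' hw' hne.symm)
    have h2 : Ac μ (insert w (insert y (((cl U f W).erase w).erase w'))) := by
      apply x_Ac_insert h.mg h1
      have hyn : y ∉ ((cl U f W).erase w).erase w' := fun h' =>
        hyW (Finset.mem_of_mem_erase (Finset.mem_of_mem_erase h'))
      rw [x_ee_insert hyn, h.mg.symm w y, hone w hw]
      have : ee μ w (((cl U f W).erase w).erase w') ≤ ee μ w (cl U f W) :=
        x_ee_mono ((Finset.erase_subset _ _).trans (Finset.erase_subset _ _))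
      omega
    refine x_Ac_mono h2 ?_
    intro x hx
    rcases Finset.mem_insert.1 hx with rfl | hx
    · exact Finset.mem_insert_of_mem (Finset.mem_insert_self _ _)
    · obtain ⟨hx1, hx2⟩ := Finset.mem_erase.1 hx
      by_cases hxw : x = w
      · exact hxw ▸ Finset.mem_insert_self _ _
      · exact Finset.mem_insert_of_mem (Finset.mem_insert_of_mem
          (Finset.mem_erase.2 ⟨hx1, Finset.mem_erase.2 ⟨hxw, hx2⟩⟩))
  · have hne : (cl U f W).Nonempty := by
      rw [← Finset.card_pos, h.card_cl W hW hWr]; exact s_pos h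
    obtain ⟨m, hm, hmac⟩ := exists_solo h.mg hac hne hyW (by omega)
    have hmN : m ∈ Nm μ U f 𝒜 W := by
      rw [mem_Nm]
      refine ⟨hm, ?_⟩
      by_contra hne
      exact R1 h hW hWr ht (mem_Fm.2 ⟨hm, hne⟩) hy hmac
    refine ⟨m, hmN, hmac, ?_, ?_⟩
    · exact Finset.single_le_sum (f := fun u => μ y u) (fun _ _ => Nat.zero_le _) hmN
    · by_contra hlt
      apply h.blocked y hy W hW
      have h1 : Ac μ (insert m (insert y ((cl U f W).erase m))) := by
        apply x_Ac_insert h.mg hmac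
        have hyn : y ∉ (cl U f W).erase m := fun h' => hyW (Finset.mem_of_mem_erase h')
        rw [x_ee_insert hyn, h.mg.symm m y]
        have : ee μ m ((cl U f W).erase m) ≤ ee μ m (cl U f W) :=
          x_ee_mono (Finset.erase_subset _ _)
        omega
      have h2 : insert m (insert y ((cl U f W).erase m)) = insert y (cl U f W) := by
        rw [Finset.insert_comm, Finset.insert_erase hm]
      rw [h2] at h1
      exact h1

/-- the exchange with two vertices of `B` -/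
theorem E2 (h : Setup μ s b U f 𝒜 r) {W X : ℕ} (hW : W ∈ 𝒜) (hWr : W ≠ r) (hX : X ∈ 𝒜)
    (hXr : X ≠ r) (hXW : X ≠ W) (hNoX : NoCl (arc μ U f) 𝒜 r {X})
    (hNo : NoCl (arc μ U f) 𝒜 r {W, X}) {y y' : V} (hy : y ∈ BB U f 𝒜) (hy' : y' ∈ BB U f 𝒜)
    (hne : y ≠ y') (hyy : μ y y' = 0) {p q : V} (hp : p ∈ cl U f W) (hq : q ∈ cl U f W)
    (hpq : p ≠ q) (h1 : ee μ y (((cl U f W).erase p).erase q) ≤ 1)
    (h1' : ee μ y' (((cl U f W).erase p).erase q) ≤ 1) (hpX : mov μ U f p X)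
    (hqY : ∃ Y ∈ 𝒜, Y ≠ W ∧ Y ≠ X ∧ mov μ U f q Y) (hep : ep μ U f y X ≤ 1) : False := by
  have hyX : y ∉ cl U f X := notMem_cl_of_BB hy hX
  have hyW : y ∉ cl U f W := notMem_cl_of_BB hy hW
  have hneX : (cl U f X).Nonempty := by
    rw [← Finset.card_pos, h.card_cl X hX hXr]; exact s_pos h
  obtain ⟨z, hz, hzac⟩ := exists_solo h.mg (h.ac X hX) hneX hyX (by unfold ep at hep; omega)
  have hzN : ∀ c ∈ 𝒜, c ≠ X → ¬ mov μ U f z c := by
    intro c hc hcX hm
    apply R1 h hX hXr hNoX (w := z) _ hy hzac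
    rw [mem_Fm]
    refine ⟨hz, ?_⟩
    rw [← Finset.nonempty_iff_ne_empty]
    exact ⟨c, mem_tg.2 ⟨hc, by rw [(mem_cl.1 hz).2]; exact hcX, hm⟩⟩
  have hsw := (h.swap X hX hXr hNoX z hz hzN y hy hzac).1
  obtain ⟨Y, hY, hYW, hYX, hmY⟩ := hqY
  obtain ⟨N, hN1, hN2⟩ := path_exchange h (S := {W, X})
    (by
      rw [Finset.mem_insert, Finset.mem_singleton]
      rintro (h' | h')
      · exact hWr h'.symm
      · exact hXr h'.symm) hNo
    (q := q) ⟨Y, hY, by
      rw [Finset.mem_insert, Finset.mem_singleton]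
      rintro (h' | h')
      · exact hYW h'
      · exact hYX h', hmY⟩
  have hyA : y ∉ AA U f 𝒜 := fun h' => (mem_BB.1 hy).2 (mem_AA.1 h').2
  have hy'A : y' ∉ AA U f 𝒜 := fun h' => (mem_BB.1 hy').2 (mem_AA.1 h').2
  have hzA : z ∈ AA U f 𝒜 := mem_AA.2 ⟨(mem_cl.1 hz).1, by rw [(mem_cl.1 hz).2]; exact hX⟩
  set A' : Finset V := insert y' (insert y ((AA U f 𝒜).erase z)) with hA'
  have hcard : A'.card = 𝒜.card * s := by
    have e1 : y ∉ (AA U f 𝒜).erase z := fun h' => hyA (Finset.mem_of_mem_erase h')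
    have e2 : y' ∉ insert y ((AA U f 𝒜).erase z) := by
      intro h'
      rcases Finset.mem_insert.1 h' with h' | h'
      · exact hne h'.symm
      · exact hy'A (Finset.mem_of_mem_erase h')
    rw [hA', Finset.card_insert_of_notMem e2, Finset.card_insert_of_notMem e1,
      Finset.card_erase_of_mem hzA]
    have e3 := card_AA h
    have e4 : 0 < (AA U f 𝒜).card := Finset.card_pos.2 ⟨_, hzA⟩
    omega
  refine h.noEC A' ?_ hcard ?_ ?_
  · intro v hv
    rcases Finset.mem_insert.1 hv with rfl | hv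
    · exact (mem_BB.1 hy').1
    · rcases Finset.mem_insert.1 hv with rfl | hv
      · exact (mem_BB.1 hy).1
      · exact (mem_AA.1 (Finset.mem_of_mem_erase hv)).1
  · have hsub : U \ A' ⊆ insert z ((BB U f 𝒜).erase y) := by
      intro x hx
      obtain ⟨hxU, hxn⟩ := Finset.mem_sdiff.1 hx
      by_cases hxz : x = z
      · exact hxz ▸ Finset.mem_insert_self _ _
      · refine Finset.mem_insert_of_mem (Finset.mem_erase.2 ⟨?_, mem_BB.2 ⟨hxU, ?_⟩⟩)
        · rintro rfl
          exact hxn (Finset.mem_insert_of_mem (Finset.mem_insert_self _ _))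
        · intro hxA
          exact hxn (Finset.mem_insert_of_mem (Finset.mem_insert_of_mem
            (Finset.mem_erase.2 ⟨hxz, mem_AA.2 ⟨hxU, hxA⟩⟩)))
    intro v hv
    have e1 := hsw v (hsub hv)
    have e2 : ee μ v (U \ A') ≤ ee μ v (insert z ((BB U f 𝒜).erase y)) := x_ee_mono hsub
    omega
  · set W' : Finset V := insert y' (insert y (((cl U f W).erase p).erase q)) with hW'
    set X' : Finset V := insert p ((cl U f X).erase z) with hX'
    let M : ℕ → Finset V := fun c => if c = W then W' else if c = X then X' else N c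
    have hMW : M W = W' := if_pos rfl
    have hMX : M X = X' := by
      simp only [M, if_neg hXW, if_true]
    have hMc : ∀ c, c ≠ W → c ≠ X → M c = N c := fun c hc hc' => by
      simp only [M, if_neg hc, if_neg hc']
    have hnS : ∀ c, c ≠ W → c ≠ X → c ∉ ({W, X} : Finset ℕ) := by
      intro c hc hc' h'
      rw [Finset.mem_insert, Finset.mem_singleton] at h'
      rcases h' with h' | h'
      · exact hc h'
      · exact hc' h'
    have hsz : ∀ c ∈ 𝒜, c ≠ r → (cl U f c).card = s := h.card_cl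
    refine EC_of_cover M ?_ ?_ ?_ hcard
    · intro c hc
      by_cases hcW : c = W
      · rw [hcW, hMW, hW']
        have e1 := Finset.card_insert_le y' (insert y (((cl U f W).erase p).erase q))
        have e2 := Finset.card_insert_le y (((cl U f W).erase p).erase q)
        have e3 := Finset.card_erase_of_mem (Finset.mem_erase.2 ⟨hpq.symm, hq⟩)
        have e4 := Finset.card_erase_of_mem hp
        have e5 : 0 < ((cl U f W).erase p).card :=
          Finset.card_pos.2 ⟨q, Finset.mem_erase.2 ⟨hpq.symm, hq⟩⟩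
        have e6 := hsz W hW hWr
        omega
      · by_cases hcX : c = X
        · rw [hcX, hMX, hX']
          have e1 := Finset.card_insert_le p ((cl U f X).erase z)
          have e4 := Finset.card_erase_of_mem hz
          have e5 : 0 < (cl U f X).card := Finset.card_pos.2 ⟨z, hz⟩
          have e6 := hsz X hX hXr
          omega
        · rw [hMc c hcW hcX]
          exact (hN1 c hc (hnS c hcW hcX)).1
    · intro c hc
      by_cases hcW : c = W
      · rw [hcW, hMW, hW']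
        apply x_Ac_insert h.mg
        · exact x_Ac_insert h.mg (x_Ac_mono (h.ac W hW)
            ((Finset.erase_subset _ _).trans (Finset.erase_subset _ _))) h1
        · have hyn : y ∉ ((cl U f W).erase p).erase q := fun h' =>
            hyW (Finset.mem_of_mem_erase (Finset.mem_of_mem_erase h'))
          rw [x_ee_insert hyn, h.mg.symm y' y, hyy]
          omega
      · by_cases hcX : c = X
        · rw [hcX, hMX, hX']
          exact x_Ac_mono hpX (Finset.insert_subset_insert _ (Finset.erase_subset _ _))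
        · rw [hMc c hcW hcX]
          exact (hN1 c hc (hnS c hcW hcX)).2
    · have hN2' : ∀ v, (v = q ∨ ∃ c ∈ 𝒜, c ∉ ({W, X} : Finset ℕ) ∧ v ∈ cl U f c) →
          ∃ c ∈ 𝒜, v ∈ M c := by
        intro v hv
        obtain ⟨c, hc, hcS, hvc⟩ := hN2 v hv
        rw [Finset.mem_insert, Finset.mem_singleton, not_or] at hcS
        exact ⟨c, hc, by rw [hMc c hcS.1 hcS.2]; exact hvc⟩
      intro v hv
      rcases Finset.mem_insert.1 hv with rfl | hv
      · exact ⟨W, hW, by rw [hMW]; exact Finset.mem_insert_self _ _⟩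
      rcases Finset.mem_insert.1 hv with rfl | hv
      · exact ⟨W, hW, by
          rw [hMW]; exact Finset.mem_insert_of_mem (Finset.mem_insert_self _ _)⟩
      · obtain ⟨hvz, hvA'⟩ := Finset.mem_erase.1 hv
        obtain ⟨hvU, hvA⟩ := mem_AA.1 hvA'
        by_cases hvq : v = q
        · exact hN2' v (Or.inl hvq)
        by_cases hvp : v = p
        · exact ⟨X, hX, by rw [hMX, hvp]; exact Finset.mem_insert_self _ _⟩
        by_cases hvW : f v = W
        · refine ⟨W, hW, ?_⟩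
          rw [hMW]
          exact Finset.mem_insert_of_mem (Finset.mem_insert_of_mem (Finset.mem_erase.2
            ⟨hvq, Finset.mem_erase.2 ⟨hvp, mem_cl.2 ⟨hvU, hvW⟩⟩⟩))
        · by_cases hvX : f v = X
          · refine ⟨X, hX, ?_⟩
            rw [hMX]
            exact Finset.mem_insert_of_mem (Finset.mem_erase.2 ⟨hvz, mem_cl.2 ⟨hvU, hvX⟩⟩)
          · exact hN2' v (Or.inr ⟨f v, hvA, hnS _ hvW hvX, mem_cl.2 ⟨hvU, rfl⟩⟩)

end Pool.Agent.H25.EA
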