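import Pool.Agent.H72.EAx.ExchTT0
import Pool.Agent.H25.EA.Exch

/-!
# The two-path exchange `TT`
-/

set_option autoImplicit false

namespace Pool.Agent.H25.EA

open Finset

variable {V : Type*} [DecidableEq V]
variable {μ : V → V → ℕ} {s b : ℕ} {U : Finset V} {f : V → ℕ} {𝒜 : Finset ℕ} {r : ℕ}
  {J S : Finset ℕ}

/-- the two-path exchange -/
theorem TT (h : Setup μ s b U f 𝒜 r) (hR : Region (arc μ U f) 𝒜 r J S) {W X : ℕ} (hW : W ∈ J)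
    (hX : X ∈ 𝒜) (hXr : X ≠ r) (hXW : X ≠ W) (hNo : NoCl (arc μ U f) 𝒜 r {W, X})
    {y : V} (hy : y ∈ BB U f 𝒜) (hPQ : IsP μ U f 𝒜 W y ∨ IsQ μ U f 𝒜 W y)
    (h2 : 2 ≤ (TS μ U f 𝒜 W y).card)
    (hreach : ∀ R ⊆ J.erase W, TS μ U f 𝒜 W y ∩ J ⊆ R →
      (∀ Y ∈ R, ∀ Y' ∈ J.erase W, arc μ U f Y Y' → Y' ∈ R) →
      X ∈ R ∨ X ∈ TS μ U f 𝒜 W y ∨ ∃ Y ∈ R, arc μ U f Y X) :
    ∀ x ∈ cl U f X, 2 ≤ ee μ x (cl U f W) + μ x y := by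
  have hWA : W ∈ 𝒜 := hR.sub hW
  have hWr : W ≠ r := fun e => hR.r_notMem (e ▸ hW)
  have htW : NoCl (arc μ U f) 𝒜 r {W} := by
    have := hR.term W hW W hW
    simpa using this
  obtain ⟨hone, hle, -⟩ := PQ_struct h hWA hWr htW hy hPQ
  exact Pool.Agent.H72.EAx.TT0 h hR hW hX hXr hXW hNo hy hPQ (fun w hw => (hone w hw).1) hle
    h2 hreach

end Pool.Agent.H25.EA
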