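import Pool.Agent.H25.EA.Ineq
import Pool.Agent.H25.EA.Exch
import Pool.Agent.H25.EA.ExchTT
import Pool.Agent.H25.EA.Count2

/-!
# Module C: the certificate (final counting)
-/

set_option autoImplicit false

namespace Pool.Agent.H25.EA

open Finset

variable {V : Type*} [DecidableEq V]

namespace Cert

/-! ### weights -/

/-- the weight which `y` receives from the set `T` -/
def val (μ : V → V → ℕ) (B : Finset V) (y : V) (T : Finset V) : ℚ :=
  ∑ w ∈ T, (μ y w : ℚ) / (ee μ w B : ℚ)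

omit [DecidableEq V] in
theorem sum_val_le {μ : V → V → ℕ} (hμ : MG μ) (B T : Finset V) :
    ∑ y ∈ B, val μ B y T ≤ (T.card : ℚ) := by
  unfold val
  rw [Finset.sum_comm]
  have h1 : ∀ w ∈ T, ∑ y ∈ B, (μ y w : ℚ) / (ee μ w B : ℚ) ≤ 1 := by
    intro w _
    rw [← Finset.sum_div]
    have h2 : ∑ y ∈ B, (μ y w : ℚ) = (ee μ w B : ℚ) := by
      unfold ee
      push_cast
      exact Finset.sum_congr rfl (fun u _ => by rw [hμ.symm])
    rw [h2]
    exact div_self_le_one _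
  calc ∑ w ∈ T, ∑ y ∈ B, (μ y w : ℚ) / (ee μ w B : ℚ) ≤ ∑ _w ∈ T, (1 : ℚ) :=
        Finset.sum_le_sum h1
    _ = (T.card : ℚ) := by simp

omit [DecidableEq V] in
theorem val_lower {μ : V → V → ℕ} (hμ : MG μ) {B T : Finset V} {y : V} (hy : y ∈ B) {K : ℚ}
    (hT : ∀ w ∈ T, 0 < μ y w → (ee μ w B : ℚ) ≤ K) :
    (ee μ y T : ℚ) / K ≤ val μ B y T := by
  unfold val
  have h0 : (ee μ y T : ℚ) / K = ∑ w ∈ T, (μ y w : ℚ) / K := by
    unfold ee
    push_cast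
    rw [Finset.sum_div]
  rw [h0]
  refine Finset.sum_le_sum (fun w hw => ?_)
  rcases Nat.eq_zero_or_pos (μ y w) with hz | hp
  · simp [hz]
  · have h1 : μ y w ≤ ee μ w B := by
      unfold ee
      rw [hμ.symm y w]
      exact Finset.single_le_sum (f := fun u => μ w u) (fun _ _ => Nat.zero_le _) hy
    have h2 : (0 : ℚ) < (ee μ w B : ℚ) := by exact_mod_cast lt_of_lt_of_le hp h1
    have h3 : (0 : ℚ) ≤ (μ y w : ℚ) := by positivity
    exact div_le_div_of_nonneg_left h3 h2 (hT w hw hp)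

omit [DecidableEq V] in
theorem val_nonneg (μ : V → V → ℕ) (B : Finset V) (y : V) (T : Finset V) : 0 ≤ val μ B y T := by
  unfold val
  exact Finset.sum_nonneg (fun _ _ => by positivity)

theorem val_union {μ : V → V → ℕ} {B T T' : Finset V} {y : V} (h : Disjoint T T') :
    val μ B y (T ∪ T') = val μ B y T + val μ B y T' := by
  unfold val
  exact Finset.sum_union h

/-! ### classes -/

section cls
variable {μ : V → V → ℕ} {s b : ℕ} {U : Finset V} {f : V → ℕ} {𝒜 : Finset ℕ} {r : ℕ}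
  {J S : Finset ℕ}

theorem cl_eq (μ : V → V → ℕ) (U : Finset V) (f : V → ℕ) (𝒜 : Finset ℕ) (W : ℕ) :
    Nm μ U f 𝒜 W ∪ Fm μ U f 𝒜 W = cl U f W := by
  ext v
  simp only [Nm, Fm, mem_union, mem_filter]
  tauto

theorem disj_NF (μ : V → V → ℕ) (U : Finset V) (f : V → ℕ) (𝒜 : Finset ℕ) (W : ℕ) :
    Disjoint (Nm μ U f 𝒜 W) (Fm μ U f 𝒜 W) := by
  rw [Finset.disjoint_left]
  intro v hv hv'
  simp only [Nm, Fm, mem_filter] at hv hv'
  exact hv'.2 hv.2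

theorem ee_split (μ : V → V → ℕ) (U : Finset V) (f : V → ℕ) (𝒜 : Finset ℕ) (W : ℕ) (y : V) :
    ee μ y (cl U f W) = ee μ y (Nm μ U f 𝒜 W) + ee μ y (Fm μ U f 𝒜 W) := by
  rw [← cl_eq μ U f 𝒜 W]
  unfold ee
  exact Finset.sum_union (disj_NF μ U f 𝒜 W)

theorem val_split (μ : V → V → ℕ) (U : Finset V) (f : V → ℕ) (𝒜 : Finset ℕ) (W : ℕ) (B : Finset V)
    (y : V) : val μ B y (cl U f W) = val μ B y (Nm μ U f 𝒜 W) + val μ B y (Fm μ U f 𝒜 W) := by
  rw [← cl_eq μ U f 𝒜 W]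
  exact val_union (disj_NF μ U f 𝒜 W)

theorem ee_B_le (h : Setup μ s b U f 𝒜 r) {W : ℕ} (hW : W ∈ 𝒜) {w : V} (hw : w ∈ cl U f W) :
    ee μ w (BB U f 𝒜) + ee μ w (cl U f W) ≤ 2 * b + 2 * (tg μ U f 𝒜 w).card := by
  have h1 := ee_B_bound h hW hw
  have hfw : f w = W := (mem_filter.1 hw).2
  have hsub : tg μ U f 𝒜 w ⊆ 𝒜.erase W := by
    intro c hc
    simp only [tg, mem_filter] at hc
    exact mem_erase.2 ⟨fun e => hc.2.1 (e.trans hfw.symm), hc.1⟩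
  have h2 : ∑ c ∈ 𝒜.erase W, (2 - (ee μ w (cl U f c) : ℤ)) ≤ 2 * ((tg μ U f 𝒜 w).card : ℤ) := by
    rw [← Finset.sum_sdiff hsub]
    have h3 : ∑ c ∈ (𝒜.erase W) \ (tg μ U f 𝒜 w), (2 - (ee μ w (cl U f c) : ℤ)) ≤ 0 := by
      refine Finset.sum_nonpos (fun c hc => ?_)
      rw [mem_sdiff, mem_erase] at hc
      have := ee_ge_two_of_notMem_tg (w := w) h hc.1.2 (fun e => hc.1.1 (e.trans hfw)) hc.2
      have : (2 : ℤ) ≤ (ee μ w (cl U f c) : ℤ) := by exact_mod_cast this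
      linarith
    have h4 : ∑ c ∈ tg μ U f 𝒜 w, (2 - (ee μ w (cl U f c) : ℤ)) ≤
        2 * ((tg μ U f 𝒜 w).card : ℤ) := by
      calc ∑ c ∈ tg μ U f 𝒜 w, (2 - (ee μ w (cl U f c) : ℤ)) ≤ ∑ _c ∈ tg μ U f 𝒜 w, (2 : ℤ) :=
            Finset.sum_le_sum (fun c _ => by
              have : (0 : ℤ) ≤ (ee μ w (cl U f c) : ℤ) := by positivity
              linarith)
        _ = 2 * ((tg μ U f 𝒜 w).card : ℤ) := by simp [mul_comm]
    linarith
  zify
  linarith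

theorem ee_B_Nm (h : Setup μ s b U f 𝒜 r) {W : ℕ} (hW : W ∈ 𝒜) {w : V}
    (hw : w ∈ Nm μ U f 𝒜 W) : ee μ w (BB U f 𝒜) ≤ 2 * b := by
  simp only [Nm, mem_filter] at hw
  have h1 := ee_B_le h hW hw.1
  rw [hw.2, Finset.card_empty] at h1
  omega

/-- arcs from a vertex -/
theorem arc_of_mem_tg {W : ℕ} {w : V} (hw : w ∈ cl U f W) {c : ℕ} (hc : c ∈ tg μ U f 𝒜 w) :
    c ∈ 𝒜 ∧ c ≠ W ∧ arc μ U f W c := by
  have hfw : f w = W := (mem_filter.1 hw).2
  simp only [tg, mem_filter] at hc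
  rw [hfw] at hc
  exact ⟨hc.1, hc.2.1, fun e => hc.2.1 e.symm, w, hw, hc.2.2⟩

/-! ### the value at one class -/

/-- excess zero -/
theorem val_zero (h : Setup μ s b U f 𝒜 r) {W : ℕ} (hW : W ∈ 𝒜) (hWr : W ≠ r)
    (ht : NoCl (arc μ U f) 𝒜 r {W}) {y : V} (hy : y ∈ BB U f 𝒜) (h0 : ep μ U f y W = 0) :
    2 / (2 * (b : ℚ) - EE μ U f 𝒜 y) ≤ val μ (BB U f 𝒜) y (cl U f W) := by
  obtain ⟨h1, h2, h3⟩ := ep_zero h hW hWr ht hy h0
  have hE := EE_bound h hy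
  have hee : ee μ y (cl U f W) = 2 := by rw [ee_split μ U f 𝒜 W y, h1, h2]
  have := val_lower (T := cl U f W) (K := 2 * (b : ℚ) - EE μ U f 𝒜 y) h.mg hy (by
    intro z hz hzp
    obtain ⟨h4, h5⟩ := h3 z hz hzp
    have h6 := swap_bound h hW hWr ht h4 hy h5
    have h7 := h.mg.le_two y z
    have h8 : ee μ z (BB U f 𝒜) + EE μ U f 𝒜 y ≤ 2 * b := by omega
    have h9 : (ee μ z (BB U f 𝒜) : ℚ) + EE μ U f 𝒜 y ≤ 2 * b := by exact_mod_cast h8
    linarith)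
  rw [hee] at this
  exact_mod_cast this

/-- the general bound from the degrees -/
theorem val_NF (h : Setup μ s b U f 𝒜 r) {W : ℕ} (hW : W ∈ 𝒜) {y : V} (hy : y ∈ BB U f 𝒜)
    {K : ℚ} (hK : ∀ w ∈ Fm μ U f 𝒜 W, 0 < μ y w → (ee μ w (BB U f 𝒜) : ℚ) ≤ K) :
    (ee μ y (Nm μ U f 𝒜 W) : ℚ) / (2 * b) + (ee μ y (Fm μ U f 𝒜 W) : ℚ) / K ≤
      val μ (BB U f 𝒜) y (cl U f W) := by
  rw [val_split μ U f 𝒜 W]
  have h1 := val_lower (T := Nm μ U f 𝒜 W) (K := 2 * (b : ℚ)) h.mg hy (fun w hw _ => by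
    exact_mod_cast ee_B_Nm h hW hw)
  have h2 := val_lower (T := Fm μ U f 𝒜 W) (K := K) h.mg hy hK
  linarith

end cls

/-! ### the final contradiction -/

theorem final {μ : V → V → ℕ} {s b : ℕ} {U : Finset V} {f : V → ℕ} {𝒜 : Finset ℕ} {r : ℕ}
    (h : Setup μ s b U f 𝒜 r) (J : Finset ℕ) (hJ : J ⊆ 𝒜) (hr : r ∉ J) (hne : J.Nonempty)
    (hb : 1 ≤ b)
    (hy : ∀ y ∈ BB U f 𝒜, 0 ≤ ∑ W ∈ J, ((b : ℚ) * val μ (BB U f 𝒜) y (cl U f W) - 1)) :
    False := by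
  have h1 : (0 : ℚ) ≤ ∑ y ∈ BB U f 𝒜, ∑ W ∈ J,
      ((b : ℚ) * val μ (BB U f 𝒜) y (cl U f W) - 1) := Finset.sum_nonneg hy
  have h2 : ∑ y ∈ BB U f 𝒜, ∑ W ∈ J, ((b : ℚ) * val μ (BB U f 𝒜) y (cl U f W) - 1) ≤
      ∑ W ∈ J, ((b : ℚ) * s - (b * s + 1)) := by
    rw [Finset.sum_comm]
    refine Finset.sum_le_sum (fun W hW => ?_)
    have h3 := sum_val_le h.mg (BB U f 𝒜) (cl U f W)
    have hWr : W ≠ r := fun e => hr (e ▸ hW)
    rw [h.card_cl W (hJ hW) hWr] at h3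
    rw [Finset.sum_sub_distrib, ← Finset.mul_sum]
    have h4 : ∑ _y ∈ BB U f 𝒜, (1 : ℚ) = b * s + 1 := by
      rw [Finset.sum_const, h.card_B]
      simp
    rw [h4]
    have hb' : (0 : ℚ) ≤ b := by positivity
    have := mul_le_mul_of_nonneg_left h3 hb'
    linarith
  have h5 : ∑ W ∈ J, ((b : ℚ) * s - (b * s + 1)) = -(J.card : ℚ) := by
    rw [Finset.sum_const, nsmul_eq_mul]
    ring
  have h6 : 0 < (J.card : ℚ) := by exact_mod_cast hne.card_pos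
  linarith

/-! ### numerical lemmas -/

theorem sum_bound (J : Finset ℕ) (e : ℕ → ℕ) (v : ℕ → ℚ) (lam σ β : ℚ) (hβ : 0 ≤ β)
    (h0 : ∀ W ∈ J, e W = 0 → lam ≤ v W) (h1 : ∀ W ∈ J, e W = 1 → σ ≤ v W)
    (h2 : ∀ W ∈ J, 2 ≤ e W → (2 + (e W : ℚ)) * β - 1 ≤ v W) :
    ∃ X Z : ℕ, X + Z ≤ J.card ∧ X + 2 * Z ≤ ∑ W ∈ J, e W ∧
      ((J.card : ℚ) - X - Z) * lam + σ * X + (4 * β - 1) * Z ≤ ∑ W ∈ J, v W := by
  induction J using Finset.induction_on with
  | empty => exact ⟨0, 0, by simp, by simp, by simp⟩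
  | insert a J ha ih =>
    obtain ⟨X, Z, hc, hs, hv⟩ := ih (fun W hW => h0 W (mem_insert_of_mem hW))
      (fun W hW => h1 W (mem_insert_of_mem hW)) (fun W hW => h2 W (mem_insert_of_mem hW))
    rw [Finset.sum_insert ha, Finset.sum_insert ha, Finset.card_insert_of_notMem ha]
    rcases Nat.lt_or_ge (e a) 1 with h | h
    · have := h0 a (mem_insert_self _ _) (by omega)
      refine ⟨X, Z, by omega, by omega, ?_⟩
      push_cast
      linarith
    · rcases Nat.lt_or_ge (e a) 2 with h' | h'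
      · have := h1 a (mem_insert_self _ _) (by omega)
        refine ⟨X + 1, Z, by omega, by omega, ?_⟩
        push_cast
        linarith
      · have h3 := h2 a (mem_insert_self _ _) h'
        have h4 : (2 : ℚ) ≤ (e a : ℚ) := by exact_mod_cast h'
        have h5 : 4 * β - 1 ≤ v a := by nlinarith
        refine ⟨X, Z + 1, by omega, by omega, ?_⟩
        push_cast
        linarith

theorem sum_bound0 (J : Finset ℕ) (e : ℕ → ℕ) (v : ℕ → ℚ) (lam ν : ℚ)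
    (h0 : ∀ W ∈ J, e W = 0 → lam ≤ v W) (h1 : ∀ W ∈ J, 1 ≤ e W → -ν ≤ v W) :
    ∃ X : ℕ, X ≤ J.card ∧ X ≤ ∑ W ∈ J, e W ∧
      ((J.card : ℚ) - X) * lam - ν * X ≤ ∑ W ∈ J, v W := by
  induction J using Finset.induction_on with
  | empty => exact ⟨0, by simp, by simp, by simp⟩
  | insert a J ha ih =>
    obtain ⟨X, hc, hs, hv⟩ := ih (fun W hW => h0 W (mem_insert_of_mem hW))
      (fun W hW => h1 W (mem_insert_of_mem hW))
    rw [Finset.sum_insert ha, Finset.sum_insert ha, Finset.card_insert_of_notMem ha]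
    rcases Nat.lt_or_ge (e a) 1 with h | h
    · have := h0 a (mem_insert_self _ _) (by omega)
      refine ⟨X, by omega, by omega, ?_⟩
      push_cast
      linarith
    · have := h1 a (mem_insert_self _ _) h
      refine ⟨X + 1, by omega, by omega, ?_⟩
      push_cast
      linarith

theorem num (b t X Z E σ κ : ℚ) (hX : 0 ≤ X) (hZ : 0 ≤ Z) (hXZ : X + Z ≤ t)
    (hE : X + 2 * Z ≤ E) (hE2 : E + 2 ≤ 2 * b) (hσ : 0 ≤ σ)
    (hc : κ ≤ 0 ∨ (b ≤ t ∧ 0 ≤ κ ∧ κ ≤ 1 ∧ κ * (b - 2 - (t - b)) ≤ σ * (2 * (t - b) + 2))) :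
    0 ≤ (t - X - Z) * (E / (2 * b - E)) + σ * X - κ * Z := by
  have hq : 0 < 2 * b - E := by linarith
  have hP0 : 0 ≤ X + 2 * Z := by linarith
  have hlam0 : 0 ≤ E / (2 * b - E) := div_nonneg (by linarith) hq.le
  have h1 : 0 ≤ (t - X - Z) * (E / (2 * b - E)) := mul_nonneg (by linarith) hlam0
  rcases hc with hk | ⟨hbt, hk0, hk1, hk⟩
  · have h2 : κ * Z ≤ 0 := mul_nonpos_of_nonpos_of_nonneg hk hZ
    have h3 : 0 ≤ σ * X := mul_nonneg hσ hX
    linarith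
  · obtain ⟨q, hqd⟩ : ∃ q : ℚ, q = 2 * b - (X + 2 * Z) := ⟨_, rfl⟩
    have hq2 : 2 ≤ q := by linarith
    have hq0 : 0 < q := by linarith
    obtain ⟨u, hu⟩ : ∃ u : ℚ, u = t - b := ⟨_, rfl⟩
    have hu0 : 0 ≤ u := by linarith
    -- monotonicity of lam
    have hlam : (X + 2 * Z) / q ≤ E / (2 * b - E) := by
      rw [div_le_div_iff₀ hq0 hq, hqd]
      nlinarith
    have hG0 : 0 ≤ (2 * b - q) * (u + q * (1 - κ) / 2) := by
      apply mul_nonneg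
      · linarith
      · have : 0 ≤ q * (1 - κ) := mul_nonneg hq0.le (by linarith)
        linarith
    have hG1 : 0 ≤ q * (σ * (2 * u + q) - κ * (b - q - u)) := by
      apply mul_nonneg hq0.le
      have h4 : σ * (2 * u + 2) ≤ σ * (2 * u + q) := mul_le_mul_of_nonneg_left (by linarith) hσ
      have h5 : κ * (b - q - u) ≤ κ * (b - 2 - u) := mul_le_mul_of_nonneg_left (by linarith) hk0
      have h6 : κ * (b - 2 - u) ≤ σ * (2 * u + 2) := by rw [hu]; exact hk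
      linarith
    have hm : 0 ≤ 2 * u + q - X := by rw [hu, hqd]; linarith
    have hG : 0 ≤ (2 * u + q) * ((t - X - Z) * (X + 2 * Z) + q * (σ * X - κ * Z)) := by
      have h7 : (2 * u + q) * ((t - X - Z) * (X + 2 * Z) + q * (σ * X - κ * Z)) =
          (2 * u + q - X) * ((2 * b - q) * (u + q * (1 - κ) / 2)) +
            X * (q * (σ * (2 * u + q) - κ * (b - q - u))) := by
        rw [hu, hqd]; ring
      rw [h7]
      exact add_nonneg (mul_nonneg hm hG0) (mul_nonneg hX hG1)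
    have hG' : 0 ≤ (t - X - Z) * (X + 2 * Z) + q * (σ * X - κ * Z) :=
      nonneg_of_mul_nonneg_right hG (by linarith)
    have h8 : (t - X - Z) * ((X + 2 * Z) / q) ≤ (t - X - Z) * (E / (2 * b - E)) :=
      mul_le_mul_of_nonneg_left hlam (by linarith)
    have h9 : 0 ≤ (t - X - Z) * ((X + 2 * Z) / q) + (σ * X - κ * Z) := by
      have h10 : (t - X - Z) * ((X + 2 * Z) / q) + (σ * X - κ * Z) =
          ((t - X - Z) * (X + 2 * Z) + q * (σ * X - κ * Z)) / q := by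
        field_simp
      rw [h10]
      exact div_nonneg hG' hq0.le
    linarith

/-! ### bounds at a class -/

section cls2
variable {μ : V → V → ℕ} {s b : ℕ} {U : Finset V} {f : V → ℕ} {𝒜 : Finset ℕ} {r : ℕ}
  {J S : Finset ℕ}

theorem class_zero (h : Setup μ s b U f 𝒜 r) {W : ℕ} (hW : W ∈ 𝒜) (hWr : W ≠ r)
    (ht : NoCl (arc μ U f) 𝒜 r {W}) {y : V} (hy : y ∈ BB U f 𝒜) (h0 : ep μ U f y W = 0) :
    (EE μ U f 𝒜 y : ℚ) / (2 * (b : ℚ) - EE μ U f 𝒜 y) ≤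
      (b : ℚ) * val μ (BB U f 𝒜) y (cl U f W) - 1 := by
  have h1 := val_zero h hW hWr ht hy h0
  have hE := EE_bound h hy
  have hE' : (EE μ U f 𝒜 y : ℚ) + 2 ≤ 2 * b := by
    have : EE μ U f 𝒜 y + 2 ≤ 2 * b := by omega
    exact_mod_cast this
  have hq : (0 : ℚ) < 2 * (b : ℚ) - EE μ U f 𝒜 y := by linarith
  have hb : (0 : ℚ) ≤ b := by positivity
  have h2 := mul_le_mul_of_nonneg_left h1 hb
  have h3 : (b : ℚ) * (2 / (2 * (b : ℚ) - EE μ U f 𝒜 y)) - 1 =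
      (EE μ U f 𝒜 y : ℚ) / (2 * (b : ℚ) - EE μ U f 𝒜 y) := by
    rw [eq_div_iff hq.ne', sub_mul, mul_assoc, div_mul_cancel₀ _ hq.ne']
    ring
  linarith

theorem class_one (h : Setup μ s b U f 𝒜 r) {W : ℕ} (hW : W ∈ 𝒜) {y : V} (hy : y ∈ BB U f 𝒜)
    (h1 : ep μ U f y W = 1) (hb : 1 ≤ b) {D dP dQ σ : ℚ}
    (hD : ∀ w ∈ Fm μ U f 𝒜 W, (ee μ w (BB U f 𝒜) : ℚ) ≤ D) (hD2 : 2 * (b : ℚ) ≤ D)
    (hP : IsP μ U f 𝒜 W y → ∀ w ∈ Fm μ U f 𝒜 W, 0 < μ y w → (ee μ w (BB U f 𝒜) : ℚ) ≤ dP)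
    (hQ : IsQ μ U f 𝒜 W y → ∀ w ∈ Fm μ U f 𝒜 W, 0 < μ y w → (ee μ w (BB U f 𝒜) : ℚ) ≤ dQ)
    (s1 : σ ≤ b / D) (s2 : σ ≤ 3 * b / dP - 1) (s3 : σ ≤ 2 * b / dQ - 1 / 2) :
    σ ≤ (b : ℚ) * val μ (BB U f 𝒜) y (cl U f W) - 1 := by
  have hb0 : (0 : ℚ) < b := by exact_mod_cast hb
  have hsp := ee_split μ U f 𝒜 W y
  have h3 : ee μ y (Nm μ U f 𝒜 W) + ee μ y (Fm μ U f 𝒜 W) = 3 := by
    unfold ep at h1; omega
  have hDpos : 0 < D := by linarith
  rcases Nat.lt_or_ge (ee μ y (Nm μ U f 𝒜 W)) 1 with hn | hn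
  · have hn0 : ee μ y (Nm μ U f 𝒜 W) = 0 := by omega
    have hf3 : ee μ y (Fm μ U f 𝒜 W) = 3 := by omega
    have h4 := val_NF h hW hy (hP ⟨hn0, hf3⟩)
    rw [hn0, hf3] at h4
    have h5 := mul_le_mul_of_nonneg_left h4 hb0.le
    have h6 : (b : ℚ) * (((0 : ℕ) : ℚ) / (2 * b) + ((3 : ℕ) : ℚ) / dP) = 3 * b / dP := by
      push_cast; ring
    linarith
  · rcases Nat.lt_or_ge (ee μ y (Nm μ U f 𝒜 W)) 2 with hn' | hn'
    · have hn1 : ee μ y (Nm μ U f 𝒜 W) = 1 := by omega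
      have hf2 : ee μ y (Fm μ U f 𝒜 W) = 2 := by omega
      have h4 := val_NF h hW hy (hQ ⟨hn1, hf2⟩)
      rw [hn1, hf2] at h4
      have h5 := mul_le_mul_of_nonneg_left h4 hb0.le
      have h6 : (b : ℚ) * (((1 : ℕ) : ℚ) / (2 * b) + ((2 : ℕ) : ℚ) / dQ) = 1 / 2 + 2 * b / dQ := by
        push_cast; field_simp
      linarith
    · have h4 := val_NF h hW hy (fun w hw _ => hD w hw)
      have h5 := mul_le_mul_of_nonneg_left h4 hb0.le
      have hn2 : ee μ y (Nm μ U f 𝒜 W) = 2 ∨ ee μ y (Nm μ U f 𝒜 W) = 3 := by omega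
      rcases hn2 with hn2 | hn2
      · have hf : ee μ y (Fm μ U f 𝒜 W) = 1 := by omega
        rw [hn2, hf] at h5
        have h6 : (b : ℚ) * (((2 : ℕ) : ℚ) / (2 * b) + ((1 : ℕ) : ℚ) / D) = 1 + b / D := by
          push_cast; field_simp
        linarith
      · have hf : ee μ y (Fm μ U f 𝒜 W) = 0 := by omega
        rw [hn2, hf] at h5
        have h6 : (b : ℚ) * (((3 : ℕ) : ℚ) / (2 * b) + ((0 : ℕ) : ℚ) / D) = 3 / 2 := by
          push_cast; field_simp; ring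
        have h7 : (b : ℚ) / D ≤ 1 / 2 := by
          rw [div_le_div_iff₀ hDpos (by norm_num)]; linarith
        linarith

theorem class_two (h : Setup μ s b U f 𝒜 r) {W : ℕ} (hW : W ∈ 𝒜) {y : V} (hy : y ∈ BB U f 𝒜)
    (hb : 1 ≤ b) {D : ℚ}
    (hD : ∀ w ∈ Fm μ U f 𝒜 W, (ee μ w (BB U f 𝒜) : ℚ) ≤ D) (hD2 : 2 * (b : ℚ) ≤ D) :
    (2 + (ep μ U f y W : ℚ)) * (b / D) - 1 ≤ (b : ℚ) * val μ (BB U f 𝒜) y (cl U f W) - 1 := by
  have hb0 : (0 : ℚ) < b := by exact_mod_cast hb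
  have hDpos : 0 < D := by linarith
  have hsp := ee_split μ U f 𝒜 W y
  have hge := ee_cl_ge_two h hy hW
  have h3 : ee μ y (Nm μ U f 𝒜 W) + ee μ y (Fm μ U f 𝒜 W) = 2 + ep μ U f y W := by
    unfold ep; omega
  have h3' : (ee μ y (Nm μ U f 𝒜 W) : ℚ) + ee μ y (Fm μ U f 𝒜 W) = 2 + ep μ U f y W := by
    exact_mod_cast h3
  have h4 := val_NF h hW hy (fun w hw _ => hD w hw)
  have h5 : (ee μ y (Nm μ U f 𝒜 W) : ℚ) / D ≤ (ee μ y (Nm μ U f 𝒜 W) : ℚ) / (2 * b) :=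
    div_le_div_of_nonneg_left (by positivity) (by linarith) hD2
  have h6 : (2 + (ep μ U f y W : ℚ)) / D ≤ val μ (BB U f 𝒜) y (cl U f W) := by
    rw [← h3', add_div]
    linarith
  have h7 := mul_le_mul_of_nonneg_left h6 hb0.le
  have h8 : (b : ℚ) * ((2 + (ep μ U f y W : ℚ)) / D) = (2 + (ep μ U f y W : ℚ)) * (b / D) := by
    ring
  linarith

/-- arcs of a class of the region -/
theorem tg_sub (hR : Region (arc μ U f) 𝒜 r J S) {W : ℕ} (hW : W ∈ J) {w : V}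
    (hw : w ∈ cl U f W) : tg μ U f 𝒜 w ⊆ (J.erase W) ∪ S := by
  intro c hc
  obtain ⟨h1, h2, h3⟩ := arc_of_mem_tg hw hc
  rcases hR.out W hW c h1 h3 with h4 | h4
  · exact mem_union_left _ (mem_erase.2 ⟨h2, h4⟩)
  · exact mem_union_right _ h4

theorem ee_B_J (h : Setup μ s b U f 𝒜 r) (hR : Region (arc μ U f) 𝒜 r J S) {W : ℕ} (hW : W ∈ J)
    {w : V} (hw : w ∈ cl U f W) :
    (ee μ w (BB U f 𝒜) : ℚ) ≤ 2 * b + 2 * J.card + 2 * S.card - 2 := by
  have h1 := ee_B_le h (hR.sub hW) hw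
  have h2 := (Finset.card_le_card (tg_sub hR hW hw)).trans (Finset.card_union_le _ _)
  rw [Finset.card_erase_of_mem hW] at h2
  have h3 : 0 < J.card := Finset.card_pos.2 ⟨W, hW⟩
  have h4 : ee μ w (BB U f 𝒜) + 2 ≤ 2 * b + 2 * J.card + 2 * S.card := by omega
  have h5 : (ee μ w (BB U f 𝒜) : ℚ) + 2 ≤ 2 * b + 2 * J.card + 2 * S.card := by
    exact_mod_cast h4
  linarith

theorem term_of (hR : Region (arc μ U f) 𝒜 r J S) {W : ℕ} (hW : W ∈ J) :
    NoCl (arc μ U f) 𝒜 r {W} := by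
  have := hR.term W hW W hW
  simpa using this

theorem ne_r_of (hR : Region (arc μ U f) 𝒜 r J S) {W : ℕ} (hW : W ∈ J) : W ≠ r :=
  fun e => hR.r_notMem (e ▸ hW)

/-- the targets of a light vertex -/
theorem TS_card (hR : Region (arc μ U f) 𝒜 r J S) {W : ℕ} (hW : W ∈ J) {y : V}
    (hPQ : IsP μ U f 𝒜 W y ∨ IsQ μ U f 𝒜 W y) (hl : ¬ Heavy μ U f 𝒜 J W y) :
    (TS μ U f 𝒜 W y).card ≤ 1 ∨ TS μ U f 𝒜 W y ⊆ S := by
  by_contra hcon
  rw [not_or, not_le] at hcon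
  obtain ⟨h1, h2⟩ := hcon
  apply hl
  refine ⟨hPQ, by omega, ?_⟩
  obtain ⟨c, hc, hcS⟩ := Finset.not_subset.1 h2
  refine ⟨c, mem_inter.2 ⟨hc, ?_⟩⟩
  simp only [TS, mem_biUnion] at hc
  obtain ⟨w, hw, hcw⟩ := hc
  have hwc : w ∈ cl U f W := by
    simp only [Tn, Fm, mem_filter] at hw
    exact hw.1.1
  rcases mem_union.1 (tg_sub hR hW hwc hcw) with h3 | h3
  · exact (mem_erase.1 h3).2
  · exact absurd h3 hcS

theorem TS_card' (hR : Region (arc μ U f) 𝒜 r J S) (hS : 1 ≤ S.card) {W : ℕ} (hW : W ∈ J) {y : V}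
    (hPQ : IsP μ U f 𝒜 W y ∨ IsQ μ U f 𝒜 W y) (hl : ¬ Heavy μ U f 𝒜 J W y) :
    (TS μ U f 𝒜 W y).card ≤ S.card := by
  rcases TS_card hR hW hPQ hl with h | h
  · omega
  · exact Finset.card_le_card h

/-- the degrees of the movable neighbours of a vertex of type `P` or `Q` -/
theorem ee_B_light (h : Setup μ s b U f 𝒜 r) {W : ℕ} (hW : W ∈ 𝒜) (hWr : W ≠ r)
    (ht : NoCl (arc μ U f) 𝒜 r {W}) {y : V} (hy : y ∈ BB U f 𝒜)
    (hPQ : IsP μ U f 𝒜 W y ∨ IsQ μ U f 𝒜 W y) {n : ℕ} (hn : (TS μ U f 𝒜 W y).card ≤ n) :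
    ∀ w ∈ Fm μ U f 𝒜 W, 0 < μ y w → (ee μ w (BB U f 𝒜) : ℚ) ≤ 2 * b + 2 * n - 1 := by
  intro w hw hyw
  obtain ⟨h1, -, -⟩ := PQ_struct h hW hWr ht hy hPQ
  have hwT : w ∈ Tn μ U f 𝒜 W y := by
    simp only [Tn, mem_filter]
    exact ⟨hw, hyw⟩
  have h2 := (h1 w hwT).2
  have hwc : w ∈ cl U f W := (mem_filter.1 hw).1
  have h3 := ee_B_le h hW hwc
  have h4 : (tg μ U f 𝒜 w).card ≤ (TS μ U f 𝒜 W y).card :=
    Finset.card_le_card (Finset.subset_biUnion_of_mem (tg μ U f 𝒜) hwT)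
  have h5 : ee μ w (BB U f 𝒜) + 1 ≤ 2 * b + 2 * n := by omega
  have h6 : (ee μ w (BB U f 𝒜) : ℚ) + 1 ≤ 2 * b + 2 * n := by exact_mod_cast h5
  linarith

omit [DecidableEq V] in
theorem sum_ep_le (y : V) {K : Finset ℕ} (hK : K ⊆ 𝒜) :
    ∑ W ∈ K, ep μ U f y W ≤ EE μ U f 𝒜 y :=
  Finset.sum_le_sum_of_subset hK

/-- the sum at `y` -/
theorem sum_y (h : Setup μ s b U f 𝒜 r) (hR : Region (arc μ U f) 𝒜 r J S) (hS : 1 ≤ S.card)
    (hb : 1 ≤ b) {y : V} (hy : y ∈ BB U f 𝒜) {dP dQ σ : ℚ}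
    (hP : ∀ W ∈ J, IsP μ U f 𝒜 W y → ∀ w ∈ Fm μ U f 𝒜 W, 0 < μ y w →
      (ee μ w (BB U f 𝒜) : ℚ) ≤ dP)
    (hQ : ∀ W ∈ J, IsQ μ U f 𝒜 W y → ∀ w ∈ Fm μ U f 𝒜 W, 0 < μ y w →
      (ee μ w (BB U f 𝒜) : ℚ) ≤ dQ)
    (s1 : σ ≤ b / (2 * b + 2 * J.card + 2 * S.card - 2)) (s2 : σ ≤ 3 * b / dP - 1)
    (s3 : σ ≤ 2 * b / dQ - 1 / 2) :
    ∃ X Z : ℕ, X + Z ≤ J.card ∧ X + 2 * Z ≤ ∑ W ∈ J, ep μ U f y W ∧
      ((J.card : ℚ) - X - Z) * ((EE μ U f 𝒜 y : ℚ) / (2 * (b : ℚ) - EE μ U f 𝒜 y)) + σ * X +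
        (4 * ((b : ℚ) / (2 * b + 2 * J.card + 2 * S.card - 2)) - 1) * Z ≤
        ∑ W ∈ J, ((b : ℚ) * val μ (BB U f 𝒜) y (cl U f W) - 1) := by
  have hJ1 : (1 : ℚ) ≤ J.card := by exact_mod_cast hR.nonempty.card_pos
  have hS1 : (1 : ℚ) ≤ S.card := by exact_mod_cast hS
  have hb1 : (1 : ℚ) ≤ b := by exact_mod_cast hb
  have hD2 : 2 * (b : ℚ) ≤ 2 * b + 2 * J.card + 2 * S.card - 2 := by linarith
  refine sum_bound J (ep μ U f y) (fun W => (b : ℚ) * val μ (BB U f 𝒜) y (cl U f W) - 1) _ _ _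
    (div_nonneg (by linarith) (by linarith)) ?_ ?_ ?_
  · intro W hW h0
    exact class_zero h (hR.sub hW) (ne_r_of hR hW) (term_of hR hW) hy h0
  · intro W hW h1
    exact class_one h (hR.sub hW) hy h1 hb
      (fun w hw => ee_B_J h hR hW (mem_filter.1 hw).1) hD2 (hP W hW) (hQ W hW) s1 s2 s3
  · intro W hW _
    exact class_two h (hR.sub hW) hy hb
      (fun w hw => ee_B_J h hR hW (mem_filter.1 hw).1) hD2

end cls2

/-! ### the certificate -/

section main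
variable {μ : V → V → ℕ} {s b : ℕ} {U : Finset V} {f : V → ℕ} {𝒜 : Finset ℕ} {r : ℕ}
  {J S : Finset ℕ}

theorem min3 (a b c : ℚ) : ∃ σ : ℚ, σ ≤ a ∧ σ ≤ b ∧ σ ≤ c ∧ (σ = a ∨ σ = b ∨ σ = c) := by
  rcases le_total a b with h1 | h1
  · rcases le_total a c with h2 | h2
    · exact ⟨a, le_rfl, h1, h2, Or.inl rfl⟩
    · exact ⟨c, h2, h2.trans h1, le_rfl, Or.inr (Or.inr rfl)⟩
  · rcases le_total b c with h2 | h2
    · exact ⟨b, h1, le_rfl, h2, Or.inr (Or.inl rfl)⟩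
    · exact ⟨c, h2.trans h1, h2, le_rfl, Or.inr (Or.inr rfl)⟩

/-- the numerical condition suffices -/
theorem sum_pos (h : Setup μ s b U f 𝒜 r) (hR : Region (arc μ U f) 𝒜 r J S) (hS : 1 ≤ S.card)
    (hb : 1 ≤ b) {y : V} (hy : y ∈ BB U f 𝒜) {n m : ℕ} {σ : ℚ}
    (hP : ∀ W ∈ J, IsP μ U f 𝒜 W y → (TS μ U f 𝒜 W y).card ≤ n)
    (hQ : ∀ W ∈ J, IsQ μ U f 𝒜 W y → (TS μ U f 𝒜 W y).card ≤ m)
    (s0 : 0 ≤ σ)
    (s1 : σ ≤ b / (2 * b + 2 * J.card + 2 * S.card - 2))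
    (s2 : σ ≤ 3 * b / (2 * b + 2 * n - 1) - 1)
    (s3 : σ ≤ 2 * b / (2 * b + 2 * m - 1) - 1 / 2)
    (hc : 1 - 4 * ((b : ℚ) / (2 * b + 2 * J.card + 2 * S.card - 2)) ≤ 0 ∨
      ((b : ℚ) ≤ J.card ∧ 0 ≤ 1 - 4 * ((b : ℚ) / (2 * b + 2 * J.card + 2 * S.card - 2)) ∧
        (1 - 4 * ((b : ℚ) / (2 * b + 2 * J.card + 2 * S.card - 2))) * (b - 2 - (J.card - b)) ≤
          σ * (2 * (J.card - b) + 2))) :
    0 ≤ ∑ W ∈ J, ((b : ℚ) * val μ (BB U f 𝒜) y (cl U f W) - 1) := by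
  obtain ⟨X, Z, h1, h2, h3⟩ := sum_y h hR hS hb hy (dP := 2 * b + 2 * n - 1)
    (dQ := 2 * b + 2 * m - 1) (σ := σ)
    (fun W hW hp => ee_B_light h (hR.sub hW) (ne_r_of hR hW) (term_of hR hW) hy (Or.inl hp)
      (hP W hW hp))
    (fun W hW hp => ee_B_light h (hR.sub hW) (ne_r_of hR hW) (term_of hR hW) hy (Or.inr hp)
      (hQ W hW hp)) s1 s2 s3
  have hE := EE_bound h hy
  have hEs := sum_ep_le (μ := μ) (U := U) (f := f) y hR.sub
  have h4 : (X : ℚ) + 2 * Z ≤ EE μ U f 𝒜 y := by exact_mod_cast h2.trans hEs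
  have h5 : (EE μ U f 𝒜 y : ℚ) + 2 ≤ 2 * b := by
    have : EE μ U f 𝒜 y + 2 ≤ 2 * b := by omega
    exact_mod_cast this
  have hD0 : (0 : ℚ) ≤ (b : ℚ) / (2 * b + 2 * J.card + 2 * S.card - 2) := by
    apply div_nonneg (by positivity)
    have hJ1 : (1 : ℚ) ≤ J.card := by exact_mod_cast hR.nonempty.card_pos
    have hb1 : (1 : ℚ) ≤ b := by exact_mod_cast hb
    have : (0 : ℚ) ≤ S.card := by positivity
    linarith
  have h6 := num b J.card X Z (EE μ U f 𝒜 y) σ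
    (1 - 4 * ((b : ℚ) / (2 * b + 2 * J.card + 2 * S.card - 2))) (by positivity) (by positivity)
    (by exact_mod_cast h1) h4 h5 s0 (by
      rcases hc with hc | ⟨c1, c2, c3⟩
      · exact Or.inl hc
      · exact Or.inr ⟨c1, c2, by linarith, c3⟩)
  linarith

theorem caseA (h : Setup μ s b U f 𝒜 r) (hR : Region (arc μ U f) 𝒜 r J S) (hS : S.card = 1)
    (hJ : J.card + 2 ≤ 2 * b)
    (hclean : ∀ W ∈ J, ∀ y ∈ BB U f 𝒜, ¬ Heavy μ U f 𝒜 J W y) : False := by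
  have hJ1 := hR.nonempty.card_pos
  have hb : 2 ≤ b := by omega
  have hbq : (2 : ℚ) ≤ b := by exact_mod_cast hb
  have hJq : (1 : ℚ) ≤ J.card := by exact_mod_cast hJ1
  refine final h J hR.sub hR.r_notMem hR.nonempty (by omega) (fun y hy => ?_)
  have hTS : ∀ W ∈ J, (IsP μ U f 𝒜 W y ∨ IsQ μ U f 𝒜 W y) → (TS μ U f 𝒜 W y).card ≤ 1 :=
    fun W hW hp => by
      have := TS_card' hR (by omega) hW hp (hclean W hW y hy)
      omega
  have hSq : (S.card : ℚ) = 1 := by exact_mod_cast hS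
  have hDp : (0 : ℚ) < 2 * b + 2 * J.card + 2 * S.card - 2 := by rw [hSq]; linarith
  have hd : (0 : ℚ) < 2 * b + 2 * (1 : ℕ) - 1 := by push_cast; linarith
  rcases le_or_gt J.card b with hle | hgt
  · have hleq : (J.card : ℚ) ≤ b := by exact_mod_cast hle
    refine sum_pos h hR (by omega) (by omega) hy (n := 1) (m := 1) (σ := 0)
      (fun W hW hp => hTS W hW (Or.inl hp)) (fun W hW hp => hTS W hW (Or.inr hp)) le_rfl
      (div_nonneg (by linarith) hDp.le) ?_ ?_ (Or.inl ?_)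
    · rw [sub_nonneg, le_div_iff₀ hd]; push_cast; linarith
    · rw [sub_nonneg, div_le_div_iff₀ (by norm_num) hd]; push_cast; linarith
    · have : 1 / 4 ≤ (b : ℚ) / (2 * b + 2 * J.card + 2 * S.card - 2) := by
        rw [div_le_div_iff₀ (by norm_num) hDp, hSq]; linarith
      linarith
  · have hgtq : (b : ℚ) + 1 ≤ J.card := by exact_mod_cast hgt
    have hJ2 : (J.card : ℚ) + 2 ≤ 2 * b := by exact_mod_cast hJ
    refine sum_pos h hR (by omega) (by omega) hy (n := 1) (m := 1)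
      (σ := (b : ℚ) / (2 * b + 2 * J.card + 2 * S.card - 2))
      (fun W hW hp => hTS W hW (Or.inl hp)) (fun W hW hp => hTS W hW (Or.inr hp))
      (div_nonneg (by linarith) hDp.le) le_rfl ?_ ?_ (Or.inr ⟨by linarith, ?_, ?_⟩)
    · rw [le_sub_iff_add_le, div_add_one hDp.ne', div_le_div_iff₀ hDp hd, hSq]
      push_cast
      nlinarith
    · rw [div_sub_div _ _ hd.ne' (by norm_num : (2 : ℚ) ≠ 0),
        div_le_div_iff₀ hDp (by linarith), hSq]
      push_cast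
      nlinarith
    · have : (b : ℚ) / (2 * b + 2 * J.card + 2 * S.card - 2) ≤ 1 / 4 := by
        rw [div_le_div_iff₀ hDp (by norm_num), hSq]; linarith
      linarith
    · have h1 : (b : ℚ) / (2 * b + 2 * J.card + 2 * S.card - 2) *
          (2 * b + 2 * J.card + 2 * S.card - 2) = b := div_mul_cancel₀ _ hDp.ne'
      refine le_of_mul_le_mul_right ?_ hDp
      generalize (b : ℚ) / (2 * b + 2 * J.card + 2 * S.card - 2) = β at h1
      rw [hSq] at h1 ⊢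
      have h2 : (1 - 4 * β) * ((b : ℚ) - 2 - (J.card - b)) * (2 * b + 2 * J.card + 2 * 1 - 2) =
          (2 * J.card - 2 * b) * (2 * b - 2 - J.card) := by
        linear_combination (-4 * ((b : ℚ) - 2 - (J.card - b))) * h1
      have h3 : β * (2 * ((J.card : ℚ) - b) + 2) * (2 * b + 2 * J.card + 2 * 1 - 2) =
          b * (2 * (J.card - b) + 2) := by
        linear_combination (2 * ((J.card : ℚ) - b) + 2) * h1
      rw [h2, h3]
      nlinarith

/-- case B, many classes -/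
theorem caseB5 (h : Setup μ s b U f 𝒜 r) (hR : Region (arc μ U f) 𝒜 r J S) (hS : S.card = 2)
    (hJ : J.card + 4 ≤ 2 * b) (hb4 : ¬ (b = 4 ∧ J.card = 4))
    (hclean : ∀ W ∈ J, ∀ y ∈ BB U f 𝒜, ¬ Heavy μ U f 𝒜 J W y) : False := by
  have hJ1 := hR.nonempty.card_pos
  have hb : 3 ≤ b := by omega
  have hbq : (3 : ℚ) ≤ b := by exact_mod_cast hb
  have hJq : (1 : ℚ) ≤ J.card := by exact_mod_cast hJ1
  refine final h J hR.sub hR.r_notMem hR.nonempty (by omega) (fun y hy => ?_)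
  have hTS : ∀ W ∈ J, (IsP μ U f 𝒜 W y ∨ IsQ μ U f 𝒜 W y) → (TS μ U f 𝒜 W y).card ≤ 2 :=
    fun W hW hp => by
      have := TS_card' hR (by omega) hW hp (hclean W hW y hy)
      omega
  have hSq : (S.card : ℚ) = 2 := by exact_mod_cast hS
  have hDp : (0 : ℚ) < 2 * b + 2 * J.card + 2 * S.card - 2 := by rw [hSq]; linarith
  have hd : (0 : ℚ) < 2 * b + 2 * (2 : ℕ) - 1 := by push_cast; linarith
  rcases lt_or_ge J.card b with hlt | hge
  · have hleq : (J.card : ℚ) + 1 ≤ b := by exact_mod_cast hlt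
    refine sum_pos h hR (by omega) (by omega) hy (n := 2) (m := 2) (σ := 0)
      (fun W hW hp => hTS W hW (Or.inl hp)) (fun W hW hp => hTS W hW (Or.inr hp)) le_rfl
      (div_nonneg (by linarith) hDp.le) ?_ ?_ (Or.inl ?_)
    · rw [sub_nonneg, le_div_iff₀ hd]; push_cast; linarith
    · rw [sub_nonneg, div_le_div_iff₀ (by norm_num) hd]; push_cast; linarith
    · have : 1 / 4 ≤ (b : ℚ) / (2 * b + 2 * J.card + 2 * S.card - 2) := by
        rw [div_le_div_iff₀ (by norm_num) hDp, hSq]; linarith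
      linarith
  · have hgeq : (b : ℚ) ≤ J.card := by exact_mod_cast hge
    have hJ2 : (J.card : ℚ) + 4 ≤ 2 * b := by exact_mod_cast hJ
    have hb5 : 5 ≤ b := by omega
    have hb5q : (5 : ℚ) ≤ b := by exact_mod_cast hb5
    obtain ⟨σ, s1, s2, s3, s4⟩ := min3 ((b : ℚ) / (2 * b + 2 * J.card + 2 * S.card - 2))
      (3 * b / (2 * b + 2 * (2 : ℕ) - 1) - 1) (2 * b / (2 * b + 2 * (2 : ℕ) - 1) - 1 / 2)
    have e2 : (3 : ℚ) * b / (2 * b + 2 * (2 : ℕ) - 1) - 1 = (b - 3) / (2 * b + 3) := by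
      have : (2 : ℚ) * b + 3 ≠ 0 := by positivity
      push_cast
      rw [show (2 : ℚ) * b + 2 * 2 - 1 = 2 * b + 3 by ring, div_sub_one this]
      congr 1; ring
    have e3 : (2 : ℚ) * b / (2 * b + 2 * (2 : ℕ) - 1) - 1 / 2 =
        (2 * b - 3) / (2 * (2 * b + 3)) := by
      have : (2 : ℚ) * b + 3 ≠ 0 := by positivity
      push_cast
      rw [show (2 : ℚ) * b + 2 * 2 - 1 = 2 * b + 3 by ring, div_sub_div _ _ this (by norm_num)]
      congr 1 <;> ring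
    rw [e2] at s2 s4
    rw [e3] at s3 s4
    obtain ⟨β, hβd⟩ : ∃ β : ℚ, β = (b : ℚ) / (2 * b + 2 * J.card + 2 * S.card - 2) := ⟨_, rfl⟩
    have hβ : β * (2 * b + 2 * J.card + 2 * S.card - 2) = b := by
      rw [hβd]; exact div_mul_cancel₀ _ hDp.ne'
    obtain ⟨u, hu⟩ : ∃ u : ℚ, u = J.card - b := ⟨_, rfl⟩
    have hu0 : 0 ≤ u := by linarith
    have hJu : (J.card : ℚ) = b + u := by linarith
    rw [hSq, hJu] at hβ
    have hβ' : β * (4 * b + 2 * u + 2) = b := by linarith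
    have hDu : (0 : ℚ) < 4 * b + 2 * u + 2 := by linarith
    have hβ0 : 0 ≤ β := by
      rw [hβd]; exact div_nonneg (by linarith) hDp.le
    have hβ1 : 4 * β ≤ 1 := by
      by_contra hcon
      push Not at hcon
      nlinarith
    refine sum_pos h hR (by omega) (by omega) hy (n := 2) (m := 2) (σ := σ)
      (fun W hW hp => hTS W hW (Or.inl hp)) (fun W hW hp => hTS W hW (Or.inr hp))
      ?_ s1 (by rw [e2]; exact s2) (by rw [e3]; exact s3)
      (Or.inr ⟨hgeq, by rw [← hβd]; linarith, ?_⟩)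
    · rcases s4 with s4 | s4 | s4
      · rw [s4, ← hβd]; exact hβ0
      · rw [s4]; exact div_nonneg (by linarith) (by linarith)
      · rw [s4]; exact div_nonneg (by linarith) (by linarith)
    · rw [← hβd, ← hu]
      refine le_of_mul_le_mul_right ?_ hDu
      have h2 : (1 - 4 * β) * ((b : ℚ) - 2 - u) * (4 * b + 2 * u + 2) =
          (2 * u + 2) * (b - 2 - u) := by
        linear_combination (-4 * ((b : ℚ) - 2 - u)) * hβ'
      rw [h2]
      have hu2 : (0 : ℚ) ≤ 2 * u + 2 := by linarith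
      rcases s4 with s4 | s4 | s4
      · rw [← hβd] at s4
        have h3 : σ * (2 * u + 2) * (4 * b + 2 * u + 2) = (2 * u + 2) * b := by
          rw [s4]; linear_combination (2 * u + 2) * hβ'
        rw [h3]
        exact mul_le_mul_of_nonneg_left (by linarith) hu2
      · have h3 : σ * (2 * b + 3) = b - 3 := by
          rw [s4]; exact div_mul_cancel₀ _ (by positivity)
        have h4 : σ * (2 * u + 2) * (4 * b + 2 * u + 2) =
            (2 * u + 2) * (σ * (4 * b + 2 * u + 2)) := by ring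
        rw [h4]
        apply mul_le_mul_of_nonneg_left _ hu2
        have h5 : (0 : ℚ) < 2 * b + 3 := by positivity
        refine le_of_mul_le_mul_right ?_ h5
        have h6 : σ * (4 * b + 2 * u + 2) * (2 * b + 3) = (b - 3) * (4 * b + 2 * u + 2) := by
          linear_combination (4 * b + 2 * u + 2) * h3
        rw [h6]
        nlinarith [mul_nonneg hu0 (by linarith : (0 : ℚ) ≤ 4 * b - 3),
          mul_nonneg (by linarith : (0 : ℚ) ≤ b) (by linarith : (0 : ℚ) ≤ 2 * b - 9)]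
      · have h3 : σ * (2 * (2 * b + 3)) = 2 * b - 3 := by
          rw [s4]; exact div_mul_cancel₀ _ (by positivity)
        have h4 : σ * (2 * u + 2) * (4 * b + 2 * u + 2) =
            (2 * u + 2) * (σ * (4 * b + 2 * u + 2)) := by ring
        rw [h4]
        apply mul_le_mul_of_nonneg_left _ hu2
        have h5 : (0 : ℚ) < 2 * (2 * b + 3) := by positivity
        refine le_of_mul_le_mul_right ?_ h5
        have h6 : σ * (4 * b + 2 * u + 2) * (2 * (2 * b + 3)) =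
            (2 * b - 3) * (4 * b + 2 * u + 2) := by
          linear_combination (4 * b + 2 * u + 2) * h3
        rw [h6]
        nlinarith [mul_nonneg hu0 (by linarith : (0 : ℚ) ≤ b),
          mul_nonneg (by linarith : (0 : ℚ) ≤ b) (by linarith : (0 : ℚ) ≤ 2 * b - 3)]

/-- case B, `b = 4` and `|J| = 4` -/
theorem caseB4 (h : Setup μ s b U f 𝒜 r) (hR : Region (arc μ U f) 𝒜 r J S) (hS : S.card = 2)
    (hrS : r ∉ S) (hZ : ∀ Z ∈ S, NoCl (arc μ U f) 𝒜 r {Z})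
    (hWZ : ∀ W ∈ J, ∀ Z ∈ S, NoCl (arc μ U f) 𝒜 r {W, Z})
    (hb4 : b = 4) (hJ4 : J.card = 4)
    (hclean : ∀ W ∈ J, ∀ y ∈ BB U f 𝒜, ¬ Heavy μ U f 𝒜 J W y) : False := by
  have hJ : J.card + 4 ≤ 2 * b := by omega
  refine final h J hR.sub hR.r_notMem hR.nonempty (by omega) (fun y hy => ?_)
  have hTS : ∀ W ∈ J, (IsP μ U f 𝒜 W y ∨ IsQ μ U f 𝒜 W y) → (TS μ U f 𝒜 W y).card ≤ 2 :=
    fun W hW hp => by
      have := TS_card' hR (by omega) hW hp (hclean W hW y hy)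
      omega
  have hSq : (S.card : ℚ) = 2 := by exact_mod_cast hS
  have hJq : (J.card : ℚ) = 4 := by exact_mod_cast hJ4
  have hbq : (b : ℚ) = 4 := by exact_mod_cast hb4
  by_cases hex : ∃ W ∈ J, IsP μ U f 𝒜 W y ∧ 2 ≤ (TS μ U f 𝒜 W y).card
  · obtain ⟨W, hW, hP, hTS2⟩ := hex
    have hTSsub : TS μ U f 𝒜 W y ⊆ S := by
      rcases TS_card hR hW (Or.inl hP) (hclean W hW y hy) with h1 | h1
      · omega
      · exact h1
    have hTSeq : TS μ U f 𝒜 W y = S := Finset.eq_of_subset_of_card_le hTSsub (by omega)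
    have hWr := ne_r_of hR hW
    -- both classes of `S` are partners
    have hpart : ∀ Z ∈ S, 1 ≤ ep μ U f y Z := by
      intro Z hZS
      have hZW : Z ≠ W := fun e => (Finset.disjoint_left.1 hR.disj) hW (e ▸ hZS)
      have hZr : Z ≠ r := fun e => hrS (e ▸ hZS)
      have hgg : 0 < gg μ U f W Z := by
        classical
        by_contra hcon
        have hmp := many_partners h hR (Or.inr ⟨hS, hrS, hZ, hWZ, hJ⟩) (Or.inr (by omega)) hW
          (hclean W hW)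
        have hsub : ((J ∪ S).filter (fun X => X ≠ W ∧ 0 < gg μ U f W X)) ⊆
            ((J ∪ S).erase W).erase Z := by
          intro X hX
          rw [mem_filter] at hX
          rw [mem_erase, mem_erase]
          exact ⟨fun e => hcon (e ▸ hX.2.2), hX.2.1, hX.1⟩
        have h1 := Finset.card_le_card hsub
        have h2 : W ∈ J ∪ S := mem_union_left _ hW
        have h3 : Z ∈ (J ∪ S).erase W := mem_erase.2 ⟨hZW, mem_union_right _ hZS⟩
        rw [Finset.card_erase_of_mem h3, Finset.card_erase_of_mem h2] at h1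
        have h4 := Finset.card_union_le J S
        omega
      have hTT := TT (X := Z) h hR hW (hR.Ssub hZS) hZr hZW (hWZ W hW Z hZS) hy (Or.inl hP) hTS2
        (fun R _ _ _ => Or.inr (Or.inl (by rw [hTSeq]; exact hZS)))
      exact (gg_le_of_TT h (hR.sub hW) hWr (hR.Ssub hZS) hZr hZW (hZ Z hZS) hy hTT hgg).1
    -- now the excess is larger
    obtain ⟨X, Z, h1, h2, h3⟩ := sum_y h hR (by omega) (by omega) hy (dP := 2 * b + 2 * (2 : ℕ) - 1)
      (dQ := 2 * b + 2 * (2 : ℕ) - 1) (σ := 0)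
      (fun W hW hp => ee_B_light h (hR.sub hW) (ne_r_of hR hW) (term_of hR hW) hy (Or.inl hp)
        (hTS W hW (Or.inl hp)))
      (fun W hW hp => ee_B_light h (hR.sub hW) (ne_r_of hR hW) (term_of hR hW) hy (Or.inr hp)
        (hTS W hW (Or.inr hp)))
      (by rw [hSq, hJq, hbq]; norm_num) (by rw [hbq]; norm_num) (by rw [hbq]; norm_num)
    have hE := EE_bound h hy
    have hEs := sum_ep_le (μ := μ) (U := U) (f := f) y
      (Finset.union_subset hR.sub hR.Ssub)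
    rw [Finset.sum_union hR.disj] at hEs
    have hS2 : 2 ≤ ∑ Z ∈ S, ep μ U f y Z := by
      calc 2 = ∑ _Z ∈ S, 1 := by rw [Finset.sum_const, hS]; rfl
        _ ≤ _ := Finset.sum_le_sum hpart
    have h4 : X + 2 * Z + 2 ≤ EE μ U f 𝒜 y := by omega
    have h5 : EE μ U f 𝒜 y ≤ 6 := by omega
    have h4q : (X : ℚ) + 2 * Z + 2 ≤ EE μ U f 𝒜 y := by exact_mod_cast h4
    have h5q : (EE μ U f 𝒜 y : ℚ) ≤ 6 := by exact_mod_cast h5
    have hX0 : (0 : ℚ) ≤ X := by positivity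
    have hZ0 : (0 : ℚ) ≤ Z := by positivity
    refine le_trans ?_ h3
    rw [hSq, hJq, hbq]
    generalize (EE μ U f 𝒜 y : ℚ) = E at h4q h5q
    have hq : (0 : ℚ) < 2 * 4 - E := by linarith
    have hlam0 : 0 ≤ E / (2 * 4 - E) := div_nonneg (by linarith) hq.le
    rcases Nat.eq_zero_or_pos Z with hz | hz
    · subst hz
      push_cast
      have : 0 ≤ (4 - (X : ℚ) - 0) * (E / (2 * 4 - E)) := mul_nonneg (by push_cast at h4q; linarith) hlam0
      linarith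
    · have hz1 : (1 : ℚ) ≤ Z := by exact_mod_cast hz
      have hlam1 : 1 ≤ E / (2 * 4 - E) := by
        rw [le_div_iff₀ hq]; linarith
      have : (4 - (X : ℚ) - Z) * 1 ≤ (4 - (X : ℚ) - Z) * (E / (2 * 4 - E)) :=
        mul_le_mul_of_nonneg_left hlam1 (by linarith)
      norm_num
      linarith
  · have hTS1 : ∀ W ∈ J, IsP μ U f 𝒜 W y → (TS μ U f 𝒜 W y).card ≤ 1 := by
      intro W hW hP
      by_contra hcon
      exact hex ⟨W, hW, hP, by omega⟩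
    refine sum_pos h hR (by omega) (by omega) hy (n := 1) (m := 2) (σ := 2 / 9)
      hTS1 (fun W hW hp => hTS W hW (Or.inr hp)) (by norm_num) ?_ ?_ ?_ (Or.inr ⟨?_, ?_, ?_⟩)
    · rw [hSq, hJq, hbq]; norm_num
    · rw [hbq]; norm_num
    · rw [hbq]; norm_num
    · rw [hJq, hbq]
    · rw [hSq, hJq, hbq]; norm_num
    · rw [hSq, hJq, hbq]; norm_num

end main

/-! ### many classes -/

section zero
variable {μ : V → V → ℕ} {s b : ℕ} {U : Finset V} {f : V → ℕ} {𝒜 : Finset ℕ} {r : ℕ}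

theorem b_pos (h : Setup μ s b U f 𝒜 r) : 1 ≤ b := by
  have h1 : (BB U f 𝒜).Nonempty := by
    rw [← Finset.card_pos, h.card_B]; omega
  obtain ⟨y, hy⟩ := h1
  have := EE_bound h hy
  omega

theorem ee_B_D (h : Setup μ s b U f 𝒜 r) {D : Finset ℕ} {Q : ℕ} (hD : D ⊆ 𝒜)
    (ho : ∀ W ∈ D, ∀ Y ∈ 𝒜, arc μ U f W Y → Y ∈ D ∨ Y = Q) {W : ℕ} (hW : W ∈ D) {w : V}
    (hw : w ∈ cl U f W) :
    ee μ w (BB U f 𝒜) + ee μ w (cl U f W) ≤ 2 * b + 2 * D.card := by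
  have h1 := ee_B_le h (hD hW) hw
  have hsub : tg μ U f 𝒜 w ⊆ insert Q (D.erase W) := by
    intro c hc
    obtain ⟨h2, h3, h4⟩ := arc_of_mem_tg hw hc
    rcases ho W hW c h2 h4 with h5 | h5
    · exact mem_insert_of_mem (mem_erase.2 ⟨h3, h5⟩)
    · rw [h5]; exact mem_insert_self _ _
  have h2 := (Finset.card_le_card hsub).trans (Finset.card_insert_le _ _)
  rw [Finset.card_erase_of_mem hW] at h2
  have h3 : 0 < D.card := Finset.card_pos.2 ⟨W, hW⟩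
  omega

/-- the value of a class with positive excess, `|D| = 2 b - 1` -/
theorem class_pos (h : Setup μ s b U f 𝒜 r) {D : Finset ℕ} {Q : ℕ} (hD : D ⊆ 𝒜) (hr : r ∉ D)
    (ht : ∀ W ∈ D, NoCl (arc μ U f) 𝒜 r {W})
    (ho : ∀ W ∈ D, ∀ Y ∈ 𝒜, arc μ U f W Y → Y ∈ D ∨ Y = Q) (hb : D.card + 1 = 2 * b) {W : ℕ}
    (hW : W ∈ D) {y : V} (hy : y ∈ BB U f 𝒜) (h1 : 1 ≤ ep μ U f y W) :
    -(((b : ℚ) - 1) / (2 * b - 1)) ≤ (b : ℚ) * val μ (BB U f 𝒜) y (cl U f W) - 1 := by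
  have hb1 := b_pos h
  have hbq : (1 : ℚ) ≤ b := by exact_mod_cast hb1
  have hWr : W ≠ r := fun e => hr (e ▸ hW)
  have hb0 : (0 : ℚ) ≤ b := by linarith
  have hν : 0 ≤ ((b : ℚ) - 1) / (2 * b - 1) := div_nonneg (by linarith) (by linarith)
  have hsp := ee_split μ U f 𝒜 W y
  have hge := ee_cl_ge_two h hy (hD hW)
  have h3 : 3 ≤ ee μ y (Nm μ U f 𝒜 W) + ee μ y (Fm μ U f 𝒜 W) := by
    unfold ep at h1; omega
  have hK : ∀ w ∈ Fm μ U f 𝒜 W, (ee μ w (BB U f 𝒜) : ℚ) ≤ 6 * b - 2 := by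
    intro w hw
    have h4 := ee_B_D h hD ho hW (mem_filter.1 hw).1
    have h5 : ee μ w (BB U f 𝒜) + 2 ≤ 6 * b := by omega
    have h6 : (ee μ w (BB U f 𝒜) : ℚ) + 2 ≤ 6 * b := by exact_mod_cast h5
    linarith
  have hv := val_NF h (hD hW) hy (fun w hw _ => hK w hw)
  have hv1 := mul_le_mul_of_nonneg_left hv hb0
  have hK0 : (0 : ℚ) < 6 * b - 2 := by linarith
  have h2b : (0 : ℚ) < 2 * b := by linarith
  have h2b1 : (0 : ℚ) < 2 * b - 1 := by linarith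
  have hf0 : (0 : ℚ) ≤ (ee μ y (Fm μ U f 𝒜 W) : ℚ) / (6 * b - 2) := by positivity
  rcases Nat.lt_or_ge (ee μ y (Nm μ U f 𝒜 W)) 2 with hn | hn
  · rcases Nat.lt_or_ge (ee μ y (Nm μ U f 𝒜 W)) 1 with hn' | hn'
    · have hn0 : ee μ y (Nm μ U f 𝒜 W) = 0 := by omega
      rcases Nat.lt_or_ge (ee μ y (Fm μ U f 𝒜 W)) 4 with hf | hf
      · have hf3 : ee μ y (Fm μ U f 𝒜 W) = 3 := by omega
        have hP : IsP μ U f 𝒜 W y := ⟨hn0, hf3⟩
        obtain ⟨h4, -, -⟩ := PQ_struct h (hD hW) hWr (ht W hW) hy (Or.inl hP)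
        have hv' := val_NF (K := 6 * (b : ℚ) - 3) h (hD hW) hy (by
          intro w hw hyw
          have hwT : w ∈ Tn μ U f 𝒜 W y := by
            simp only [Tn, mem_filter]
            exact ⟨hw, hyw⟩
          have h5 := (h4 w hwT).2
          have h6 := ee_B_D h hD ho hW (mem_filter.1 hw).1
          have h7 : ee μ w (BB U f 𝒜) + 3 ≤ 6 * b := by omega
          have h8 : (ee μ w (BB U f 𝒜) : ℚ) + 3 ≤ 6 * b := by exact_mod_cast h7
          linarith)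
        rw [hn0, hf3] at hv'
        have h9 := mul_le_mul_of_nonneg_left hv' hb0
        have h10 : (b : ℚ) * (((0 : ℕ) : ℚ) / (2 * b) + ((3 : ℕ) : ℚ) / (6 * b - 3)) =
            b / (2 * b - 1) := by
          push_cast
          rw [show (6 : ℚ) * b - 3 = 3 * (2 * b - 1) by ring, zero_div, zero_add, mul_div_assoc',
            mul_comm (b : ℚ) 3, mul_div_mul_left _ _ (by norm_num : (3 : ℚ) ≠ 0)]
        have h11 : (b : ℚ) / (2 * b - 1) - 1 = -(((b : ℚ) - 1) / (2 * b - 1)) := by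
          rw [div_sub_one h2b1.ne', ← neg_div]
          congr 1; ring
        linarith
      · have hf4 : (4 : ℚ) ≤ ee μ y (Fm μ U f 𝒜 W) := by exact_mod_cast hf
        have h5 : (4 : ℚ) / (6 * b - 2) ≤ (ee μ y (Fm μ U f 𝒜 W) : ℚ) / (6 * b - 2) :=
          div_le_div_of_nonneg_right hf4 hK0.le
        have h6 : (0 : ℚ) ≤ (ee μ y (Nm μ U f 𝒜 W) : ℚ) / (2 * b) := by positivity
        have h7 : (b : ℚ) * (4 / (6 * b - 2)) ≤ b * ((ee μ y (Nm μ U f 𝒜 W) : ℚ) / (2 * b) +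
            (ee μ y (Fm μ U f 𝒜 W) : ℚ) / (6 * b - 2)) :=
          mul_le_mul_of_nonneg_left (by linarith) hb0
        have h8 : 1 - ((b : ℚ) - 1) / (2 * b - 1) ≤ b * (4 / (6 * b - 2)) := by
          rw [one_sub_div h2b1.ne', mul_div_assoc', div_le_div_iff₀ h2b1 hK0]
          nlinarith
        linarith
    · have hn1 : ee μ y (Nm μ U f 𝒜 W) = 1 := by omega
      have hf2 : (2 : ℚ) ≤ ee μ y (Fm μ U f 𝒜 W) := by
        have : 2 ≤ ee μ y (Fm μ U f 𝒜 W) := by omega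
        exact_mod_cast this
      have h5 : (2 : ℚ) / (6 * b - 2) ≤ (ee μ y (Fm μ U f 𝒜 W) : ℚ) / (6 * b - 2) :=
        div_le_div_of_nonneg_right hf2 hK0.le
      have h7 : (b : ℚ) * (1 / (2 * b) + 2 / (6 * b - 2)) ≤
          b * ((ee μ y (Nm μ U f 𝒜 W) : ℚ) / (2 * b) +
            (ee μ y (Fm μ U f 𝒜 W) : ℚ) / (6 * b - 2)) := by
        apply mul_le_mul_of_nonneg_left _ hb0
        rw [hn1]
        push_cast
        linarith
      have h8 : (b : ℚ) * (1 / (2 * b) + 2 / (6 * b - 2)) = 1 / 2 + b * (2 / (6 * b - 2)) := by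
        rw [mul_add, mul_div_assoc', mul_one, mul_comm 2 (b : ℚ), div_mul_cancel_left₀ (by linarith)]
        norm_num
      have h9 : 1 / 2 - ((b : ℚ) - 1) / (2 * b - 1) ≤ b * (2 / (6 * b - 2)) := by
        rw [div_sub_div _ _ (by norm_num) h2b1.ne', mul_div_assoc',
          div_le_div_iff₀ (by linarith) hK0]
        nlinarith
      linarith
  · have hn2 : (2 : ℚ) ≤ ee μ y (Nm μ U f 𝒜 W) := by exact_mod_cast hn
    have h5 : (2 : ℚ) / (2 * b) ≤ (ee μ y (Nm μ U f 𝒜 W) : ℚ) / (2 * b) :=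
      div_le_div_of_nonneg_right hn2 h2b.le
    have h7 : (b : ℚ) * (2 / (2 * b)) ≤ b * ((ee μ y (Nm μ U f 𝒜 W) : ℚ) / (2 * b) +
        (ee μ y (Fm μ U f 𝒜 W) : ℚ) / (6 * b - 2)) :=
      mul_le_mul_of_nonneg_left (by linarith) hb0
    have h8 : (b : ℚ) * (2 / (2 * b)) = 1 := by
      rw [mul_div_assoc', mul_comm (b : ℚ) 2, div_self h2b.ne']
    linarith

end zero

end Cert

section fin
variable {μ : V → V → ℕ} {s b : ℕ} {U : Finset V} {f : V → ℕ} {𝒜 : Finset ℕ} {r : ℕ}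
  {J S : Finset ℕ}

/-- Module C1: the final counting. -/
theorem certificate (h : Setup μ s b U f 𝒜 r) (hR : Region (arc μ U f) 𝒜 r J S)
    (hc : Case μ b U f 𝒜 r J S)
    (hclean : ∀ W ∈ J, ∀ y ∈ BB U f 𝒜, ¬ Heavy μ U f 𝒜 J W y) : False := by
  rcases hc with ⟨h1, h2⟩ | ⟨h1, h2, h3, h4, h5⟩
  · exact Cert.caseA h hR h1 h2 hclean
  · by_cases h6 : b = 4 ∧ J.card = 4
    · exact Cert.caseB4 h hR h1 h2 h3 h4 h6.1 h6.2 hclean
    · exact Cert.caseB5 h hR h1 h5 h6 hclean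

/-- Module C0: many classes. -/
theorem certificate0 (h : Setup μ s b U f 𝒜 r) (D : Finset ℕ) (Q : ℕ) (hD : D ⊆ 𝒜)
    (hr : r ∉ D) (ht : ∀ W ∈ D, NoCl (arc μ U f) 𝒜 r {W})
    (ho : ∀ W ∈ D, ∀ Y ∈ 𝒜, arc μ U f W Y → Y ∈ D ∨ Y = Q) (hne : D.Nonempty)
    (hb : 2 * b ≤ D.card + 1) : False := by
  have hb1 := Cert.b_pos h
  have hbq : (1 : ℚ) ≤ b := by exact_mod_cast hb1
  refine Cert.final h D hD hr hne hb1 (fun y hy => ?_)
  have hE := EE_bound h hy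
  have hEs := Cert.sum_ep_le (μ := μ) (U := U) (f := f) y hD
  have hEq : (EE μ U f 𝒜 y : ℚ) + 2 ≤ 2 * b := by
    have : EE μ U f 𝒜 y + 2 ≤ 2 * b := by omega
    exact_mod_cast this
  have hq : (0 : ℚ) < 2 * (b : ℚ) - EE μ U f 𝒜 y := by linarith
  have hzero : ∀ W ∈ D, ep μ U f y W = 0 →
      (EE μ U f 𝒜 y : ℚ) / (2 * (b : ℚ) - EE μ U f 𝒜 y) ≤
        (b : ℚ) * Cert.val μ (BB U f 𝒜) y (cl U f W) - 1 := fun W hW h0 =>
    Cert.class_zero h (hD hW) (fun e => hr (e ▸ hW)) (ht W hW) hy h0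
  rcases Nat.lt_or_ge D.card (2 * b) with hlt | hge
  · have heq : D.card + 1 = 2 * b := by omega
    obtain ⟨X, h1, h2, h3⟩ := Cert.sum_bound0 D (ep μ U f y)
      (fun W => (b : ℚ) * Cert.val μ (BB U f 𝒜) y (cl U f W) - 1) _
      (((b : ℚ) - 1) / (2 * b - 1)) hzero
      (fun W hW h0 => Cert.class_pos h hD hr ht ho heq hW hy h0)
    refine le_trans ?_ h3
    have h4 : (X : ℚ) ≤ EE μ U f 𝒜 y := by exact_mod_cast h2.trans hEs
    have h5 : (D.card : ℚ) = 2 * b - 1 := by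
      have : (D.card : ℚ) + 1 = 2 * b := by exact_mod_cast heq
      linarith
    have hX0 : (0 : ℚ) ≤ X := by positivity
    rw [h5]
    generalize (EE μ U f 𝒜 y : ℚ) = E at hEq hq h4
    generalize (X : ℚ) = x at hX0 h4
    have h2b1 : (0 : ℚ) < 2 * b - 1 := by linarith
    have h6 : ((b : ℚ) - 1) / (2 * b - 1) * x ≤ (2 * b - 1 - x) * (E / (2 * b - E)) := by
      rw [div_mul_eq_mul_div, mul_div_assoc', div_le_div_iff₀ h2b1 hq]
      have h7 : (2 * (b : ℚ) - 1 - x) * x ≤ (2 * b - 1 - x) * E :=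
        mul_le_mul_of_nonneg_left h4 (by linarith)
      have h8 : ((b : ℚ) - 1) * x * (2 * b - E) ≤ (b - 1) * x * (2 * b - x) :=
        mul_le_mul_of_nonneg_left (by linarith) (mul_nonneg (by linarith) hX0)
      have h9 : 0 ≤ x * (2 * (b : ℚ) ^ 2 - 2 * b + 1 - b * x) := by
        apply mul_nonneg hX0
        nlinarith
      nlinarith
    linarith
  · obtain ⟨X, h1, h2, h3⟩ := Cert.sum_bound0 D (ep μ U f y)
      (fun W => (b : ℚ) * Cert.val μ (BB U f 𝒜) y (cl U f W) - 1) _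
      1 hzero
      (fun W hW h0 => by
        have := Cert.val_nonneg μ (BB U f 𝒜) y (cl U f W)
        have h4 : (0 : ℚ) ≤ (b : ℚ) * Cert.val μ (BB U f 𝒜) y (cl U f W) :=
          mul_nonneg (by linarith) this
        linarith)
    refine le_trans ?_ h3
    have h4 : (X : ℚ) ≤ EE μ U f 𝒜 y := by exact_mod_cast h2.trans hEs
    have h5 : 2 * (b : ℚ) ≤ D.card := by exact_mod_cast hge
    have hX0 : (0 : ℚ) ≤ X := by positivity
    generalize (EE μ U f 𝒜 y : ℚ) = E at hEq hq h4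
    generalize (X : ℚ) = x at hX0 h4
    generalize (D.card : ℚ) = t at h5
    have h6 : x ≤ (t - x) * (E / (2 * b - E)) := by
      rw [mul_div_assoc', le_div_iff₀ hq]
      nlinarith
    linarith

end fin

end Pool.Agent.H25.EA
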