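import Pool.Agent.H25.EA.Ineq
import Pool.Agent.H25.EA.ExchTT

/-!
# Counting at one class: common lemmas
-/

set_option autoImplicit false
set_option linter.unusedSectionVars false

namespace Pool.Agent.H25.EA

open Finset

variable {V : Type*} [DecidableEq V] {μ : V → V → ℕ} {s b : ℕ} {U : Finset V} {f : V → ℕ}
  {𝒜 : Finset ℕ} {r : ℕ} {J S : Finset ℕ}

/-- total gain of the vertex `w` of the class `W` -/
def Dl (μ : V → V → ℕ) (U : Finset V) (f : V → ℕ) (𝒜 : Finset ℕ) (W : ℕ) (w : V) : ℤ :=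
  ∑ c ∈ 𝒜.erase W, (2 - (ee μ w (cl U f c) : ℤ))

/-- total gain of the class `W` -/
def GG (μ : V → V → ℕ) (U : Finset V) (f : V → ℕ) (𝒜 : Finset ℕ) (W : ℕ) : ℤ :=
  ∑ X ∈ 𝒜.erase W, gg μ U f W X

theorem mem_cl {c : ℕ} {v : V} : v ∈ cl U f c ↔ v ∈ U ∧ f v = c := by
  simp [cl]

theorem mem_tg {v : V} {c : ℕ} :
    c ∈ tg μ U f 𝒜 v ↔ c ∈ 𝒜 ∧ c ≠ f v ∧ mov μ U f v c := by
  classical
  unfold tg
  rw [mem_filter]

theorem Nm_sub {W : ℕ} : Nm μ U f 𝒜 W ⊆ cl U f W := filter_subset _ _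

theorem Fm_sub {W : ℕ} : Fm μ U f 𝒜 W ⊆ cl U f W := filter_subset _ _

theorem ee_split (W : ℕ) (y : V) :
    ee μ y (cl U f W) = ee μ y (Nm μ U f 𝒜 W) + ee μ y (Fm μ U f 𝒜 W) := by
  unfold ee Nm Fm
  exact (sum_filter_add_sum_filter_not _ _ _).symm

theorem sum_split {M : Type*} [AddCommMonoid M] (W : ℕ) (g : V → M) :
    ∑ w ∈ cl U f W, g w = ∑ w ∈ Nm μ U f 𝒜 W, g w + ∑ w ∈ Fm μ U f 𝒜 W, g w := by
  unfold Nm Fm
  exact (sum_filter_add_sum_filter_not _ _ _).symm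

theorem card_split (W : ℕ) :
    (Nm μ U f 𝒜 W).card + (Fm μ U f 𝒜 W).card = (cl U f W).card := by
  unfold Nm Fm
  exact card_filter_add_card_filter_not _

theorem Dl_nonpos (h : Setup μ s b U f 𝒜 r) {W : ℕ} {w : V} (hw : w ∈ Nm μ U f 𝒜 W) :
    Dl μ U f 𝒜 W w ≤ 0 := by
  unfold Dl
  apply sum_nonpos
  intro c hc
  rw [mem_erase] at hc
  have hw' : w ∈ U ∧ f w = W := mem_cl.1 (Nm_sub hw)
  have htg : tg μ U f 𝒜 w = ∅ := (mem_filter.1 hw).2
  have := ee_ge_two_of_notMem_tg h (w := w) (c := c) hc.2 (by rw [hw'.2]; exact hc.1)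
    (by rw [htg]; simp)
  omega

theorem Dl_le (h : Setup μ s b U f 𝒜 r) {W : ℕ} {w : V} (hw : w ∈ cl U f W) :
    Dl μ U f 𝒜 W w ≤ 2 * (tg μ U f 𝒜 w).card := by
  have hw' : w ∈ U ∧ f w = W := mem_cl.1 hw
  have h1 : ∀ c ∈ 𝒜.erase W, (2 - (ee μ w (cl U f c) : ℤ)) ≤
      if c ∈ tg μ U f 𝒜 w then 2 else 0 := by
    intro c hc
    rw [mem_erase] at hc
    split_ifs with hct
    · omega
    · have := ee_ge_two_of_notMem_tg h (w := w) (c := c) hc.2 (by rw [hw'.2]; exact hc.1) hct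
      omega
  refine (sum_le_sum h1).trans ?_
  rw [← sum_filter, sum_const, nsmul_eq_mul]
  have : ((𝒜.erase W).filter (fun c => c ∈ tg μ U f 𝒜 w)).card ≤ (tg μ U f 𝒜 w).card := by
    apply card_le_card
    intro c hc
    exact (mem_filter.1 hc).2
  have h2 : (((𝒜.erase W).filter (fun c => c ∈ tg μ U f 𝒜 w)).card : ℤ) ≤
      (tg μ U f 𝒜 w).card := by exact_mod_cast this
  linarith

theorem sum_Dl (W : ℕ) : ∑ w ∈ cl U f W, Dl μ U f 𝒜 W w = GG μ U f 𝒜 W := by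
  unfold Dl GG gg
  exact sum_comm

theorem dc (hμ : MG μ) (P Q : Finset V) : ∑ y ∈ Q, ee μ y P = ∑ w ∈ P, ee μ w Q := by
  unfold ee
  rw [sum_comm]
  exact sum_congr rfl fun _ _ => sum_congr rfl fun _ _ => hμ.symm _ _

/-- terminal classes -/
structure Term (μ : V → V → ℕ) (U : Finset V) (f : V → ℕ) (𝒜 : Finset ℕ) (r W : ℕ) : Prop where
  mem : W ∈ 𝒜
  ne : W ≠ r
  no : NoCl (arc μ U f) 𝒜 r {W}

theorem Region.isTerm (hR : Region (arc μ U f) 𝒜 r J S) {W : ℕ} (hW : W ∈ J) :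
    Term μ U f 𝒜 r W := by
  refine ⟨hR.sub hW, fun e => hR.r_notMem (e ▸ hW), ?_⟩
  have := hR.term W hW W hW
  simpa using this

theorem types (h : Setup μ s b U f 𝒜 r) {W : ℕ} (ht : Term μ U f 𝒜 r W) {y : V}
    (hy : y ∈ BB U f 𝒜) :
    (ee μ y (Nm μ U f 𝒜 W) = 2 ∧ ee μ y (Fm μ U f 𝒜 W) = 0 ∧ ep μ U f y W = 0) ∨
    (1 ≤ ep μ U f y W ∧ ee μ y (Nm μ U f 𝒜 W) + ee μ y (Fm μ U f 𝒜 W) = 2 + ep μ U f y W) := by
  have h2 := ee_cl_ge_two h hy ht.mem
  have hs := ee_split (μ := μ) (U := U) (f := f) (𝒜 := 𝒜) W y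
  rcases Nat.eq_zero_or_pos (ep μ U f y W) with h0 | h0
  · left
    obtain ⟨h3, h4, _⟩ := ep_zero h ht.mem ht.ne ht.no hy h0
    exact ⟨h3, h4, h0⟩
  · right
    refine ⟨h0, ?_⟩
    unfold ep at h0 ⊢
    omega

theorem ee_B_bound' (h : Setup μ s b U f 𝒜 r) {W : ℕ} (hW : W ∈ 𝒜) {w : V}
    (hw : w ∈ cl U f W) :
    (ee μ w (BB U f 𝒜) : ℤ) ≤ 2 * b - ee μ w (cl U f W) + Dl μ U f 𝒜 W w :=
  ee_B_bound h hW hw

theorem gg_nonpos_of_not_out (h : Setup μ s b U f 𝒜 r) {W X : ℕ} (hX : X ∈ 𝒜)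
    (hXW : X ≠ W) (hno : ¬ arc μ U f W X) : gg μ U f W X ≤ 0 := by
  unfold gg
  apply sum_nonpos
  intro w hw
  have hw' : w ∈ U ∧ f w = W := mem_cl.1 hw
  have := ee_ge_two_of_notMem_tg h (w := w) (c := X) hX (by rw [hw'.2]; exact hXW) (by
    intro hX'
    apply hno
    have := (mem_tg.1 hX').2
    exact ⟨fun e => hXW e.symm, w, hw, this.2⟩)
  omega

theorem gg_le_targets (h : Setup μ s b U f 𝒜 r) {W X : ℕ} (hX : X ∈ 𝒜) (hXW : X ≠ W) :
    gg μ U f W X ≤ 2 * ((Fm μ U f 𝒜 W).filter (fun w => X ∈ tg μ U f 𝒜 w)).card := by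
  unfold gg
  have h1 : ∀ w ∈ cl U f W, (2 - (ee μ w (cl U f X) : ℤ)) ≤
      if X ∈ tg μ U f 𝒜 w then 2 else 0 := by
    intro w hw
    have hw' : w ∈ U ∧ f w = W := mem_cl.1 hw
    split_ifs with hct
    · omega
    · have := ee_ge_two_of_notMem_tg h (w := w) (c := X) hX (by rw [hw'.2]; exact hXW) hct
      omega
  refine (sum_le_sum h1).trans ?_
  rw [← sum_filter, sum_const, nsmul_eq_mul]
  have : ((cl U f W).filter (fun w => X ∈ tg μ U f 𝒜 w)) ⊆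
      ((Fm μ U f 𝒜 W).filter (fun w => X ∈ tg μ U f 𝒜 w)) := by
    intro w hw
    rw [mem_filter] at hw
    refine mem_filter.2 ⟨mem_filter.2 ⟨hw.1, ?_⟩, hw.2⟩
    intro he
    rw [he] at hw
    simp at hw
  have h2 := card_le_card this
  have h3 : (((cl U f W).filter (fun w => X ∈ tg μ U f 𝒜 w)).card : ℤ) ≤
      ((Fm μ U f 𝒜 W).filter (fun w => X ∈ tg μ U f 𝒜 w)).card := by exact_mod_cast h2
  linarith

theorem Case.b_ge (hR : Region (arc μ U f) 𝒜 r J S) (hc : Case μ b U f 𝒜 r J S) : 2 ≤ b := by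
  have := hR.nonempty.card_pos
  rcases hc with ⟨_, h⟩ | ⟨_, _, _, _, h⟩ <;> omega

/-- the vertices and classes which occur in the type `P` or `Q` -/
theorem ep_of_PQ {W : ℕ} {y : V} (hPQ : IsP μ U f 𝒜 W y ∨ IsQ μ U f 𝒜 W y) :
    ep μ U f y W = 1 := by
  have hs := ee_split (μ := μ) (U := U) (f := f) (𝒜 := 𝒜) W y
  unfold ep
  rcases hPQ with ⟨h1, h2⟩ | ⟨h1, h2⟩ <;> omega

theorem TS_sub (hR : Region (arc μ U f) 𝒜 r J S) {W : ℕ} (hW : W ∈ J) {w : V}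
    (hw : w ∈ cl U f W) : tg μ U f 𝒜 w ⊆ (J ∪ S).erase W := by
  intro c hc
  have hc' := mem_tg.1 hc
  have hw' := mem_cl.1 hw
  have hcW : c ≠ W := by rw [← hw'.2]; exact hc'.2.1
  rw [mem_erase]
  refine ⟨hcW, ?_⟩
  rcases hR.out W hW c hc'.1 ⟨hcW.symm, w, hw, hc'.2.2⟩ with h | h
  · exact mem_union_left _ h
  · exact mem_union_right _ h

/-- `y` pays for all gains of `W` at partners which are terminal -/
def Pays (μ : V → V → ℕ) (U : Finset V) (f : V → ℕ) (J S : Finset ℕ) (W : ℕ) (y : V) : Prop :=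
  ∀ X, (X ∈ J ∨ (S.card = 2 ∧ X ∈ S)) → X ≠ W → 0 < gg μ U f W X →
    1 ≤ ep μ U f y X ∧ gg μ U f W X ≤ 2 + ep μ U f y X

theorem pays_of_heavy (h : Setup μ s b U f 𝒜 r) (hR : Region (arc μ U f) 𝒜 r J S)
    (hc : Case μ b U f 𝒜 r J S) {W : ℕ} (hW : W ∈ J) {y : V} (hy : y ∈ BB U f 𝒜)
    (hH : Heavy μ U f 𝒜 J W y)
    (hreach : ∀ X ∈ J, X ≠ W → 0 < gg μ U f W X →
      ∀ R ⊆ J.erase W, TS μ U f 𝒜 W y ∩ J ⊆ R →
      (∀ Y ∈ R, ∀ Y' ∈ J.erase W, arc μ U f Y Y' → Y' ∈ R) → X ∈ R) :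
    Pays μ U f J S W y := by
  intro X hX hXW hpos
  have htW := hR.isTerm hW
  rcases hX with hX | ⟨hS2, hX⟩
  · have htX := hR.isTerm hX
    refine gg_le_of_TT h htW.mem htW.ne htX.mem htX.ne hXW htX.no hy ?_ hpos
    exact TT h hR hW htX.mem htX.ne hXW (hR.term W hW X hX) hy hH.1 hH.2.1
      (fun R hRs hT hcl => Or.inl (hreach X hX hXW hpos R hRs hT hcl))
  · rcases hc with ⟨hS1, _⟩ | ⟨_, hrS, hZ, hWZ, _⟩
    · omega
    · have hXr : X ≠ r := fun e => hrS (e ▸ hX)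
      have hXA := hR.Ssub hX
      refine gg_le_of_TT h htW.mem htW.ne hXA hXr hXW (hZ X hX) hy ?_ hpos
      refine TT h hR hW hXA hXr hXW (hWZ W hW X hX) hy hH.1 hH.2.1 ?_
      intro R hRs hT hcl
      right; right
      -- the other element of `S`
      obtain ⟨X', hX'S, hX'X, hSeq⟩ : ∃ X' ∈ S, X' ≠ X ∧ ∀ Z ∈ S, Z = X ∨ Z = X' := by
        obtain ⟨a, c, hac, rfl⟩ := card_eq_two.1 hS2
        rcases mem_insert.1 hX with rfl | hX
        · exact ⟨c, by simp, hac.symm, fun Z hZ => by simpa using hZ⟩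
        · have hXc := mem_singleton.1 hX
          subst hXc
          exact ⟨a, by simp, hac, fun Z hZ => by
            have : Z = a ∨ Z = X := by simpa using hZ
            exact this.symm⟩
      have hRJ : R ⊆ J := hRs.trans (erase_subset _ _)
      have hRne : R.Nonempty := by
        obtain ⟨Y, hY⟩ := hH.2.2
        exact ⟨Y, hT hY⟩
      have hdisj : Disjoint R {W, X'} := by
        rw [disjoint_right]
        intro Z hZ hZR
        rcases mem_insert.1 hZ with rfl | hZ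
        · exact (mem_erase.1 (hRs hZR)).1 rfl
        · rw [mem_singleton] at hZ
          subst hZ
          exact disjoint_left.1 hR.disj (hRJ hZR) hX'S
      obtain ⟨x, hx, y', hy', hy'R, hy'S, hxy⟩ :=
        hWZ W hW X' hX'S R (hRJ.trans hR.sub) hdisj (fun hr => hR.r_notMem (hRJ hr)) hRne
      have hy'W : y' ≠ W := fun e => hy'S (by simp [e])
      have hy'X' : y' ≠ X' := fun e => hy'S (by simp [e])
      rcases hR.out x (hRJ hx) y' hy' hxy with hh | hh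
      · exact absurd (hcl x hx y' (mem_erase.2 ⟨hy'W, hh⟩) hxy) hy'R
      · rcases hSeq y' hh with e | e
        · exact ⟨x, hx, e ▸ hxy⟩
        · exact absurd e hy'X'

/-- the part of the excess outside `W` -/
theorem EE_erase {W : ℕ} (hW : W ∈ 𝒜) (y : V) :
    EE μ U f 𝒜 y = ep μ U f y W + ∑ c ∈ 𝒜.erase W, ep μ U f y c := by
  unfold EE
  rw [add_sum_erase _ _ hW]

/-- `G ≤ 3 E' + 2 θ φ` with `θ = 2 - |S|` -/
theorem GG_le (h : Setup μ s b U f 𝒜 r) (hR : Region (arc μ U f) 𝒜 r J S)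
    (hc : Case μ b U f 𝒜 r J S) {W : ℕ} (hW : W ∈ J) {y : V} (hp : Pays μ U f J S W y) :
    GG μ U f 𝒜 W ≤ 3 * (∑ c ∈ 𝒜.erase W, ep μ U f y c : ℕ) +
      2 * (2 - S.card) * (Fm μ U f 𝒜 W).card := by
  have hWA := hR.sub hW
  set φ := (Fm μ U f 𝒜 W).card with hφ
  have key : ∀ X ∈ 𝒜.erase W, gg μ U f W X ≤ 3 * (ep μ U f y X : ℤ) +
      if X ∈ S ∧ S.card = 1 then 2 * (φ : ℤ) else 0 := by
    intro X hX
    rw [mem_erase] at hX
    by_cases hXS : X ∈ S ∧ S.card = 1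
    · rw [if_pos hXS]
      have h1 := gg_le_targets h (W := W) hX.2 hX.1
      have h2 : ((Fm μ U f 𝒜 W).filter (fun w => X ∈ tg μ U f 𝒜 w)).card ≤ φ :=
        card_filter_le _ _
      have h3 : (((Fm μ U f 𝒜 W).filter (fun w => X ∈ tg μ U f 𝒜 w)).card : ℤ) ≤ φ := by
        exact_mod_cast h2
      have h4 : (0 : ℤ) ≤ ep μ U f y X := by positivity
      linarith
    · rw [if_neg hXS]
      by_cases hpos : 0 < gg μ U f W X
      · have hJS : X ∈ J ∨ (S.card = 2 ∧ X ∈ S) := by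
          by_contra hcon
          push Not at hcon
          have : ¬ arc μ U f W X := by
            intro ha
            rcases hR.out W hW X hX.2 ha with hh | hh
            · exact hcon.1 hh
            · rcases hc with ⟨h1, _⟩ | ⟨h2, _⟩
              · exact hXS ⟨hh, h1⟩
              · exact hcon.2 h2 hh
          have := gg_nonpos_of_not_out h hX.2 hX.1 this
          omega
        obtain ⟨h1, h2⟩ := hp X hJS hX.1 hpos
        omega
      · have h4 : (0 : ℤ) ≤ ep μ U f y X := by positivity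
        omega
  unfold GG
  refine (sum_le_sum key).trans ?_
  rw [sum_add_distrib, ← mul_sum]
  have h5 : ∑ X ∈ 𝒜.erase W, (if X ∈ S ∧ S.card = 1 then 2 * (φ : ℤ) else 0) ≤
      2 * (2 - S.card) * φ := by
    rw [← sum_filter, sum_const, nsmul_eq_mul]
    have h6 : ((𝒜.erase W).filter (fun X => X ∈ S ∧ S.card = 1)).card ≤ 2 - S.card := by
      rcases hc with ⟨h1, _⟩ | ⟨h2, _⟩
      · have : (𝒜.erase W).filter (fun X => X ∈ S ∧ S.card = 1) ⊆ S := by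
          intro X hX
          exact (mem_filter.1 hX).2.1
        have := card_le_card this
        omega
      · rw [filter_eq_empty_iff.2]
        · simp
        · intro X _ hX
          omega
    have h7 : (((𝒜.erase W).filter (fun X => X ∈ S ∧ S.card = 1)).card : ℤ) ≤ 2 - S.card := by
      have : S.card ≤ 2 := by rcases hc with ⟨h1, _⟩ | ⟨h2, _⟩ <;> omega
      omega
    have h8 : (0 : ℤ) ≤ φ := by positivity
    nlinarith
  push_cast
  linarith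

end Pool.Agent.H25.EA
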