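import Pool.Agent.H25.EA.Count0

/-!
# Counting at one class: there is no heavy vertex of type P
-/

set_option autoImplicit false
set_option linter.unusedSectionVars false

namespace Pool.Agent.H25.EA

open Finset

variable {V : Type*} [DecidableEq V] {μ : V → V → ℕ} {s b : ℕ} {U : Finset V} {f : V → ℕ}
  {𝒜 : Finset ℕ} {r : ℕ} {J S : Finset ℕ}

theorem Tn_sub {W : ℕ} {y : V} : Tn μ U f 𝒜 W y ⊆ Fm μ U f 𝒜 W := filter_subset _ _

theorem card_Tn (h : Setup μ s b U f 𝒜 r) {W : ℕ} (ht : Term μ U f 𝒜 r W) {y : V}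
    (hy : y ∈ BB U f 𝒜) (hPQ : IsP μ U f 𝒜 W y ∨ IsQ μ U f 𝒜 W y) :
    (Tn μ U f 𝒜 W y).card = ee μ y (Fm μ U f 𝒜 W) := by
  obtain ⟨h1, _, _⟩ := PQ_struct h ht.mem ht.ne ht.no hy hPQ
  unfold ee
  rw [card_eq_sum_ones]
  unfold Tn
  rw [sum_filter]
  apply sum_congr rfl
  intro w hw
  split_ifs with h0
  · have := (h1 w (mem_filter.2 ⟨hw, h0⟩)).1
    omega
  · omega

/-- first counting inequality -/
theorem NC (h : Setup μ s b U f 𝒜 r) {W : ℕ} (ht : Term μ U f 𝒜 r W) {y : V}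
    (hy : y ∈ BB U f 𝒜) (hP : IsP μ U f 𝒜 W y) :
    2 * (b : ℤ) * (Fm μ U f 𝒜 W).card + 18 + EE μ U f 𝒜 y ≤ 2 * GG μ U f 𝒜 W := by
  obtain ⟨hT, _, m, hmN, hmac, hmu, hmd⟩ := PQ_struct h ht.mem ht.ne ht.no hy (Or.inl hP)
  have hcT := card_Tn h ht hy (Or.inl hP)
  rw [hP.2] at hcT
  rw [hP.1] at hmu
  have hmu0 : μ y m = 0 := by omega
  have hsw := swap_bound h ht.mem ht.ne ht.no hmN hy hmac
  set N := Nm μ U f 𝒜 W with hN
  set F := Fm μ U f 𝒜 W with hF
  set B := BB U f 𝒜 with hB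
  have h1 : ∀ y' ∈ B, (6 : ℤ) ≤ 3 * ee μ y' N + 2 * ee μ y' F := by
    intro y' hy'
    rcases types h ht hy' with ⟨h1, h2, _⟩ | ⟨h1, h2⟩
    · rw [← hN] at h1; rw [← hF] at h2; omega
    · rw [← hN, ← hF] at h2; omega
  have h2 : (6 : ℤ) * B.card ≤ 3 * ∑ z ∈ N, (ee μ z B : ℤ) + 2 * ∑ w ∈ F, (ee μ w B : ℤ) := by
    have e1 : ∑ z ∈ N, (ee μ z B : ℤ) = ∑ y' ∈ B, (ee μ y' N : ℤ) := by
      exact_mod_cast (dc h.mg N B).symm
    have e2 : ∑ w ∈ F, (ee μ w B : ℤ) = ∑ y' ∈ B, (ee μ y' F : ℤ) := by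
      exact_mod_cast (dc h.mg F B).symm
    rw [e1, e2, mul_sum, mul_sum, ← sum_add_distrib]
    have := card_nsmul_le_sum B _ 6 h1
    rw [nsmul_eq_mul] at this
    linarith
  have h3 : ∀ z ∈ N, 3 * (ee μ z B : ℤ) ≤ 6 * b + 2 * Dl μ U f 𝒜 W z -
      if z = m then 6 + (EE μ U f 𝒜 y : ℤ) else 0 := by
    intro z hz
    have hb := ee_B_bound' h ht.mem (Nm_sub hz)
    have hn := Dl_nonpos h hz
    rw [← hB] at hb
    split_ifs with hzm
    · subst hzm
      omega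
    · omega
  have h4 : ∀ w ∈ F, 2 * (ee μ w B : ℤ) ≤ 4 * b + 2 * Dl μ U f 𝒜 W w -
      if w ∈ Tn μ U f 𝒜 W y then 2 else 0 := by
    intro w hw
    have hb := ee_B_bound' h ht.mem (Fm_sub hw)
    rw [← hB] at hb
    split_ifs with hwT
    · have := (hT w hwT).2
      omega
    · omega
  have h5 := sum_le_sum h3
  have h6 := sum_le_sum h4
  rw [← mul_sum, sum_sub_distrib, sum_add_distrib, ← mul_sum, sum_const, nsmul_eq_mul,
    sum_ite_eq' N m, if_pos hmN] at h5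
  rw [← mul_sum, sum_sub_distrib, sum_add_distrib, ← mul_sum, sum_const, nsmul_eq_mul,
    sum_ite_mem, sum_const, nsmul_eq_mul] at h6
  have h7 : F ∩ Tn μ U f 𝒜 W y = Tn μ U f 𝒜 W y := inter_eq_right.2 Tn_sub
  rw [h7, hcT] at h6
  have h8 : ∑ w ∈ N, Dl μ U f 𝒜 W w + ∑ w ∈ F, Dl μ U f 𝒜 W w = GG μ U f 𝒜 W := by
    rw [← sum_Dl, ← sum_split]
  have h9 : (N.card : ℤ) + F.card = s := by
    have := card_split (μ := μ) (U := U) (f := f) (𝒜 := 𝒜) W
    rw [h.card_cl W ht.mem ht.ne] at this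
    exact_mod_cast this
  have h10 : (B.card : ℤ) = b * s + 1 := by
    have := h.card_B
    exact_mod_cast this
  rw [h10] at h2
  push_cast at h5 h6
  have e5 : ∑ x ∈ N, 2 * Dl μ U f 𝒜 W x = 2 * ∑ x ∈ N, Dl μ U f 𝒜 W x := (mul_sum _ _ _).symm
  have e6 : ∑ x ∈ F, 2 * Dl μ U f 𝒜 W x = 2 * ∑ x ∈ F, Dl μ U f 𝒜 W x := (mul_sum _ _ _).symm
  rw [e5] at h5
  rw [e6] at h6
  have h11 : (b : ℤ) * s = N.card * b + F.card * b := by rw [← h9]; ring
  linarith

/-- second counting inequality -/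
theorem PC (h : Setup μ s b U f 𝒜 r) {W : ℕ} (ht : Term μ U f 𝒜 r W)
    [DecidablePred (IsP μ U f 𝒜 W)] {y : V}
    (hy : y ∈ BB U f 𝒜) (hP : IsP μ U f 𝒜 W y) :
    7 + 2 * (b : ℤ) * (Fm μ U f 𝒜 W).card ≤
      ((BB U f 𝒜).filter (fun y' => IsP μ U f 𝒜 W y')).card + GG μ U f 𝒜 W := by
  obtain ⟨hT, _, _⟩ := PQ_struct h ht.mem ht.ne ht.no hy (Or.inl hP)
  have hcT := card_Tn h ht hy (Or.inl hP)
  rw [hP.2] at hcT
  set N := Nm μ U f 𝒜 W with hN
  set F := Fm μ U f 𝒜 W with hF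
  set B := BB U f 𝒜 with hB
  have h1 : ∀ y' ∈ B, (4 : ℤ) ≤ 2 * ee μ y' N + ee μ y' F +
      if IsP μ U f 𝒜 W y' then 1 else 0 := by
    intro y' hy'
    rcases types h ht hy' with ⟨h1, h2, _⟩ | ⟨h1, h2⟩
    · rw [← hN] at h1; rw [← hF] at h2; split_ifs <;> omega
    · rw [← hN, ← hF] at h2
      split_ifs with hP'
      · have := hP'.1
        have h3 := hP'.2
        rw [← hN] at this; rw [← hF] at h3
        omega
      · by_cases hN0 : ee μ y' N = 0
        · have : ¬ ee μ y' F = 3 := fun h3 => hP' ⟨hN0, h3⟩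
          omega
        · omega
  have h2 : (4 : ℤ) * B.card ≤ 2 * ∑ z ∈ N, (ee μ z B : ℤ) + ∑ w ∈ F, (ee μ w B : ℤ) +
      (B.filter (fun y' => IsP μ U f 𝒜 W y')).card := by
    have e1 : ∑ z ∈ N, (ee μ z B : ℤ) = ∑ y' ∈ B, (ee μ y' N : ℤ) := by
      exact_mod_cast (dc h.mg N B).symm
    have e2 : ∑ w ∈ F, (ee μ w B : ℤ) = ∑ y' ∈ B, (ee μ y' F : ℤ) := by
      exact_mod_cast (dc h.mg F B).symm
    have e3 : ((B.filter (fun y' => IsP μ U f 𝒜 W y')).card : ℤ) =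
        ∑ y' ∈ B, if IsP μ U f 𝒜 W y' then (1 : ℤ) else 0 := by
      rw [← sum_filter, sum_const, nsmul_eq_mul, mul_one]
    rw [e1, e2, e3, mul_sum, ← sum_add_distrib, ← sum_add_distrib]
    have := card_nsmul_le_sum B _ 4 h1
    rw [nsmul_eq_mul] at this
    linarith
  have h3 : ∀ z ∈ N, 2 * (ee μ z B : ℤ) ≤ 4 * b + Dl μ U f 𝒜 W z := by
    intro z hz
    have hb := ee_B_bound' h ht.mem (Nm_sub hz)
    have hn := Dl_nonpos h hz
    rw [← hB] at hb
    omega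
  have h4 : ∀ w ∈ F, (ee μ w B : ℤ) ≤ 2 * b + Dl μ U f 𝒜 W w -
      if w ∈ Tn μ U f 𝒜 W y then 1 else 0 := by
    intro w hw
    have hb := ee_B_bound' h ht.mem (Fm_sub hw)
    rw [← hB] at hb
    split_ifs with hwT
    · have := (hT w hwT).2
      omega
    · omega
  have h5 := sum_le_sum h3
  have h6 := sum_le_sum h4
  rw [← mul_sum, sum_add_distrib, sum_const, nsmul_eq_mul] at h5
  rw [sum_sub_distrib, sum_add_distrib, sum_const, nsmul_eq_mul,
    sum_ite_mem, sum_const, nsmul_eq_mul] at h6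
  have h7 : F ∩ Tn μ U f 𝒜 W y = Tn μ U f 𝒜 W y := inter_eq_right.2 Tn_sub
  rw [h7, hcT] at h6
  have h8 : ∑ w ∈ N, Dl μ U f 𝒜 W w + ∑ w ∈ F, Dl μ U f 𝒜 W w = GG μ U f 𝒜 W := by
    rw [← sum_Dl, ← sum_split]
  have h9 : (N.card : ℤ) + F.card = s := by
    have := card_split (μ := μ) (U := U) (f := f) (𝒜 := 𝒜) W
    rw [h.card_cl W ht.mem ht.ne] at this
    exact_mod_cast this
  have h10 : (B.card : ℤ) = b * s + 1 := by
    have := h.card_B
    exact_mod_cast this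
  rw [h10] at h2
  push_cast at h5 h6
  nlinarith [h9]

/-- a movable neighbour which makes the exchange `E2` possible -/
def Rich (μ : V → V → ℕ) (U : Finset V) (f : V → ℕ) (𝒜 J S : Finset ℕ) (W : ℕ) (y i : V) :
    Prop :=
  i ∈ Tn μ U f 𝒜 W y ∧ 2 ≤ (tg μ U f 𝒜 i).card ∧
    ∃ X ∈ tg μ U f 𝒜 i, (X ∈ J ∨ (S.card = 2 ∧ X ∈ S)) ∧ ep μ U f y X ≤ 1

theorem GG_le_poor (h : Setup μ s b U f 𝒜 r) (hR : Region (arc μ U f) 𝒜 r J S)
    (hc : Case μ b U f 𝒜 r J S) {W : ℕ} (hW : W ∈ J) {y : V} (hy : y ∈ BB U f 𝒜)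
    (hP : IsP μ U f 𝒜 W y) (hp : Pays μ U f J S W y)
    (hφ : (Fm μ U f 𝒜 W).card ≤ 4) (hno : ∀ i, ¬ Rich μ U f 𝒜 J S W y i) :
    GG μ U f 𝒜 W ≤ 2 * (∑ c ∈ 𝒜.erase W, ep μ U f y c : ℕ) + 3 +
      2 * (2 - S.card) * (Fm μ U f 𝒜 W).card := by
  have ht := hR.isTerm hW
  have hcT := card_Tn h ht hy (Or.inl hP)
  rw [hP.2] at hcT
  set φ := (Fm μ U f 𝒜 W).card with hφd
  set Ex : Finset ℕ := (Tn μ U f 𝒜 W y).biUnion
    (fun i => if (tg μ U f 𝒜 i).card = 1 then tg μ U f 𝒜 i else ∅) with hEx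
  have hExc : Ex.card ≤ 3 := by
    have h1 : Ex.card ≤ (Tn μ U f 𝒜 W y).card * 1 := by
      apply card_biUnion_le_card_mul
      intro i _
      split_ifs with h1
      · omega
      · simp
    omega
  have key : ∀ X ∈ 𝒜.erase W, gg μ U f W X ≤ 2 * (ep μ U f y X : ℤ) +
      (if X ∈ Ex then 1 else 0) + if X ∈ S ∧ S.card = 1 then 2 * (φ : ℤ) else 0 := by
    intro X hX
    rw [mem_erase] at hX
    have hi0 : (0 : ℤ) ≤ if X ∈ Ex then 1 else 0 := by split_ifs <;> norm_num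
    by_cases hXS : X ∈ S ∧ S.card = 1
    · rw [if_pos hXS]
      have h1 := gg_le_targets h (W := W) hX.2 hX.1
      have h2 : ((Fm μ U f 𝒜 W).filter (fun w => X ∈ tg μ U f 𝒜 w)).card ≤ φ :=
        card_filter_le _ _
      have h3 : (((Fm μ U f 𝒜 W).filter (fun w => X ∈ tg μ U f 𝒜 w)).card : ℤ) ≤ φ := by
        exact_mod_cast h2
      have h4 : (0 : ℤ) ≤ ep μ U f y X := by positivity
      linarith
    · rw [if_neg hXS]
      by_cases hpos : 0 < gg μ U f W X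
      · have hJS : X ∈ J ∨ (S.card = 2 ∧ X ∈ S) := by
          by_contra hcon
          push Not at hcon
          have : ¬ arc μ U f W X := by
            intro ha
            rcases hR.out W hW X hX.2 ha with hh | hh
            · exact hcon.1 hh
            · rcases hc with ⟨h1, _⟩ | ⟨h2, _⟩
              · exact hXS ⟨hh, h1⟩
              · exact hcon.2 h2 hh
          have := gg_nonpos_of_not_out h hX.2 hX.1 this
          omega
        obtain ⟨h1, h2⟩ := hp X hJS hX.1 hpos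
        by_cases hep : 2 ≤ ep μ U f y X
        · omega
        · have hep1 : ep μ U f y X = 1 := by omega
          by_cases hXE : X ∈ Ex
          · rw [if_pos hXE]; omega
          · rw [if_neg hXE]
            have h5 := gg_le_targets h (W := W) hX.2 hX.1
            have h6 : ((Fm μ U f 𝒜 W).filter (fun w => X ∈ tg μ U f 𝒜 w)) ⊆
                (Fm μ U f 𝒜 W) \ Tn μ U f 𝒜 W y := by
              intro w hw
              rw [mem_filter] at hw
              rw [mem_sdiff]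
              refine ⟨hw.1, fun hwT => ?_⟩
              have hnr := hno w
              have hcard : ¬ 2 ≤ (tg μ U f 𝒜 w).card := by
                intro h2c
                exact hnr ⟨hwT, h2c, X, hw.2, hJS, by omega⟩
              have hpos' : 0 < (tg μ U f 𝒜 w).card := card_pos.2 ⟨X, hw.2⟩
              apply hXE
              rw [hEx, mem_biUnion]
              refine ⟨w, hwT, ?_⟩
              rw [if_pos (by omega)]
              exact hw.2
            have h7 := card_le_card h6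
            rw [card_sdiff_of_subset Tn_sub, hcT] at h7
            have h8 : ((Fm μ U f 𝒜 W).filter (fun w => X ∈ tg μ U f 𝒜 w)).card ≤ 1 := by omega
            omega
      · have h4 : (0 : ℤ) ≤ ep μ U f y X := by positivity
        omega
  unfold GG
  refine (sum_le_sum key).trans ?_
  rw [sum_add_distrib, sum_add_distrib, ← mul_sum]
  have h5 : ∑ X ∈ 𝒜.erase W, (if X ∈ S ∧ S.card = 1 then 2 * (φ : ℤ) else 0) ≤
      2 * (2 - S.card) * φ := by
    rw [← sum_filter, sum_const, nsmul_eq_mul]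
    have h6 : ((𝒜.erase W).filter (fun X => X ∈ S ∧ S.card = 1)).card ≤ 2 - S.card := by
      rcases hc with ⟨h1, _⟩ | ⟨h2, _⟩
      · have : (𝒜.erase W).filter (fun X => X ∈ S ∧ S.card = 1) ⊆ S := by
          intro X hX
          exact (mem_filter.1 hX).2.1
        have := card_le_card this
        omega
      · rw [filter_eq_empty_iff.2]
        · simp
        · intro X _ hX
          omega
    have h7 : (((𝒜.erase W).filter (fun X => X ∈ S ∧ S.card = 1)).card : ℤ) ≤ 2 - S.card := by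
      have : S.card ≤ 2 := by rcases hc with ⟨h1, _⟩ | ⟨h2, _⟩ <;> omega
      omega
    have h8 : (0 : ℤ) ≤ φ := by positivity
    nlinarith
  have h9 : ∑ X ∈ 𝒜.erase W, (if X ∈ Ex then (1 : ℤ) else 0) ≤ 3 := by
    rw [← sum_filter, sum_const, nsmul_eq_mul, mul_one]
    have : ((𝒜.erase W).filter (fun X => X ∈ Ex)).card ≤ Ex.card := by
      apply card_le_card
      intro X hX
      exact (mem_filter.1 hX).2
    have : ((𝒜.erase W).filter (fun X => X ∈ Ex)).card ≤ 3 := by omega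
    exact_mod_cast this
  push_cast
  linarith

theorem card_S (hc : Case μ b U f 𝒜 r J S) : S.card = 1 ∨ S.card = 2 := by
  rcases hc with ⟨h1, _⟩ | ⟨h2, _⟩
  · exact Or.inl h1
  · exact Or.inr h2

/-- a heavy vertex of type `P` forces `|F| ≤ 4` -/
theorem phi_le (h : Setup μ s b U f 𝒜 r) (hR : Region (arc μ U f) 𝒜 r J S)
    (hc : Case μ b U f 𝒜 r J S) {W : ℕ} (hW : W ∈ J) {y : V} (hy : y ∈ BB U f 𝒜)
    (hP : IsP μ U f 𝒜 W y) (hp : Pays μ U f J S W y) :
    (Fm μ U f 𝒜 W).card ≤ 4 := by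
  have ht := hR.isTerm hW
  have hb2 := Case.b_ge hR hc
  have hNC := NC h ht hy hP
  have hG := GG_le h hR hc hW hp
  have hE := EE_erase (μ := μ) (U := U) (f := f) ht.mem y
  have hep := ep_of_PQ (Or.inl hP)
  have hEb := EE_bound h hy
  rw [hep] at hE
  set E' := ∑ c ∈ 𝒜.erase W, ep μ U f y c with hE'
  set φ := (Fm μ U f 𝒜 W).card with hφ
  by_contra hcon
  have h5 : 5 ≤ φ := by omega
  have hE'b : (E' : ℤ) ≤ 2 * b - 3 := by omega
  rw [hE] at hNC
  push_cast at hNC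
  have hS := card_S hc
  have hb2' : (2 : ℤ) ≤ b := by exact_mod_cast hb2
  have h5' : (5 : ℤ) ≤ φ := by exact_mod_cast h5
  rcases hS with hS | hS
  · rw [hS] at hG
    push_cast at hG
    nlinarith [mul_nonneg (sub_nonneg.2 hb2') (sub_nonneg.2 h5')]
  · rw [hS] at hG
    push_cast at hG
    nlinarith [mul_nonneg (sub_nonneg.2 hb2') (sub_nonneg.2 h5')]

theorem rich_exists (h : Setup μ s b U f 𝒜 r) (hR : Region (arc μ U f) 𝒜 r J S)
    (hc : Case μ b U f 𝒜 r J S) {W : ℕ} (hW : W ∈ J) {y : V} (hy : y ∈ BB U f 𝒜)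
    (hP : IsP μ U f 𝒜 W y) (hp : Pays μ U f J S W y) :
    ∃ i, Rich μ U f 𝒜 J S W y i := by
  by_contra hcon
  push Not at hcon
  have ht := hR.isTerm hW
  have hb2 := Case.b_ge hR hc
  have hNC := NC h ht hy hP
  have hφ4 := phi_le h hR hc hW hy hP hp
  have hG := GG_le_poor h hR hc hW hy hP hp hφ4 hcon
  have hE := EE_erase (μ := μ) (U := U) (f := f) ht.mem y
  have hep := ep_of_PQ (Or.inl hP)
  have hEb := EE_bound h hy
  have hcT := card_Tn h ht hy (Or.inl hP)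
  rw [hP.2] at hcT
  have hφ3 : 3 ≤ (Fm μ U f 𝒜 W).card := by
    have := card_le_card (Tn_sub (μ := μ) (U := U) (f := f) (𝒜 := 𝒜) (W := W) (y := y))
    omega
  rw [hep] at hE
  set E' := ∑ c ∈ 𝒜.erase W, ep μ U f y c with hE'
  set φ := (Fm μ U f 𝒜 W).card with hφ
  have hE'b : (E' : ℤ) ≤ 2 * b - 3 := by omega
  rw [hE] at hNC
  push_cast at hNC
  have hS := card_S hc
  have hb2' : (2 : ℤ) ≤ b := by exact_mod_cast hb2
  have h3' : (3 : ℤ) ≤ φ := by exact_mod_cast hφ3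
  rcases hS with hS | hS
  · rw [hS] at hG
    push_cast at hG
    nlinarith [mul_nonneg (sub_nonneg.2 hb2') (sub_nonneg.2 h3')]
  · rw [hS] at hG
    push_cast at hG
    nlinarith [mul_nonneg (sub_nonneg.2 hb2') (sub_nonneg.2 h3')]

/-- neighbours of a heavy `P` through a rich vertex -/
theorem adj_of_rich (h : Setup μ s b U f 𝒜 r) (hR : Region (arc μ U f) 𝒜 r J S)
    (hc : Case μ b U f 𝒜 r J S) {W : ℕ} (hW : W ∈ J) {y : V} (hy : y ∈ BB U f 𝒜)
    (hP : IsP μ U f 𝒜 W y) (hφ : (Fm μ U f 𝒜 W).card ≤ 4) {i : V}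
    (hi : Rich μ U f 𝒜 J S W y i) {y' : V} (hy' : y' ∈ BB U f 𝒜) (hP' : IsP μ U f 𝒜 W y')
    (hi' : i ∈ Tn μ U f 𝒜 W y') (hne : y ≠ y') : 0 < μ y y' := by
  by_contra hcon
  have hyy : μ y y' = 0 := by omega
  have ht := hR.isTerm hW
  obtain ⟨_, he, _⟩ := PQ_struct h ht.mem ht.ne ht.no hy (Or.inl hP)
  obtain ⟨_, he', _⟩ := PQ_struct h ht.mem ht.ne ht.no hy' (Or.inl hP')
  have hcT := card_Tn h ht hy (Or.inl hP)
  rw [hP.2] at hcT
  have hcT' := card_Tn h ht hy' (Or.inl hP')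
  rw [hP'.2] at hcT'
  obtain ⟨hiT, hi2, X, hXi, hXJS, hepX⟩ := hi
  -- a common element different from `i`
  obtain ⟨j, hjT, hjT', hji⟩ : ∃ j ∈ Tn μ U f 𝒜 W y, j ∈ Tn μ U f 𝒜 W y' ∧ j ≠ i := by
    by_contra hno
    push Not at hno
    have h1 : (Tn μ U f 𝒜 W y) ∩ (Tn μ U f 𝒜 W y') ⊆ {i} := by
      intro j hj
      rw [mem_inter] at hj
      exact mem_singleton.2 (hno j hj.1 hj.2)
    have h2 := card_le_card h1
    rw [card_singleton] at h2
    have h3 := card_union_add_card_inter (Tn μ U f 𝒜 W y) (Tn μ U f 𝒜 W y')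
    have h4 : ((Tn μ U f 𝒜 W y) ∪ (Tn μ U f 𝒜 W y')).card ≤ (Fm μ U f 𝒜 W).card :=
      card_le_card (union_subset Tn_sub Tn_sub)
    omega
  have hXi' := mem_tg.1 hXi
  have hfi : f i = W := (mem_cl.1 (Fm_sub (Tn_sub hiT))).2
  have hfj : f j = W := (mem_cl.1 (Fm_sub (Tn_sub hjT))).2
  have hXW : X ≠ W := by rw [← hfi]; exact hXi'.2.1
  have hXr : X ≠ r := by
    rcases hXJS with hX | ⟨hS2, hX⟩
    · exact (hR.isTerm hX).ne
    · rcases hc with ⟨h1, _⟩ | ⟨_, h2, _⟩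
      · omega
      · exact fun e => h2 (e ▸ hX)
  have hNoX : NoCl (arc μ U f) 𝒜 r {X} := by
    rcases hXJS with hX | ⟨hS2, hX⟩
    · exact (hR.isTerm hX).no
    · rcases hc with ⟨h1, _⟩ | ⟨_, _, h2, _⟩
      · omega
      · exact h2 X hX
  have hNo : NoCl (arc μ U f) 𝒜 r {W, X} := by
    rcases hXJS with hX | ⟨hS2, hX⟩
    · exact hR.term W hW X hX
    · rcases hc with ⟨h1, _⟩ | ⟨_, _, _, h2, _⟩
      · omega
      · exact h2 W hW X hX
  have hicl : i ∈ cl U f W := Fm_sub (Tn_sub hiT)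
  have hjcl : j ∈ cl U f W := Fm_sub (Tn_sub hjT)
  by_cases hjY : ∃ Y ∈ tg μ U f 𝒜 j, Y ≠ X
  · obtain ⟨Y, hY, hYX⟩ := hjY
    have hY' := mem_tg.1 hY
    exact E2 h ht.mem ht.ne hXi'.1 hXr hXW hNoX hNo hy hy' hne hyy hicl hjcl (Ne.symm hji)
      (he i hiT j hjT (Ne.symm hji)) (he' i hi' j hjT' (Ne.symm hji)) hXi'.2.2
      ⟨Y, hY'.1, by rw [← hfj]; exact hY'.2.1, hYX, hY'.2.2⟩ hepX
  · push Not at hjY
    have hjne : (tg μ U f 𝒜 j).Nonempty := by
      rw [nonempty_iff_ne_empty]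
      exact (mem_filter.1 (Tn_sub hjT)).2
    obtain ⟨Z, hZ⟩ := hjne
    have hZX := hjY Z hZ
    subst hZX
    have hZ' := mem_tg.1 hZ
    obtain ⟨Y, hY, hYX⟩ : ∃ Y ∈ tg μ U f 𝒜 i, Y ≠ Z := by
      by_contra hno
      push Not at hno
      have : tg μ U f 𝒜 i ⊆ {Z} := fun Y hY => mem_singleton.2 (hno Y hY)
      have := card_le_card this
      rw [card_singleton] at this
      omega
    have hY' := mem_tg.1 hY
    exact E2 h ht.mem ht.ne hXi'.1 hXr hXW hNoX hNo hy hy' hne hyy hjcl hicl hji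
      (he j hjT i hiT hji) (he' j hjT' i hi' hji) hZ'.2.2
      ⟨Y, hY'.1, by rw [← hfi]; exact hY'.2.1, hYX, hY'.2.2⟩ hepX

open Classical in
/-- the number of `P`s through a suitable movable vertex is small -/
theorem rich_bound (h : Setup μ s b U f 𝒜 r) (hR : Region (arc μ U f) 𝒜 r J S)
    (hc : Case μ b U f 𝒜 r J S) {W : ℕ} (hW : W ∈ J) {y : V} (hy : y ∈ BB U f 𝒜)
    (hP : IsP μ U f 𝒜 W y) (hp : Pays μ U f J S W y) :
    ∃ i ∈ Tn μ U f 𝒜 W y,
      ((BB U f 𝒜).filter (fun y' => IsP μ U f 𝒜 W y' ∧ i ∈ Tn μ U f 𝒜 W y')).card ≤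
        1 + ee μ y (BB U f 𝒜) := by
  have hφ := phi_le h hR hc hW hy hP hp
  obtain ⟨i, hi⟩ := rich_exists h hR hc hW hy hP hp
  refine ⟨i, hi.1, ?_⟩
  have h1 : (BB U f 𝒜).filter (fun y' => IsP μ U f 𝒜 W y' ∧ i ∈ Tn μ U f 𝒜 W y') ⊆
      insert y ((BB U f 𝒜).filter (fun y' => 0 < μ y y')) := by
    intro y' hy'
    rw [mem_filter] at hy'
    by_cases he : y' = y
    · rw [he]; exact mem_insert_self _ _
    · apply mem_insert_of_mem
      rw [mem_filter]
      exact ⟨hy'.1, adj_of_rich h hR hc hW hy hP hφ hi hy'.1 hy'.2.1 hy'.2.2 (Ne.symm he)⟩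
  have h2 := card_le_card h1
  have h3 := card_insert_le y ((BB U f 𝒜).filter (fun y' => 0 < μ y y'))
  have h4 : ((BB U f 𝒜).filter (fun y' => 0 < μ y y')).card ≤ ee μ y (BB U f 𝒜) := by
    unfold ee
    rw [card_eq_sum_ones, sum_filter]
    apply sum_le_sum
    intro y' _
    split_ifs <;> omega
  omega

/-- there is no heavy vertex of type `P` -/
theorem no_heavy_P (h : Setup μ s b U f 𝒜 r) (hR : Region (arc μ U f) 𝒜 r J S)
    (hc : Case μ b U f 𝒜 r J S) {W : ℕ} (hW : W ∈ J)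
    (hpay : ∀ y ∈ BB U f 𝒜, Heavy μ U f 𝒜 J W y → Pays μ U f J S W y) :
    ∀ y ∈ BB U f 𝒜, Heavy μ U f 𝒜 J W y → ¬ IsP μ U f 𝒜 W y := by
  classical
  intro y0 hy0 hH0 hP0
  have hne : ((BB U f 𝒜).filter (fun y => Heavy μ U f 𝒜 J W y ∧ IsP μ U f 𝒜 W y)).Nonempty :=
    ⟨y0, mem_filter.2 ⟨hy0, hH0, hP0⟩⟩
  obtain ⟨y, hyf, hmax⟩ := exists_max_image _ (fun y => ee μ y (BB U f 𝒜)) hne
  rw [mem_filter] at hyf
  obtain ⟨hy, hH, hP⟩ := hyf
  have ht := hR.isTerm hW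
  have hb2 := Case.b_ge hR hc
  have hp := hpay y hy hH
  have hφ4 := phi_le h hR hc hW hy hP hp
  have hcT := card_Tn h ht hy (Or.inl hP)
  rw [hP.2] at hcT
  have hφ3 : 3 ≤ (Fm μ U f 𝒜 W).card := by
    have := card_le_card (Tn_sub (μ := μ) (U := U) (f := f) (𝒜 := 𝒜) (W := W) (y := y))
    omega
  obtain ⟨i, hiT, hi⟩ := rich_bound h hR hc hW hy hP hp
  have hPC := PC h ht hy hP
  have hG := GG_le h hR hc hW hp
  have hE := EE_erase (μ := μ) (U := U) (f := f) ht.mem y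
  have hep := ep_of_PQ (Or.inl hP)
  have hEb := EE_bound h hy
  rw [hep] at hE
  -- split
  have hsplit : ((BB U f 𝒜).filter (fun y' => IsP μ U f 𝒜 W y')).card =
      ((BB U f 𝒜).filter (fun y' => IsP μ U f 𝒜 W y' ∧ i ∈ Tn μ U f 𝒜 W y')).card +
      ((BB U f 𝒜).filter (fun y' => IsP μ U f 𝒜 W y' ∧ ¬ i ∈ Tn μ U f 𝒜 W y')).card := by
    rw [← filter_filter, ← filter_filter]
    exact (card_filter_add_card_filter_not _).symm
  -- the second part
  have hsec : (((BB U f 𝒜).filter (fun y' => IsP μ U f 𝒜 W y' ∧ ¬ i ∈ Tn μ U f 𝒜 W y')).card ≤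
        max (1 + ee μ y (BB U f 𝒜)) (2 * b - 1 + 2 * S.card)) ∧
      ((Fm μ U f 𝒜 W).card = 3 →
        ((BB U f 𝒜).filter (fun y' => IsP μ U f 𝒜 W y' ∧ ¬ i ∈ Tn μ U f 𝒜 W y')).card = 0) := by
    have hTeq : ∀ y' ∈ BB U f 𝒜, IsP μ U f 𝒜 W y' → ¬ i ∈ Tn μ U f 𝒜 W y' →
        Tn μ U f 𝒜 W y' = (Fm μ U f 𝒜 W).erase i ∧ (Fm μ U f 𝒜 W).card = 4 := by
      intro y' hy' hP' hi'
      have hcT' := card_Tn h ht hy' (Or.inl hP')
      rw [hP'.2] at hcT'
      have hsub : Tn μ U f 𝒜 W y' ⊆ (Fm μ U f 𝒜 W).erase i := by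
        intro w hw
        rw [mem_erase]
        exact ⟨fun e => hi' (e ▸ hw), Tn_sub hw⟩
      have hce : ((Fm μ U f 𝒜 W).erase i).card = (Fm μ U f 𝒜 W).card - 1 :=
        card_erase_of_mem (Tn_sub hiT)
      have hle := card_le_card hsub
      refine ⟨eq_of_subset_of_card_le hsub (by omega), by omega⟩
    constructor
    · by_cases hex : ∃ y2 ∈ BB U f 𝒜, IsP μ U f 𝒜 W y2 ∧ ¬ i ∈ Tn μ U f 𝒜 W y2
      · obtain ⟨y2, hy2, hP2, hi2⟩ := hex
        by_cases hH2 : ∃ y2 ∈ BB U f 𝒜, IsP μ U f 𝒜 W y2 ∧ ¬ i ∈ Tn μ U f 𝒜 W y2 ∧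
            Heavy μ U f 𝒜 J W y2
        · obtain ⟨y3, hy3, hP3, hi3, hH3⟩ := hH2
          obtain ⟨i3, hi3T, hi3b⟩ := rich_bound h hR hc hW hy3 hP3 (hpay y3 hy3 hH3)
          have hsub : (BB U f 𝒜).filter
              (fun y' => IsP μ U f 𝒜 W y' ∧ ¬ i ∈ Tn μ U f 𝒜 W y') ⊆
              (BB U f 𝒜).filter (fun y' => IsP μ U f 𝒜 W y' ∧ i3 ∈ Tn μ U f 𝒜 W y') := by
            intro y' hy'
            rw [mem_filter] at hy' ⊢
            refine ⟨hy'.1, hy'.2.1, ?_⟩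
            rw [(hTeq y' hy'.1 hy'.2.1 hy'.2.2).1]
            rw [(hTeq y3 hy3 hP3 hi3).1] at hi3T
            exact hi3T
          have h1 := card_le_card hsub
          have h2 := hmax y3 (mem_filter.2 ⟨hy3, hH3, hP3⟩)
          have h3 : ee μ y3 (BB U f 𝒜) ≤ ee μ y (BB U f 𝒜) := h2
          apply le_max_of_le_left
          omega
        · push Not at hH2
          have hnH := hH2 y2 hy2 hP2 hi2
          have hcT2 := card_Tn h ht hy2 (Or.inl hP2)
          rw [hP2.2] at hcT2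
          obtain ⟨w, hw⟩ : (Tn μ U f 𝒜 W y2).Nonempty := card_pos.1 (by omega)
          obtain ⟨hst, _, _⟩ := PQ_struct h ht.mem ht.ne ht.no hy2 (Or.inl hP2)
          have hwcl : w ∈ cl U f W := Fm_sub (Tn_sub hw)
          -- the number of targets of `w`
          have htgw : (tg μ U f 𝒜 w).card ≤ S.card := by
            have hsubTS : tg μ U f 𝒜 w ⊆ TS μ U f 𝒜 W y2 := by
              intro c hc'
              exact mem_biUnion.2 ⟨w, hw, hc'⟩
            by_cases h2 : 2 ≤ (TS μ U f 𝒜 W y2).card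
            · have hempty : ¬ (TS μ U f 𝒜 W y2 ∩ J).Nonempty :=
                fun hh => hnH ⟨Or.inl hP2, h2, hh⟩
              have hTS : TS μ U f 𝒜 W y2 ⊆ S := by
                intro c hc'
                obtain ⟨w', hw', hcw'⟩ := mem_biUnion.1 hc'
                have := TS_sub hR hW (Fm_sub (Tn_sub hw')) hcw'
                rw [mem_erase, mem_union] at this
                rcases this.2 with hJ | hS
                · exact absurd ⟨c, mem_inter.2 ⟨hc', hJ⟩⟩ hempty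
                · exact hS
              exact (card_le_card hsubTS).trans (card_le_card hTS)
            · have := card_le_card hsubTS
              have := card_S hc
              omega
          have hDl := Dl_le h hwcl
          have hbd := ee_B_bound' h ht.mem hwcl
          have hdeg := (hst w hw).2
          have hbw : ee μ w (BB U f 𝒜) ≤ 2 * b - 1 + 2 * S.card := by omega
          have hsub : (BB U f 𝒜).filter
              (fun y' => IsP μ U f 𝒜 W y' ∧ ¬ i ∈ Tn μ U f 𝒜 W y') ⊆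
              (BB U f 𝒜).filter (fun y' => 0 < μ w y') := by
            intro y' hy'
            rw [mem_filter] at hy' ⊢
            refine ⟨hy'.1, ?_⟩
            have h1 := (hTeq y' hy'.1 hy'.2.1 hy'.2.2).1
            have h2 := (hTeq y2 hy2 hP2 hi2).1
            rw [h2, ← h1] at hw
            rw [h.mg.symm]
            exact (mem_filter.1 hw).2
          have h4 : ((BB U f 𝒜).filter (fun y' => 0 < μ w y')).card ≤ ee μ w (BB U f 𝒜) := by
            unfold ee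
            rw [card_eq_sum_ones, sum_filter]
            apply sum_le_sum
            intro y' _
            split_ifs <;> omega
          apply le_max_of_le_right
          exact (card_le_card hsub).trans (h4.trans hbw)
      · rw [filter_eq_empty_iff.2]
        · simp
        · intro y' hy' hcon
          exact hex ⟨y', hy', hcon.1, hcon.2⟩
    · intro h3
      rw [card_eq_zero, filter_eq_empty_iff]
      intro y' hy' hcon
      have := (hTeq y' hy' hcon.1 hcon.2).2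
      omega
  have hS := card_S hc
  set E' := ∑ c ∈ 𝒜.erase W, ep μ U f y c with hE'
  set φ := (Fm μ U f 𝒜 W).card with hφ
  set e := ee μ y (BB U f 𝒜) with he
  set P1 := ((BB U f 𝒜).filter (fun y' => IsP μ U f 𝒜 W y' ∧ i ∈ Tn μ U f 𝒜 W y')).card
  set P2 := ((BB U f 𝒜).filter (fun y' => IsP μ U f 𝒜 W y' ∧ ¬ i ∈ Tn μ U f 𝒜 W y')).card
  rw [hsplit] at hPC
  have hE'b : E' + e + 3 ≤ 2 * b := by omega
  have hφ34 : φ = 3 ∨ φ = 4 := by omega
  obtain ⟨hsec1, hsec2⟩ := hsec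
  rcases hS with hS | hS <;> rw [hS] at hG hsec1 <;> rcases hφ34 with hφe | hφe <;>
    rw [hφe] at hG hPC hsec2 <;> push_cast at hG hPC
  · have := hsec2 rfl
    omega
  · omega
  · have := hsec2 rfl
    omega
  · omega

end Pool.Agent.H25.EA
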