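import Mathlib

/-!
# Equitable acyclic colourings of standard multigraphs: definitions

`μ` is the multiplicity function of a multigraph. All arguments are about finsets of vertices of
one fixed type `V` and natural numbers as colours.
-/

set_option autoImplicit false

namespace Pool.Agent.H25.EA

open Finset

variable {V : Type*} [DecidableEq V]

/-- a loopless multigraph with multiplicities at most two -/
structure MG (μ : V → V → ℕ) : Prop where
  symm : ∀ u v, μ u v = μ v u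
  diag : ∀ v, μ v v = 0
  le_two : ∀ u v, μ u v ≤ 2

/-- the number of edges between the vertex `v` and the set `S` -/
def ee (μ : V → V → ℕ) (v : V) (S : Finset V) : ℕ := ∑ u ∈ S, μ v u

/-- `S` spans neither a cycle nor a double edge: every nonempty part of `S` has a vertex which
sends at most one edge to that part -/
def Ac (μ : V → V → ℕ) (S : Finset V) : Prop :=
  ∀ T ⊆ S, T.Nonempty → ∃ v ∈ T, ee μ v T ≤ 1

/-- the class of colour `c` in `U` -/
def cl (U : Finset V) (f : V → ℕ) (c : ℕ) : Finset V := U.filter (fun v => f v = c)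

/-- `U` has a colouring with colour set `C`, all classes acyclic and of size `s` -/
def EC (μ : V → V → ℕ) (s : ℕ) (U : Finset V) (C : Finset ℕ) : Prop :=
  ∃ f : V → ℕ, (∀ v ∈ U, f v ∈ C) ∧ ∀ c ∈ C, (cl U f c).card = s ∧ Ac μ (cl U f c)

/-- the vertex `v` can be moved to class `c` -/
def mov (μ : V → V → ℕ) (U : Finset V) (f : V → ℕ) (v : V) (c : ℕ) : Prop :=
  Ac μ (insert v (cl U f c))

/-- some vertex of class `c` can be moved to class `d` -/
def arc (μ : V → V → ℕ) (U : Finset V) (f : V → ℕ) (c d : ℕ) : Prop :=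
  c ≠ d ∧ ∃ v ∈ cl U f c, mov μ U f v d

/-- the vertices whose colour is in `𝒜` -/
def AA (U : Finset V) (f : V → ℕ) (𝒜 : Finset ℕ) : Finset V := U.filter (fun v => f v ∈ 𝒜)

/-- the vertices whose colour is not in `𝒜` -/
def BB (U : Finset V) (f : V → ℕ) (𝒜 : Finset ℕ) : Finset V := U.filter (fun v => f v ∉ 𝒜)

/-- every nonempty set of classes avoiding `r` and `S` has an arc which leaves it and does not end
in `S` (that is, every class outside `S` has a path to `r` avoiding `S`) -/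
def NoCl (ar : ℕ → ℕ → Prop) (𝒜 : Finset ℕ) (r : ℕ) (S : Finset ℕ) : Prop :=
  ∀ K ⊆ 𝒜, Disjoint K S → r ∉ K → K.Nonempty → ∃ x ∈ K, ∃ y ∈ 𝒜, y ∉ K ∧ y ∉ S ∧ ar x y

/-- The situation after the extremal choice of a nearly equitable colouring. `𝒜` is the set of the
classes which reach the small class `r`. -/
structure Setup (μ : V → V → ℕ) (s b : ℕ) (U : Finset V) (f : V → ℕ) (𝒜 : Finset ℕ) (r : ℕ) :
    Prop where
  mg : MG μ
  deg : ∀ v ∈ U, ee μ v U + 2 ≤ 2 * (𝒜.card + b)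
  r_mem : r ∈ 𝒜
  card_r : (cl U f r).card + 1 = s
  card_cl : ∀ c ∈ 𝒜, c ≠ r → (cl U f c).card = s
  ac : ∀ c ∈ 𝒜, Ac μ (cl U f c)
  card_B : (BB U f 𝒜).card = b * s + 1
  /-- no vertex of `B` can be moved to a class of `𝒜` -/
  blocked : ∀ y ∈ BB U f 𝒜, ∀ c ∈ 𝒜, ¬ mov μ U f y c
  /-- every class of `𝒜` reaches `r` -/
  reach : NoCl (arc μ U f) 𝒜 r ∅
  /-- no set `A'` of the right size whose complement has small degrees is colourable -/
  noEC : ∀ A' ⊆ U, A'.card = 𝒜.card * s →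
    (∀ v ∈ U \ A', ee μ v (U \ A') + 2 ≤ 2 * b) → ¬ EC μ s A' 𝒜
  /-- the swap rule: `W` is a terminal class, `z ∈ W` cannot be moved, and `z` may be exchanged
  with `y ∈ B` -/
  swap : ∀ W ∈ 𝒜, W ≠ r → NoCl (arc μ U f) 𝒜 r {W} →
    ∀ z ∈ cl U f W, (∀ c ∈ 𝒜, c ≠ W → ¬ mov μ U f z c) →
    ∀ y ∈ BB U f 𝒜, Ac μ (insert y ((cl U f W).erase z)) →
      (∀ v ∈ insert z ((BB U f 𝒜).erase y),
        ee μ v (insert z ((BB U f 𝒜).erase y)) + 2 ≤ 2 * b) ∧
      ee μ y (AA U f 𝒜) ≤ ee μ z (AA U f 𝒜) + μ y z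

/-- a region of classes for the final counting -/
structure Region (ar : ℕ → ℕ → Prop) (𝒜 : Finset ℕ) (r : ℕ) (J S : Finset ℕ) : Prop where
  sub : J ⊆ 𝒜
  Ssub : S ⊆ 𝒜
  disj : Disjoint J S
  nonempty : J.Nonempty
  r_notMem : r ∉ J
  out : ∀ W ∈ J, ∀ Y ∈ 𝒜, ar W Y → Y ∈ J ∨ Y ∈ S
  min : ∀ K ⊆ J, K.Nonempty → (∀ W ∈ K, ∀ Y ∈ J, ar W Y → Y ∈ K) → K = J
  term : ∀ W ∈ J, ∀ Z ∈ J, NoCl ar 𝒜 r {W, Z}

/-! ### targets, movable vertices, types -/

section X
variable (μ : V → V → ℕ) (U : Finset V) (f : V → ℕ) (𝒜 : Finset ℕ)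

open Classical in
/-- the classes to which `v` can be moved -/
noncomputable def tg (v : V) : Finset ℕ := 𝒜.filter (fun c => c ≠ f v ∧ mov μ U f v c)

/-- the movable vertices of class `W` -/
noncomputable def Fm (W : ℕ) : Finset V := (cl U f W).filter (fun v => tg μ U f 𝒜 v ≠ ∅)

/-- the vertices of class `W` which cannot be moved -/
noncomputable def Nm (W : ℕ) : Finset V := (cl U f W).filter (fun v => tg μ U f 𝒜 v = ∅)

/-- the excess of `y` at the class `c` -/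
def ep (y : V) (c : ℕ) : ℕ := ee μ y (cl U f c) - 2

/-- the total excess of `y` -/
def EE (y : V) : ℕ := ∑ c ∈ 𝒜, ep μ U f y c

def IsP (W : ℕ) (y : V) : Prop := ee μ y (Nm μ U f 𝒜 W) = 0 ∧ ee μ y (Fm μ U f 𝒜 W) = 3

def IsQ (W : ℕ) (y : V) : Prop := ee μ y (Nm μ U f 𝒜 W) = 1 ∧ ee μ y (Fm μ U f 𝒜 W) = 2

/-- the movable neighbours of `y` in `W` -/
noncomputable def Tn (W : ℕ) (y : V) : Finset V := (Fm μ U f 𝒜 W).filter (fun w => 0 < μ y w)

/-- the targets of the movable neighbours of `y` in `W` -/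
noncomputable def TS (W : ℕ) (y : V) : Finset ℕ := (Tn μ U f 𝒜 W y).biUnion (tg μ U f 𝒜)

def Heavy (J : Finset ℕ) (W : ℕ) (y : V) : Prop :=
  (IsP μ U f 𝒜 W y ∨ IsQ μ U f 𝒜 W y) ∧ 2 ≤ (TS μ U f 𝒜 W y).card ∧
    (TS μ U f 𝒜 W y ∩ J).Nonempty

/-- the gain between the classes `W` and `X` -/
def gg (W X : ℕ) : ℤ := ∑ w ∈ cl U f W, (2 - (ee μ w (cl U f X) : ℤ))

end X

/-- The two cases of the choice lemma. -/
def Case (μ : V → V → ℕ) (b : ℕ) (U : Finset V) (f : V → ℕ) (𝒜 : Finset ℕ) (r : ℕ)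
    (J S : Finset ℕ) : Prop :=
  (S.card = 1 ∧ J.card + 2 ≤ 2 * b) ∨
    (S.card = 2 ∧ r ∉ S ∧ (∀ Z ∈ S, NoCl (arc μ U f) 𝒜 r {Z}) ∧
      (∀ W ∈ J, ∀ Z ∈ S, NoCl (arc μ U f) 𝒜 r {W, Z}) ∧ J.card + 4 ≤ 2 * b)


end Pool.Agent.H25.EA
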