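import Pool.Agent.H25.EA.Defs

/-!
# Module X, common part: the exchange lemma
-/

set_option autoImplicit false
set_option linter.unusedSectionVars false

namespace Pool.Agent.H18.EAx

open Finset Pool.Agent.H25.EA

variable {V : Type*} [DecidableEq V]

theorem x_ee_mono {μ : V → V → ℕ} {v : V} {S T : Finset V} (hST : S ⊆ T) :
    ee μ v S ≤ ee μ v T :=
  Finset.sum_le_sum_of_subset hST

theorem x_Ac_mono {μ : V → V → ℕ} {S T : Finset V} (h : Ac μ T) (hST : S ⊆ T) : Ac μ S :=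
  fun R hR hne => h R (hR.trans hST) hne

theorem x_Ac_insert {μ : V → V → ℕ} {S : Finset V} {v : V} (hμ : MG μ) (h : Ac μ S)
    (hv : ee μ v S ≤ 1) : Ac μ (insert v S) := by
  intro R hR hne
  by_cases hvR : v ∈ R
  · refine ⟨v, hvR, ?_⟩
    have h1 : ee μ v R ≤ ee μ v (insert v S) := x_ee_mono hR
    by_cases hvS : v ∈ S
    · rw [Finset.insert_eq_of_mem hvS] at h1; omega
    · have : ee μ v (insert v S) = ee μ v S := by
        unfold ee
        rw [Finset.sum_insert hvS, hμ.diag, zero_add]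
      omega
  · apply h R _ hne
    intro x hx
    rcases Finset.mem_insert.1 (hR hx) with rfl | h'
    · exact absurd hx hvR
    · exact h'

theorem x_two_le_of_not_ac {μ : V → V → ℕ} {S : Finset V} {v : V} (hμ : MG μ) (h : Ac μ S)
    (hv : ¬ Ac μ (insert v S)) : 2 ≤ ee μ v S := by
  by_contra hc
  exact hv (x_Ac_insert hμ h (by omega))

theorem x_ee_insert {μ : V → V → ℕ} {S : Finset V} {v w : V} (hw : w ∉ S) :
    ee μ v (insert w S) = μ v w + ee μ v S := by
  unfold ee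
  rw [Finset.sum_insert hw]

theorem x_ee_erase {μ : V → V → ℕ} {S : Finset V} {v w : V} (hw : w ∈ S) :
    μ v w + ee μ v (S.erase w) = ee μ v S := by
  unfold ee
  rw [Finset.add_sum_erase S (fun u => μ v u) hw]

/-- A colouring from a cover by small acyclic sets. -/
theorem EC_of_cover {μ : V → V → ℕ} {s : ℕ} {U' : Finset V} {C : Finset ℕ} (N : ℕ → Finset V)
    (h1 : ∀ c ∈ C, (N c).card ≤ s) (h2 : ∀ c ∈ C, Ac μ (N c))
    (h3 : ∀ v ∈ U', ∃ c ∈ C, v ∈ N c) (h4 : U'.card = C.card * s) : EC μ s U' C := by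
  classical
  let f : V → ℕ := fun v => if h : v ∈ U' then (h3 v h).choose else 0
  have hf : ∀ v (h : v ∈ U'), f v ∈ C ∧ v ∈ N (f v) := by
    intro v h
    have : f v = (h3 v h).choose := by simp [f, h]
    rw [this]
    exact (h3 v h).choose_spec
  have hsub : ∀ c, cl U' f c ⊆ N c := by
    intro c v hv
    obtain ⟨hv1, hv2⟩ := Finset.mem_filter.1 hv
    have := (hf v hv1).2
    rwa [hv2] at this
  have hle : ∀ c ∈ C, (cl U' f c).card ≤ s := fun c hc =>
    (Finset.card_le_card (hsub c)).trans (h1 c hc)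
  have hsum : ∑ c ∈ C, (cl U' f c).card = ∑ c ∈ C, s := by
    rw [Finset.sum_const, smul_eq_mul, ← h4]
    exact (Finset.card_eq_sum_card_fiberwise (fun v hv => (hf v hv).1)).symm
  have heq := (Finset.sum_eq_sum_iff_of_le hle).1 hsum
  exact ⟨f, fun v hv => (hf v hv).1, fun c hc => ⟨heq c hc, x_Ac_mono (h2 c hc) (hsub c)⟩⟩

section Ex
variable {μ : V → V → ℕ} {U : Finset V} {f : V → ℕ}

open Classical in
/-- the possible sources of a vertex for the class `c` -/
noncomputable def src (μ : V → V → ℕ) (U : Finset V) (f : V → ℕ) (I : Finset ℕ) (P : Finset V)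
    (c : ℕ) : Finset (V ⊕ ℕ) :=
  (P.filter (fun p => mov μ U f p c)).map Function.Embedding.inl ∪
    (I.filter (fun u => u = c ∨ arc μ U f u c)).map Function.Embedding.inr

theorem inl_mem_src {I : Finset ℕ} {P : Finset V} {c : ℕ} {p : V} :
    (Sum.inl p : V ⊕ ℕ) ∈ src μ U f I P c ↔ p ∈ P ∧ mov μ U f p c := by
  classical
  simp [src]

theorem inr_mem_src {I : Finset ℕ} {P : Finset V} {c u : ℕ} :
    (Sum.inr u : V ⊕ ℕ) ∈ src μ U f I P c ↔ u ∈ I ∧ (u = c ∨ arc μ U f u c) := by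
  classical
  simp [src]

/-- The exchange lemma: `I` is the set of inner classes, the classes of `E` receive one more
vertex, and `P` is the set of the vertices which have to be placed. -/
theorem exchange {I E : Finset ℕ} {P : Finset V} (hd : Disjoint I E) (hcard : P.card = E.card)
    (hac : ∀ c ∈ I ∪ E, Ac μ (cl U f c))
    (hall : ∀ T ⊆ I ∪ E, T.card ≤ (T.biUnion (src μ U f I P)).card) :
    ∃ N : ℕ → Finset V, (∀ c ∈ I, (N c).card ≤ (cl U f c).card) ∧
      (∀ c ∈ E, cl U f c ⊆ N c ∧ (N c).card ≤ (cl U f c).card + 1) ∧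
      (∀ c ∈ I ∪ E, Ac μ (N c)) ∧
      ∀ v, (v ∈ P ∨ ∃ c ∈ I, v ∈ cl U f c) → ∃ c ∈ I ∪ E, v ∈ N c := by
  classical
  rcases isEmpty_or_nonempty V with hV | hV
  · refine ⟨fun _ => ∅, fun c _ => by simp, fun c _ => ⟨?_, by simp⟩, fun c _ => ?_,
      fun v => hV.elim v⟩
    · intro v; exact hV.elim v
    · intro T _ hne
      obtain ⟨v, _⟩ := hne
      exact hV.elim v
  rcases Finset.eq_empty_or_nonempty (I ∪ E) with hIE | hIE
  · obtain ⟨hI0, hE0⟩ := Finset.union_eq_empty.1 hIE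
    subst hI0 hE0
    have hP : P = ∅ := by
      rw [← Finset.card_eq_zero, hcard]; rfl
    subst hP
    refine ⟨fun _ => ∅, by simp, by simp, by simp, ?_⟩
    rintro v (hv | ⟨c, hc, _⟩)
    · simp at hv
    · simp at hc
  have hne0 : Nonempty {c // c ∈ I ∪ E} := ⟨⟨_, hIE.choose_spec⟩⟩
  have hall' : ∀ T : Finset {c // c ∈ I ∪ E},
      T.card ≤ (T.biUnion (fun c => src μ U f I P c.1)).card := by
    intro T
    have h1 := hall (T.map (Function.Embedding.subtype _)) (by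
      intro c hc
      obtain ⟨x, _, rfl⟩ := Finset.mem_map.1 hc
      exact x.2)
    rw [Finset.card_map] at h1
    refine h1.trans (le_of_eq ?_)
    congr 1
    ext x
    simp only [Finset.mem_biUnion, Finset.mem_map, Function.Embedding.coe_subtype]
    constructor
    · rintro ⟨c, ⟨a, ha, rfl⟩, hx⟩
      exact ⟨a, ha, hx⟩
    · rintro ⟨a, ha, hx⟩
      exact ⟨a.1, ⟨a, ha, rfl⟩, hx⟩
  obtain ⟨g, hg, hgm⟩ := (Finset.all_card_le_biUnion_card_iff_exists_injective
    (fun c : {c // c ∈ I ∪ E} => src μ U f I P c.1)).1 hall'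
  -- g is onto P + I
  let tot : Finset (V ⊕ ℕ) := P.map Function.Embedding.inl ∪ I.map Function.Embedding.inr
  have htot : tot.card = P.card + I.card := by
    rw [Finset.card_union_of_disjoint, Finset.card_map, Finset.card_map]
    rw [Finset.disjoint_left]
    intro x hx hx'
    obtain ⟨p, _, rfl⟩ := Finset.mem_map.1 hx
    obtain ⟨u, _, hu⟩ := Finset.mem_map.1 hx'
    cases hu
  have hgt : ∀ c, g c ∈ tot := by
    intro c
    have h := hgm c
    cases hc : g c with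
    | inl p =>
      rw [hc, inl_mem_src] at h
      exact Finset.mem_union_left _ (Finset.mem_map.2 ⟨p, h.1, rfl⟩)
    | inr u =>
      rw [hc, inr_mem_src] at h
      exact Finset.mem_union_right _ (Finset.mem_map.2 ⟨u, h.1, rfl⟩)
  have himg : Finset.univ.image g = tot := by
    apply Finset.eq_of_subset_of_card_le
    · intro x hx
      obtain ⟨c, _, rfl⟩ := Finset.mem_image.1 hx
      exact hgt c
    · rw [Finset.card_image_of_injective _ hg, htot, Finset.card_univ, Fintype.card_coe,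
        Finset.card_union_of_disjoint hd]
      omega
  have honto : ∀ x ∈ tot, ∃ c, g c = x := by
    intro x hx
    rw [← himg] at hx
    obtain ⟨c, _, hc⟩ := Finset.mem_image.1 hx
    exact ⟨c, hc⟩
  -- the incoming vertex
  have hin : ∀ c : {c // c ∈ I ∪ E}, g c ≠ Sum.inr c.1 → ∃ v : V, mov μ U f v c.1 ∧
      (∀ p, g c = Sum.inl p → v = p) ∧ (∀ u, g c = Sum.inr u → v ∈ cl U f u) := by
    intro c hc
    have h := hgm c
    cases hgc : g c with
    | inl p =>
      rw [hgc, inl_mem_src] at h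
      refine ⟨p, h.2, fun p' hp' => ?_, fun u hu => ?_⟩
      · cases hp'; rfl
      · cases hu
    | inr u =>
      rw [hgc, inr_mem_src] at h
      have hne : u ≠ c.1 := by
        intro h'
        apply hc
        rw [hgc, h']
      rcases h.2 with h' | h'
      · exact absurd h' hne
      · obtain ⟨_, v, hv, hm⟩ := h'
        refine ⟨v, hm, fun p' hp' => ?_, fun u' hu' => ?_⟩
        · cases hp'
        · cases hu'; exact hv
  choose! ρ hρ1 hρ2 hρ3 using hin
  -- inverse on I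
  have hinv : ∀ u : ℕ, u ∈ I → ∃ c : {c // c ∈ I ∪ E}, g c = Sum.inr u := fun u hu =>
    honto _ (Finset.mem_union_right _ (Finset.mem_map.2 ⟨u, hu, rfl⟩))
  choose! κ hκ using hinv
  let N : ℕ → Finset V := fun c =>
    if hc : c ∈ I ∪ E then
      if g ⟨c, hc⟩ = Sum.inr c then cl U f c
      else insert (ρ ⟨c, hc⟩) (if c ∈ I then (cl U f c).erase (ρ (κ c)) else cl U f c)
    else ∅
  have hN1 : ∀ (c : ℕ) (hc : c ∈ I ∪ E), g ⟨c, hc⟩ = Sum.inr c → N c = cl U f c := by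
    intro c hc h
    simp only [N, dif_pos hc, if_pos h]
  have hN2 : ∀ (c : ℕ) (hc : c ∈ I ∪ E), g ⟨c, hc⟩ ≠ Sum.inr c → c ∈ I →
      N c = insert (ρ ⟨c, hc⟩) ((cl U f c).erase (ρ (κ c))) := by
    intro c hc h hI
    simp only [N, dif_pos hc, if_neg h, if_pos hI]
  have hN3 : ∀ (c : ℕ) (hc : c ∈ I ∪ E), g ⟨c, hc⟩ ≠ Sum.inr c → c ∉ I →
      N c = insert (ρ ⟨c, hc⟩) (cl U f c) := by
    intro c hc h hI
    simp only [N, dif_pos hc, if_neg h, if_neg hI]
  have hκ' : ∀ (c : ℕ) (hc : c ∈ I ∪ E), g ⟨c, hc⟩ ≠ Sum.inr c → c ∈ I →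
      g (κ c) ≠ Sum.inr (κ c).1 ∧ ρ (κ c) ∈ cl U f c := by
    intro c hc h hI
    have h1 := hκ c hI
    have h2 : g (κ c) ≠ Sum.inr (κ c).1 := by
      intro h'
      rw [h1] at h'
      have h3 : c = (κ c).1 := by simpa using h'
      apply h
      have : (⟨c, hc⟩ : {c // c ∈ I ∪ E}) = κ c := Subtype.ext h3
      rw [this, h1]
    exact ⟨h2, hρ3 _ h2 c h1⟩
  refine ⟨N, ?_, ?_, ?_, ?_⟩
  · intro c hI
    have hc : c ∈ I ∪ E := Finset.mem_union_left _ hI
    by_cases h : g ⟨c, hc⟩ = Sum.inr c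
    · rw [hN1 c hc h]
    · rw [hN2 c hc h hI]
      have h1 := (hκ' c hc h hI).2
      have h2 := Finset.card_erase_of_mem h1
      have h3 := Finset.card_insert_le (ρ ⟨c, hc⟩) ((cl U f c).erase (ρ (κ c)))
      have h4 : 0 < (cl U f c).card := Finset.card_pos.2 ⟨_, h1⟩
      omega
  · intro c hE
    have hc : c ∈ I ∪ E := Finset.mem_union_right _ hE
    have hI : c ∉ I := fun h => (Finset.disjoint_left.1 hd h) hE
    by_cases h : g ⟨c, hc⟩ = Sum.inr c
    · rw [hN1 c hc h]; exact ⟨subset_rfl, by omega⟩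
    · rw [hN3 c hc h hI]
      exact ⟨Finset.subset_insert _ _, Finset.card_insert_le _ _⟩
  · intro c hc
    by_cases h : g ⟨c, hc⟩ = Sum.inr c
    · rw [hN1 c hc h]; exact hac c hc
    · by_cases hI : c ∈ I
      · rw [hN2 c hc h hI]
        exact x_Ac_mono (hρ1 _ h) (Finset.insert_subset_insert _ (Finset.erase_subset _ _))
      · rw [hN3 c hc h hI]
        exact hρ1 _ h
  · have hself : ∀ c : {c // c ∈ I ∪ E}, g c ≠ Sum.inr c.1 → ρ c ∈ N c.1 := by
      intro c h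
      by_cases hI : c.1 ∈ I
      · rw [hN2 c.1 c.2 h hI]; exact Finset.mem_insert_self _ _
      · rw [hN3 c.1 c.2 h hI]; exact Finset.mem_insert_self _ _
    rintro v (hv | ⟨c, hI, hv⟩)
    · obtain ⟨c, hc⟩ := honto (Sum.inl v) (Finset.mem_union_left _ (Finset.mem_map.2 ⟨v, hv, rfl⟩))
      have hne : g c ≠ Sum.inr c.1 := by rw [hc]; exact Sum.inl_ne_inr
      have := hρ2 c hne v hc
      exact ⟨c.1, c.2, this ▸ hself c hne⟩
    · have hc : c ∈ I ∪ E := Finset.mem_union_left _ hI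
      by_cases h : g ⟨c, hc⟩ = Sum.inr c
      · exact ⟨c, hc, by rw [hN1 c hc h]; exact hv⟩
      · obtain ⟨h1, h2⟩ := hκ' c hc h hI
        by_cases hvρ : v = ρ (κ c)
        · exact ⟨(κ c).1, (κ c).2, hvρ ▸ hself _ h1⟩
        · refine ⟨c, hc, ?_⟩
          rw [hN2 c hc h hI]
          exact Finset.mem_insert_of_mem (Finset.mem_erase.2 ⟨hvρ, hv⟩)

end Ex

section S
variable {μ : V → V → ℕ} {s b : ℕ} {U : Finset V} {f : V → ℕ} {𝒜 : Finset ℕ} {r : ℕ}

theorem mem_cl {c : ℕ} {v : V} : v ∈ cl U f c ↔ v ∈ U ∧ f v = c := Finset.mem_filter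

theorem mem_AA {v : V} : v ∈ AA U f 𝒜 ↔ v ∈ U ∧ f v ∈ 𝒜 := Finset.mem_filter

theorem mem_BB {v : V} : v ∈ BB U f 𝒜 ↔ v ∈ U ∧ f v ∉ 𝒜 := Finset.mem_filter

theorem sum_AA (φ : V → ℕ) : ∑ v ∈ AA U f 𝒜, φ v = ∑ c ∈ 𝒜, ∑ v ∈ cl U f c, φ v := by
  rw [← Finset.sum_fiberwise_of_maps_to (s := AA U f 𝒜) (t := 𝒜) (g := f)
    (fun v hv => (mem_AA.1 hv).2)]
  apply Finset.sum_congr rfl
  intro c hc
  apply Finset.sum_congr _ (fun _ _ => rfl)
  ext v
  simp only [Finset.mem_filter, mem_AA, mem_cl]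
  constructor
  · rintro ⟨⟨h1, _⟩, h3⟩; exact ⟨h1, h3⟩
  · rintro ⟨h1, h2⟩; exact ⟨⟨h1, by rw [h2]; exact hc⟩, h2⟩

theorem ee_AA (v : V) : ee μ v (AA U f 𝒜) = ∑ c ∈ 𝒜, ee μ v (cl U f c) := sum_AA _

theorem ee_AA_add_BB (v : V) : ee μ v (AA U f 𝒜) + ee μ v (BB U f 𝒜) = ee μ v U :=
  Finset.sum_filter_add_sum_filter_not U (fun v => f v ∈ 𝒜) _

theorem card_AA (h : Setup μ s b U f 𝒜 r) : (AA U f 𝒜).card + 1 = 𝒜.card * s := by
  have h1 : (AA U f 𝒜).card = ∑ c ∈ 𝒜, (cl U f c).card := by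
    have := sum_AA (U := U) (f := f) (𝒜 := 𝒜) (fun _ => 1)
    simpa using this
  have h2 : ∑ c ∈ 𝒜, (cl U f c).card = (cl U f r).card + ∑ c ∈ 𝒜.erase r, (cl U f c).card :=
    (Finset.add_sum_erase 𝒜 (fun c => (cl U f c).card) h.r_mem).symm
  have h3 : ∑ c ∈ 𝒜.erase r, (cl U f c).card = ∑ _c ∈ 𝒜.erase r, s :=
    Finset.sum_congr rfl (fun c hc => h.card_cl c (Finset.mem_of_mem_erase hc)
      (Finset.ne_of_mem_erase hc))
  rw [Finset.sum_const, smul_eq_mul] at h3
  have h4 : (𝒜.erase r).card + 1 = 𝒜.card := Finset.card_erase_add_one h.r_mem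
  have h5 := h.card_r
  rw [h1, h2, h3, ← h4]
  ring_nf
  omega

theorem s_pos (h : Setup μ s b U f 𝒜 r) : 0 < s := by have := h.card_r; omega

theorem x_ee_cl_ge_two (h : Setup μ s b U f 𝒜 r) {y : V} (hy : y ∈ BB U f 𝒜) {c : ℕ}
    (hc : c ∈ 𝒜) : 2 ≤ ee μ y (cl U f c) :=
  x_two_le_of_not_ac h.mg (h.ac c hc) (h.blocked y hy c hc)

theorem x_ee_BB_le (h : Setup μ s b U f 𝒜 r) {y : V} (hy : y ∈ BB U f 𝒜) :
    ee μ y (BB U f 𝒜) + 2 ≤ 2 * b := by
  have h1 := h.deg y (mem_BB.1 hy).1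
  have h2 := ee_AA_add_BB (μ := μ) (U := U) (f := f) (𝒜 := 𝒜) y
  have h3 : 𝒜.card * 2 ≤ ee μ y (AA U f 𝒜) := by
    rw [ee_AA]
    have := Finset.card_nsmul_le_sum 𝒜 (fun c => ee μ y (cl U f c)) 2
      (fun c hc => x_ee_cl_ge_two h hy hc)
    simpa using this
  omega

theorem notMem_cl_of_BB {y : V} (hy : y ∈ BB U f 𝒜) {c : ℕ} (hc : c ∈ 𝒜) : y ∉ cl U f c := by
  intro h
  apply (mem_BB.1 hy).2
  rw [(mem_cl.1 h).2]
  exact hc

/-- the vertex `q` can be placed outside the classes of `S`, with a shift to `r` -/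
theorem path_exchange (h : Setup μ s b U f 𝒜 r) {S : Finset ℕ} (hrS : r ∉ S)
    (hNo : NoCl (arc μ U f) 𝒜 r S) {q : V} (hq : ∃ Y ∈ 𝒜, Y ∉ S ∧ mov μ U f q Y) :
    ∃ N : ℕ → Finset V, (∀ c ∈ 𝒜, c ∉ S → (N c).card ≤ s ∧ Ac μ (N c)) ∧
      ∀ v, (v = q ∨ ∃ c ∈ 𝒜, c ∉ S ∧ v ∈ cl U f c) → ∃ c ∈ 𝒜, c ∉ S ∧ v ∈ N c := by
  classical
  obtain ⟨Y, hY, hYS, hqY⟩ := hq
  set I : Finset ℕ := (𝒜 \ S).erase r with hI
  have hIE : ∀ c, c ∈ I ∪ {r} ↔ c ∈ 𝒜 ∧ c ∉ S := by
    intro c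
    simp only [hI, Finset.mem_union, Finset.mem_erase, Finset.mem_sdiff, Finset.mem_singleton]
    constructor
    · rintro (⟨_, h1⟩ | rfl)
      · exact h1
      · exact ⟨h.r_mem, hrS⟩
    · intro h1
      by_cases hcr : c = r
      · exact Or.inr hcr
      · exact Or.inl ⟨hcr, h1⟩
  have hmI : ∀ c, c ∈ I ↔ c ≠ r ∧ c ∈ 𝒜 ∧ c ∉ S := by
    intro c
    simp only [hI, Finset.mem_erase, Finset.mem_sdiff]
  have hd : Disjoint I {r} := by
    rw [Finset.disjoint_singleton_right]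
    intro hr
    exact ((hmI r).1 hr).1 rfl
  have hall : ∀ T ⊆ I ∪ {r}, T.card ≤ (T.biUnion (src μ U f I {q})).card := by
    intro T hT
    -- T ∩ I is contained in the neighbourhood
    have hsub : (T ∩ I).map Function.Embedding.inr ⊆ T.biUnion (src μ U f I {q}) := by
      intro x hx
      obtain ⟨u, hu, rfl⟩ := Finset.mem_map.1 hx
      obtain ⟨huT, huI⟩ := Finset.mem_inter.1 hu
      exact Finset.mem_biUnion.2 ⟨u, huT, inr_mem_src.2 ⟨huI, Or.inl rfl⟩⟩
    by_cases hrT : r ∈ T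
    · -- one more element
      have hTc : T.card ≤ (T ∩ I).card + 1 := by
        have : T ⊆ insert r (T ∩ I) := by
          intro c hc
          by_cases hcr : c = r
          · exact hcr ▸ Finset.mem_insert_self _ _
          · refine Finset.mem_insert_of_mem (Finset.mem_inter.2 ⟨hc, ?_⟩)
            rcases Finset.mem_union.1 (hT hc) with h' | h'
            · exact h'
            · exact absurd (Finset.mem_singleton.1 h') hcr
        exact (Finset.card_le_card this).trans (Finset.card_insert_le _ _)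
      suffices hex : ∃ x ∈ T.biUnion (src μ U f I {q}), x ∉ (T ∩ I).map
          (Function.Embedding.inr : ℕ ↪ V ⊕ ℕ) by
        obtain ⟨x, hx, hx'⟩ := hex
        have h1 : insert x ((T ∩ I).map Function.Embedding.inr) ⊆
            T.biUnion (src μ U f I {q}) := Finset.insert_subset hx hsub
        have h2 := Finset.card_le_card h1
        rw [Finset.card_insert_of_notMem hx', Finset.card_map] at h2
        omega
      by_cases hYT : Y ∈ T
      · refine ⟨Sum.inl q, Finset.mem_biUnion.2 ⟨Y, hYT, inl_mem_src.2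
          ⟨Finset.mem_singleton_self _, hqY⟩⟩, ?_⟩
        intro hx
        obtain ⟨u, _, hu⟩ := Finset.mem_map.1 hx
        cases hu
      · set L : Finset ℕ := I \ T with hL
        have hYr : Y ≠ r := fun h' => hYT (h' ▸ hrT)
        have hYL : Y ∈ L := Finset.mem_sdiff.2 ⟨(hmI Y).2 ⟨hYr, hY, hYS⟩, hYT⟩
        obtain ⟨x, hx, y, hy, hyL, hyS, har⟩ := hNo L
          (fun c hc => ((hmI c).1 (Finset.mem_sdiff.1 hc).1).2.1)
          (by
            rw [Finset.disjoint_left]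
            intro c hc hcS
            exact ((hmI c).1 (Finset.mem_sdiff.1 hc).1).2.2 hcS)
          (fun hr => ((hmI r).1 (Finset.mem_sdiff.1 hr).1).1 rfl)
          ⟨Y, hYL⟩
        have hyT : y ∈ T := by
          by_contra hyT
          apply hyL
          have hyr : y ≠ r := fun h' => hyT (h' ▸ hrT)
          exact Finset.mem_sdiff.2 ⟨(hmI y).2 ⟨hyr, hy, hyS⟩, hyT⟩
        obtain ⟨hxI, hxT⟩ := Finset.mem_sdiff.1 hx
        refine ⟨Sum.inr x, Finset.mem_biUnion.2 ⟨y, hyT, inr_mem_src.2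
          ⟨hxI, Or.inr har⟩⟩, ?_⟩
        intro hx'
        obtain ⟨u, hu, hux⟩ := Finset.mem_map.1 hx'
        have hux' : u = x := by simpa using hux
        exact hxT (hux' ▸ (Finset.mem_inter.1 hu).1)
    · have hTI : T ⊆ T ∩ I := by
        intro c hc
        refine Finset.mem_inter.2 ⟨hc, ?_⟩
        rcases Finset.mem_union.1 (hT hc) with h' | h'
        · exact h'
        · exact absurd ((Finset.mem_singleton.1 h') ▸ hc) hrT
      have h2 := Finset.card_le_card hsub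
      rw [Finset.card_map] at h2
      exact (Finset.card_le_card hTI).trans h2
  obtain ⟨N, hN1, hN2, hN3, hN4⟩ := exchange (μ := μ) (U := U) (f := f) hd
    (P := {q}) (by simp) (fun c hc => h.ac c ((hIE c).1 hc).1) hall
  refine ⟨N, ?_, ?_⟩
  · intro c hc hcS
    refine ⟨?_, hN3 c ((hIE c).2 ⟨hc, hcS⟩)⟩
    by_cases hcr : c = r
    · subst hcr
      have h1 := (hN2 c (Finset.mem_singleton_self _)).2
      have h2 := h.card_r
      omega
    · have h1 := hN1 c ((hmI c).2 ⟨hcr, hc, hcS⟩)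
      rw [h.card_cl c hc hcr] at h1
      exact h1
  · rintro v (rfl | ⟨c, hc, hcS, hv⟩)
    · obtain ⟨c, hc, hv⟩ := hN4 v (Or.inl (Finset.mem_singleton_self _))
      exact ⟨c, ((hIE c).1 hc).1, ((hIE c).1 hc).2, hv⟩
    · by_cases hcr : c = r
      · subst hcr
        exact ⟨c, hc, hcS, (hN2 c (Finset.mem_singleton_self _)).1 hv⟩
      · obtain ⟨c', hc', hv'⟩ := hN4 v (Or.inr ⟨c, (hmI c).2 ⟨hcr, hc, hcS⟩, hv⟩)
        exact ⟨c', ((hIE c').1 hc').1, ((hIE c').1 hc').2, hv'⟩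

end S

end Pool.Agent.H18.EAx
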