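import Pool.Agent.H25.EA.AcBasic
import Pool.Agent.H25.EA.Exch

/-!
# Equitable acyclic colourings: basic inequalities (module B)
-/

set_option autoImplicit false
set_option linter.unusedSectionVars false

namespace Pool.Agent.H25.EA

open Finset

variable {V : Type*} [DecidableEq V]

section B
variable {μ : V → V → ℕ} {s b : ℕ} {U : Finset V} {f : V → ℕ} {𝒜 : Finset ℕ} {r : ℕ}
  {J S : Finset ℕ}

theorem memCl_B {v : V} {c : ℕ} : v ∈ cl U f c ↔ v ∈ U ∧ f v = c := by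
  simp [cl]

theorem eeAA_B (v : V) : ee μ v (AA U f 𝒜) = ∑ c ∈ 𝒜, ee μ v (cl U f c) := by
  unfold ee
  rw [← Finset.sum_fiberwise_of_maps_to (s := AA U f 𝒜) (t := 𝒜) (g := f)
    (fun x hx => by simpa [AA] using (Finset.mem_filter.1 hx).2)]
  refine Finset.sum_congr rfl fun c hc => ?_
  refine Finset.sum_congr ?_ fun _ _ => rfl
  ext u
  simp only [AA, cl, Finset.mem_filter]
  constructor
  · rintro ⟨⟨h1, _⟩, h3⟩; exact ⟨h1, h3⟩
  · rintro ⟨h1, h3⟩; exact ⟨⟨h1, h3 ▸ hc⟩, h3⟩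

theorem eeAAaddBB_B (v : V) : ee μ v (AA U f 𝒜) + ee μ v (BB U f 𝒜) = ee μ v U := by
  unfold ee AA BB
  exact Finset.sum_filter_add_sum_filter_not U (fun v => f v ∈ 𝒜) (fun u => μ v u)

theorem eeNmAddFm_B (v : V) (W : ℕ) :
    ee μ v (Nm μ U f 𝒜 W) + ee μ v (Fm μ U f 𝒜 W) = ee μ v (cl U f W) := by
  classical
  unfold ee Nm Fm
  exact Finset.sum_filter_add_sum_filter_not (cl U f W) (fun v => tg μ U f 𝒜 v = ∅)
    (fun u => μ v u)

theorem memNmOrFm_B {W : ℕ} {z : V} (hz : z ∈ cl U f W) :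
    z ∈ Nm μ U f 𝒜 W ∨ z ∈ Fm μ U f 𝒜 W := by
  classical
  by_cases h : tg μ U f 𝒜 z = ∅
  · exact Or.inl (Finset.mem_filter.2 ⟨hz, h⟩)
  · exact Or.inr (Finset.mem_filter.2 ⟨hz, h⟩)

theorem ee_cl_ge_two (h : Setup μ s b U f 𝒜 r) {y : V} (hy : y ∈ BB U f 𝒜) {c : ℕ}
    (hc : c ∈ 𝒜) : 2 ≤ ee μ y (cl U f c) :=
  two_le_of_not_ac h.mg (h.ac c hc) (h.blocked y hy c hc)

theorem ep_add_two_B (h : Setup μ s b U f 𝒜 r) {y : V} (hy : y ∈ BB U f 𝒜) {c : ℕ}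
    (hc : c ∈ 𝒜) : ep μ U f y c + 2 = ee μ y (cl U f c) := by
  have := ee_cl_ge_two h hy hc
  unfold ep
  omega

theorem eeAA_of_mem_BB_B (h : Setup μ s b U f 𝒜 r) {y : V} (hy : y ∈ BB U f 𝒜) :
    ee μ y (AA U f 𝒜) = EE μ U f 𝒜 y + 2 * 𝒜.card := by
  rw [eeAA_B, EE, ← Finset.sum_congr rfl (fun c hc => ep_add_two_B h hy hc),
    Finset.sum_add_distrib, Finset.sum_const, smul_eq_mul, mul_comm]

/-- degree bound for `y ∈ B` -/
theorem EE_bound (h : Setup μ s b U f 𝒜 r) {y : V} (hy : y ∈ BB U f 𝒜) :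
    ee μ y (BB U f 𝒜) + EE μ U f 𝒜 y + 2 ≤ 2 * b := by
  have h1 := h.deg y (Finset.mem_filter.1 hy).1
  have h2 := eeAAaddBB_B (μ := μ) (U := U) (f := f) (𝒜 := 𝒜) y
  have h3 := eeAA_of_mem_BB_B h hy
  omega

/-- degree bound for `w ∈ A` -/
theorem ee_B_bound (h : Setup μ s b U f 𝒜 r) {W : ℕ} (hW : W ∈ 𝒜) {w : V}
    (hw : w ∈ cl U f W) : (ee μ w (BB U f 𝒜) : ℤ) ≤
      2 * b - ee μ w (cl U f W) + ∑ c ∈ 𝒜.erase W, (2 - (ee μ w (cl U f c) : ℤ)) := by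
  have h1 := h.deg w (memCl_B.1 hw).1
  have h2 := eeAAaddBB_B (μ := μ) (U := U) (f := f) (𝒜 := 𝒜) w
  have h3 := eeAA_B (μ := μ) (U := U) (f := f) (𝒜 := 𝒜) w
  have h4 := Finset.add_sum_erase 𝒜 (fun c => ee μ w (cl U f c)) hW
  have h5 := Finset.card_erase_add_one hW
  rw [Finset.sum_sub_distrib, Finset.sum_const, nsmul_eq_mul]
  have h6 : (∑ c ∈ 𝒜.erase W, (ee μ w (cl U f c) : ℤ)) =
      ((∑ c ∈ 𝒜.erase W, ee μ w (cl U f c) : ℕ) : ℤ) := by push_cast; rfl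
  rw [h6]
  omega

/-- a vertex sends two edges to every class which is not a target -/
theorem ee_ge_two_of_notMem_tg (h : Setup μ s b U f 𝒜 r) {w : V} {c : ℕ}
    (hc : c ∈ 𝒜) (hcw : c ≠ f w) (hn : c ∉ tg μ U f 𝒜 w) : 2 ≤ ee μ w (cl U f c) := by
  classical
  refine two_le_of_not_ac h.mg (h.ac c hc) fun hac => hn ?_
  exact Finset.mem_filter.2 ⟨hc, hcw, hac⟩

/-- `y` sends its edges to `Nm W` if its excess at the terminal class `W` is zero -/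
theorem ep_zero (h : Setup μ s b U f 𝒜 r) {W : ℕ} (hW : W ∈ 𝒜) (hWr : W ≠ r)
    (ht : NoCl (arc μ U f) 𝒜 r {W}) {y : V} (hy : y ∈ BB U f 𝒜) (h0 : ep μ U f y W = 0) :
    ee μ y (Nm μ U f 𝒜 W) = 2 ∧ ee μ y (Fm μ U f 𝒜 W) = 0 ∧
    ∀ z ∈ cl U f W, 0 < μ y z → z ∈ Nm μ U f 𝒜 W ∧ Ac μ (insert y ((cl U f W).erase z)) := by
  have h2 := ep_add_two_B h hy hW
  have key : ∀ z ∈ cl U f W, 0 < μ y z →
      z ∈ Nm μ U f 𝒜 W ∧ Ac μ (insert y ((cl U f W).erase z)) := by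
    intro z hz hpos
    have h3 : ee μ y ((cl U f W).erase z) + μ y z = ee μ y (cl U f W) :=
      Finset.sum_erase_add _ _ hz
    have hac : Ac μ (insert y ((cl U f W).erase z)) :=
      Ac.insert h.mg (Ac.mono (h.ac W hW) (Finset.erase_subset _ _)) (by omega)
    refine ⟨?_, hac⟩
    rcases memNmOrFm_B (μ := μ) (𝒜 := 𝒜) hz with hN | hF
    · exact hN
    · exact absurd hac (R1 h hW hWr ht hF hy)
  have h4 : ee μ y (Fm μ U f 𝒜 W) = 0 := by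
    refine Finset.sum_eq_zero fun z hz => ?_
    by_contra hne
    have hz' := Finset.mem_filter.1 hz
    have := (Finset.mem_filter.1 (key z hz'.1 (Nat.pos_of_ne_zero hne)).1).2
    exact hz'.2 this
  have h5 := eeNmAddFm_B (μ := μ) (U := U) (f := f) (𝒜 := 𝒜) y W
  exact ⟨by omega, h4, key⟩

/-- the bound from the potential -/
theorem swap_bound (h : Setup μ s b U f 𝒜 r) {W : ℕ} (hW : W ∈ 𝒜) (hWr : W ≠ r)
    (ht : NoCl (arc μ U f) 𝒜 r {W}) {z : V} (hz : z ∈ Nm μ U f 𝒜 W) {y : V}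
    (hy : y ∈ BB U f 𝒜) (hac : Ac μ (insert y ((cl U f W).erase z))) :
    ee μ z (BB U f 𝒜) + EE μ U f 𝒜 y + 2 ≤ 2 * b + μ y z := by
  classical
  obtain ⟨hz1, hz2⟩ := Finset.mem_filter.1 hz
  have h1 := (h.swap W hW hWr ht z hz1 (fun c hc hcW hm => by
    have : c ∈ tg μ U f 𝒜 z := Finset.mem_filter.2 ⟨hc, by rw [(memCl_B.1 hz1).2]; exact hcW, hm⟩
    rw [hz2] at this
    exact Finset.notMem_empty _ this) y hy hac).2
  have h2 := h.deg z (memCl_B.1 hz1).1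
  have h3 := eeAAaddBB_B (μ := μ) (U := U) (f := f) (𝒜 := 𝒜) z
  have h4 := eeAA_of_mem_BB_B h hy
  omega

theorem gg_eq_B (W X : ℕ) : gg μ U f W X =
    2 * ((cl U f W).card : ℤ) - ∑ w ∈ cl U f W, ∑ x ∈ cl U f X, (μ w x : ℤ) := by
  unfold gg ee
  rw [Finset.sum_sub_distrib, Finset.sum_const, nsmul_eq_mul]
  push_cast
  ring

theorem gg_symm (h : Setup μ s b U f 𝒜 r) {W X : ℕ} (hW : W ∈ 𝒜) (hWr : W ≠ r) (hX : X ∈ 𝒜)
    (hXr : X ≠ r) : gg μ U f W X = gg μ U f X W := by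
  rw [gg_eq_B, gg_eq_B, h.card_cl W hW hWr, h.card_cl X hX hXr, Finset.sum_comm]
  congr 1
  refine Finset.sum_congr rfl fun x _ => Finset.sum_congr rfl fun w _ => ?_
  rw [h.mg.symm]

/-- consequence of the exchange `TT` -/
theorem gg_le_of_TT (h : Setup μ s b U f 𝒜 r) {W X : ℕ} (hW : W ∈ 𝒜) (hWr : W ≠ r) (hX : X ∈ 𝒜)
    (hXr : X ≠ r) (hXW : X ≠ W) (htX : NoCl (arc μ U f) 𝒜 r {X}) {y : V}
    (hy : y ∈ BB U f 𝒜) (hTT : ∀ x ∈ cl U f X, 2 ≤ ee μ x (cl U f W) + μ x y)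
    (hpos : 0 < gg μ U f W X) :
    1 ≤ ep μ U f y X ∧ gg μ U f W X ≤ 2 + ep μ U f y X := by
  classical
  have hsum : gg μ U f W X ≤ (ee μ y (Fm μ U f 𝒜 X) : ℤ) := by
    rw [gg_symm h hW hWr hX hXr]
    have e1 := Finset.sum_filter_add_sum_filter_not (cl U f X) (fun v => tg μ U f 𝒜 v = ∅)
      (fun x => (2 - (ee μ x (cl U f W) : ℤ)))
    have e2 : ∑ x ∈ (cl U f X).filter (fun v => tg μ U f 𝒜 v = ∅),
        (2 - (ee μ x (cl U f W) : ℤ)) ≤ 0 := by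
      refine Finset.sum_nonpos fun x hx => ?_
      obtain ⟨hx1, hx2⟩ := Finset.mem_filter.1 hx
      have := ee_ge_two_of_notMem_tg h hW (w := x)
        (by rw [(memCl_B.1 hx1).2]; exact hXW.symm) (by rw [hx2]; exact Finset.notMem_empty _)
      omega
    have e3 : ∑ x ∈ (cl U f X).filter (fun v => ¬ tg μ U f 𝒜 v = ∅),
        (2 - (ee μ x (cl U f W) : ℤ)) ≤ ∑ x ∈ Fm μ U f 𝒜 X, (μ y x : ℤ) := by
      refine Finset.sum_le_sum fun x hx => ?_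
      obtain ⟨hx1, hx2⟩ := Finset.mem_filter.1 hx
      have := hTT x hx1
      rw [h.mg.symm x y] at this
      omega
    have e4 : ((ee μ y (Fm μ U f 𝒜 X) : ℕ) : ℤ) = ∑ x ∈ Fm μ U f 𝒜 X, (μ y x : ℤ) := by
      unfold ee; push_cast; rfl
    unfold gg
    rw [e4]
    linarith
  have h5 := eeNmAddFm_B (μ := μ) (U := U) (f := f) (𝒜 := 𝒜) y X
  have h6 := ep_add_two_B h hy hX
  refine ⟨?_, by omega⟩
  by_contra hcon
  have h7 := (ep_zero h hX hXr htX hy (by omega)).2.1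
  rw [h7] at hsum
  simp at hsum
  omega

end B

end Pool.Agent.H25.EA
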