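import Pool.Agent.H25.EA.Shift

/-!
# Existence of the setup (module S1, helper39)
-/

set_option autoImplicit false
set_option linter.unusedSectionVars false

namespace Pool.Agent.H25.EA

open Finset

section prep

variable {V : Type*} [DecidableEq V] {μ : V → V → ℕ} {U : Finset V} {f : V → ℕ}

/-- a partition into classes of size `s` -/
theorem exists_equal_split (s : ℕ) (C : Finset ℕ) : ∀ U : Finset V, U.card = C.card * s →
    ∃ f : V → ℕ, (∀ v ∈ U, f v ∈ C) ∧ ∀ c ∈ C, (cl U f c).card = s := by
  induction C using Finset.induction_on with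
  | empty =>
    intro U hU
    refine ⟨fun _ => 0, ?_, ?_⟩
    · intro v hv
      rw [Finset.card_empty, zero_mul, Finset.card_eq_zero] at hU
      subst hU
      exact absurd hv (Finset.notMem_empty _)
    · intro c hc
      exact absurd hc (Finset.notMem_empty _)
  | insert c C hc ih =>
    intro U hU
    rw [Finset.card_insert_of_notMem hc] at hU
    obtain ⟨S, hSU, hS⟩ := Finset.exists_subset_card_eq (s := U) (n := s) (by
      rw [hU]; nlinarith)
    obtain ⟨g, g1, g2⟩ := ih (U \ S) (by
      rw [Finset.card_sdiff_of_subset hSU, hU, hS]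
      have : (C.card + 1) * s = C.card * s + s := by ring
      omega)
    refine ⟨fun v => if v ∈ S then c else g v, ?_, ?_⟩
    · intro v hv
      by_cases h : v ∈ S
      · simp [h]
      · simp only [h, if_false]
        exact Finset.mem_insert_of_mem (g1 v (Finset.mem_sdiff.mpr ⟨hv, h⟩))
    · intro d hd
      rw [Finset.mem_insert] at hd
      rcases hd with rfl | hd
      · have : cl U (fun v => if v ∈ S then d else g v) d = S := by
          ext v
          rw [mem_cl]
          constructor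
          · rintro ⟨h1, h2⟩
            by_contra h
            simp only [h, if_false] at h2
            apply hc
            rw [← h2]
            exact g1 v (Finset.mem_sdiff.mpr ⟨h1, h⟩)
          · intro h
            exact ⟨hSU h, by simp [h]⟩
        rw [this, hS]
      · have : cl U (fun v => if v ∈ S then c else g v) d = cl (U \ S) g d := by
          ext v
          rw [mem_cl, mem_cl, Finset.mem_sdiff]
          by_cases h : v ∈ S
          · simp only [h, if_true, not_true, and_false, false_and, iff_false, not_and]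
            rintro _ rfl
            exact hc hd
          · simp [h]
        rw [this, g2 d hd]

/-- the colour set does not matter -/
theorem EC.transfer {s : ℕ} {C C' : Finset ℕ} (h : EC μ s U C) (hc : C.card = C'.card) :
    EC μ s U C' := by
  obtain ⟨f, f1, f2⟩ := h
  have e := Finset.equivOfCardEq hc
  refine ⟨fun v => if hv : f v ∈ C then (e ⟨f v, hv⟩ : ℕ) else 0, ?_, ?_⟩
  · intro v hv
    simp only [f1 v hv, dif_pos]
    exact (e _).2
  · intro c' hc'
    have h1 : cl U (fun v => if hv : f v ∈ C then (e ⟨f v, hv⟩ : ℕ) else 0) c' =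
        cl U f (e.symm ⟨c', hc'⟩ : ℕ) := by
      ext v
      rw [mem_cl, mem_cl]
      constructor
      · rintro ⟨h1, h2⟩
        refine ⟨h1, ?_⟩
        simp only [f1 v h1, dif_pos] at h2
        have h3 : (⟨c', hc'⟩ : C') = e ⟨f v, f1 v h1⟩ := Subtype.ext h2.symm
        rw [h3, Equiv.symm_apply_apply]
      · rintro ⟨h1, h2⟩
        refine ⟨h1, ?_⟩
        simp only [f1 v h1, dif_pos]
        have h3 : (⟨f v, f1 v h1⟩ : C) = e.symm ⟨c', hc'⟩ := Subtype.ext h2
        rw [h3, Equiv.apply_symm_apply]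
    rw [h1]
    exact f2 _ (e.symm ⟨c', hc'⟩).2

/-- colourings of a set and of its complement can be glued -/
theorem EC.glue {s : ℕ} {A' : Finset V} {C1 C2 : Finset ℕ} (hA : A' ⊆ U) (h1 : EC μ s A' C1)
    (h2 : EC μ s (U \ A') C2) (hd : Disjoint C1 C2) : EC μ s U (C1 ∪ C2) := by
  obtain ⟨f, f1, f2⟩ := h1
  obtain ⟨g, g1, g2⟩ := h2
  refine ⟨fun v => if v ∈ A' then f v else g v, ?_, ?_⟩
  · intro v hv
    by_cases h : v ∈ A'
    · simp only [h, if_true]
      exact Finset.mem_union_left _ (f1 v h)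
    · simp only [h, if_false]
      exact Finset.mem_union_right _ (g1 v (Finset.mem_sdiff.mpr ⟨hv, h⟩))
  · intro c hc
    rw [Finset.mem_union] at hc
    rcases hc with hc | hc
    · have : cl U (fun v => if v ∈ A' then f v else g v) c = cl A' f c := by
        ext v
        rw [mem_cl, mem_cl]
        by_cases h : v ∈ A'
        · simp [h, hA h]
        · simp only [h, if_false, false_and, iff_false, not_and]
          intro hv h3
          have := g1 v (Finset.mem_sdiff.mpr ⟨hv, h⟩)
          rw [h3] at this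
          exact Finset.disjoint_left.mp hd hc this
      rw [this]; exact f2 c hc
    · have : cl U (fun v => if v ∈ A' then f v else g v) c = cl (U \ A') g c := by
        ext v
        rw [mem_cl, mem_cl, Finset.mem_sdiff]
        by_cases h : v ∈ A'
        · simp only [h, if_true, not_true, and_false, false_and, iff_false, not_and]
          intro hv h3
          have := f1 v h
          rw [h3] at this
          exact Finset.disjoint_left.mp hd this hc
        · simp [h]
      rw [this]; exact g2 c hc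

/-- a set of classes from which no arc leaves -/
def Closd (μ : V → V → ℕ) (U : Finset V) (f : V → ℕ) (C K : Finset ℕ) : Prop :=
  ∀ x ∈ K, ∀ y ∈ C, arc μ U f x y → y ∈ K

open Classical in
/-- the classes which reach `r` -/
noncomputable def RA (μ : V → V → ℕ) (U : Finset V) (f : V → ℕ) (C : Finset ℕ) (r : ℕ) : Finset ℕ :=
  C.filter (fun c => ∀ K ⊆ C, r ∉ K → Closd μ U f C K → c ∉ K)

theorem mem_RA {C : Finset ℕ} {r c : ℕ} :
    c ∈ RA μ U f C r ↔ c ∈ C ∧ ∀ K ⊆ C, r ∉ K → Closd μ U f C K → c ∉ K := by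
  unfold RA; simp only [Finset.mem_filter]

theorem RA_sub {C : Finset ℕ} {r : ℕ} : RA μ U f C r ⊆ C := fun _ hc => (mem_RA.mp hc).1

theorem r_mem_RA {C : Finset ℕ} {r : ℕ} (hr : r ∈ C) : r ∈ RA μ U f C r :=
  mem_RA.mpr ⟨hr, fun _ _ h _ => h⟩

theorem RA_no_arc {C : Finset ℕ} {r x y : ℕ} (hx : x ∈ C) (hxA : x ∉ RA μ U f C r)
    (hy : y ∈ RA μ U f C r) : ¬ arc μ U f x y := by
  intro ha
  apply hxA
  rw [mem_RA]
  refine ⟨hx, fun K hK hr hcl hxK => ?_⟩
  exact (mem_RA.mp hy).2 K hK hr hcl (hcl x hxK y (mem_RA.mp hy).1 ha)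

theorem RA_reach {C : Finset ℕ} {r : ℕ} (hr : r ∈ C) :
    NoCl (arc μ U f) (RA μ U f C r) r ∅ := by
  intro K hK _ hrK hne
  by_contra hno
  push Not at hno
  obtain ⟨c, hc⟩ := hne
  have hcA := hK hc
  refine (mem_RA.mp hcA).2 (K ∪ (C \ RA μ U f C r)) ?_ ?_ ?_ (Finset.mem_union_left _ hc)
  · exact Finset.union_subset (hK.trans RA_sub) Finset.sdiff_subset
  · rw [Finset.mem_union, Finset.mem_sdiff]
    rintro (h | h)
    · exact hrK h
    · exact h.2 (r_mem_RA hr)
  · intro x hx y hy ha
    rw [Finset.mem_union] at hx ⊢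
    rw [Finset.mem_sdiff] at hx ⊢
    by_cases hyA : y ∈ RA μ U f C r
    · left
      by_contra hyK
      rcases hx with hx | hx
      · exact hno x hx y hyA hyK (Finset.notMem_empty _) ha
      · exact RA_no_arc hx.1 hx.2 hyA ha
    · right; exact ⟨hy, hyA⟩

/-- nearly equitable colourings: `r` is the small class -/
structure NE (μ : V → V → ℕ) (U : Finset V) (s : ℕ) (C : Finset ℕ) (f : V → ℕ) (r : ℕ) : Prop where
  col : ∀ v ∈ U, f v ∈ C
  ac : ∀ c ∈ C, Ac μ (cl U f c)
  r_mem : r ∈ C
  card_r : (cl U f r).card + 1 = s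
  big : ∃ p ∈ C, p ≠ r ∧ (cl U f p).card = s + 1 ∧
    ∀ c ∈ C, c ≠ r → c ≠ p → (cl U f c).card = s

theorem NE.card_cl {s : ℕ} {C : Finset ℕ} {r : ℕ} (h : NE μ U s C f r)
    (hno : ¬ EC μ s U C) : ∀ c ∈ RA μ U f C r, c ≠ r → (cl U f c).card = s := by
  obtain ⟨p, hp, hpr, hps, hall⟩ := h.big
  have hpA : p ∉ RA μ U f C r := by
    intro hpA
    apply hno
    obtain ⟨g, g1, g2, g3, _, g5⟩ := shift (𝒜 := RA μ U f C r) (S := ∅) (r := r) (r_mem_RA h.r_mem)
      (Finset.notMem_empty _) (fun c hc => h.ac c (RA_sub hc)) (RA_reach h.r_mem) p hpA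
      (Finset.notMem_empty _)
    have hcol : ∀ v ∈ U, g v ∈ C := by
      intro v hv
      by_cases h1 : f v ∈ RA μ U f C r
      · exact RA_sub (g2 v hv h1 (Finset.notMem_empty _)).1
      · rw [g1 v (fun h2 => h1 h2.2.1)]; exact h.col v hv
    refine ⟨g, hcol, ?_⟩
    intro c hc
    by_cases hcA : c ∈ RA μ U f C r
    · refine ⟨?_, g3 c hcA⟩
      have h5 := g5 c hcA
      by_cases hcp : c = p
      · rw [if_pos hcp, if_neg (by rw [hcp]; exact hpr)] at h5
        rw [hcp] at h5 ⊢
        omega
      · by_cases hcr : c = r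
        · rw [if_neg hcp, if_pos hcr] at h5
          have := h.card_r
          rw [hcr] at h5 ⊢
          omega
        · rw [if_neg hcp, if_neg hcr] at h5
          have := hall c hc hcr hcp
          omega
    · have h1 : cl U g c = cl U f c := by
        ext v
        rw [mem_cl, mem_cl]
        constructor
        · rintro ⟨hv, hgv⟩
          refine ⟨hv, ?_⟩
          by_cases h1 : f v ∈ RA μ U f C r
          · have := (g2 v hv h1 (Finset.notMem_empty _)).1
            rw [hgv] at this
            exact absurd this hcA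
          · rw [← g1 v (fun h2 => h1 h2.2.1)]; exact hgv
        · rintro ⟨hv, hfv⟩
          refine ⟨hv, ?_⟩
          rw [g1 v (fun h2 => hcA (hfv ▸ h2.2.1))]; exact hfv
      rw [h1]
      refine ⟨hall c hc ?_ ?_, h.ac c hc⟩
      · rintro rfl; exact hcA (r_mem_RA h.r_mem)
      · rintro rfl; exact hcA hpA
  intro c hc hcr
  exact hall c (RA_sub hc) hcr (fun h1 => hpA (h1 ▸ hc))

/-- the measure which is maximised -/
noncomputable def meas (μ : V → V → ℕ) (U : Finset V) (C : Finset ℕ) (f : V → ℕ) (r : ℕ) : ℕ :=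
  (RA μ U f C r).card * (∑ v ∈ U, ee μ v U + 1) +
    ∑ v ∈ AA U f (RA μ U f C r), ee μ v (AA U f (RA μ U f C r))

theorem AA_sub {𝒜 : Finset ℕ} : AA U f 𝒜 ⊆ U := Finset.filter_subset _ _

theorem BB_sub {𝒜 : Finset ℕ} : BB U f 𝒜 ⊆ U := Finset.filter_subset _ _

theorem inner_le {S : Finset V} (h : S ⊆ U) : ∑ v ∈ S, ee μ v S ≤ ∑ v ∈ U, ee μ v U :=
  (Finset.sum_le_sum fun _ _ => ee_mono h).trans
    (Finset.sum_le_sum_of_subset h)

theorem meas_le (C : Finset ℕ) (f : V → ℕ) (r : ℕ) :
    meas μ U C f r ≤ C.card * (∑ v ∈ U, ee μ v U + 1) + ∑ v ∈ U, ee μ v U := by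
  unfold meas
  exact Nat.add_le_add (Nat.mul_le_mul_right _ (Finset.card_le_card RA_sub)) (inner_le AA_sub)

/-- blocked vertices -/
theorem NE.blocked {s : ℕ} {C : Finset ℕ} {r : ℕ} (h : NE μ U s C f r) :
    ∀ y ∈ BB U f (RA μ U f C r), ∀ c ∈ RA μ U f C r, ¬ mov μ U f y c := by
  intro y hy c hc hm
  rw [mem_BB] at hy
  refine RA_no_arc (h.col y hy.1) hy.2 hc ⟨?_, y, mem_cl.mpr ⟨hy.1, rfl⟩, hm⟩
  rintro h1
  exact hy.2 (h1 ▸ hc)

/-- the vertices outside `RA` have small degree outside -/
theorem NE.deg_BB (hμ : MG μ) {s : ℕ} {C : Finset ℕ} {r : ℕ} (h : NE μ U s C f r) {b : ℕ}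
    (hb : C.card = (RA μ U f C r).card + b) (hdeg : ∀ v ∈ U, ee μ v U + 2 ≤ 2 * C.card) :
    ∀ v ∈ BB U f (RA μ U f C r), ee μ v (BB U f (RA μ U f C r)) + 2 ≤ 2 * b := by
  intro v hv
  have h1 : 2 * (RA μ U f C r).card ≤ ee μ v (AA U f (RA μ U f C r)) := by
    rw [← ee_sum_AA, mul_comm, ← smul_eq_mul, ← Finset.sum_const]
    exact Finset.sum_le_sum fun c hc =>
      two_le_of_not_ac hμ (h.ac c (RA_sub hc)) (h.blocked v hv c hc)
  have h2 := ee_AA_add_BB (μ := μ) (U := U) (f := f) (RA μ U f C r) v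
  have h3 := hdeg v (BB_sub hv)
  omega

/-- the new colouring of the swap rule -/
theorem NE.swap_col (hμ : MG μ) {s b : ℕ} {C : Finset ℕ} {r : ℕ} (h : NE μ U s C f r)
    (hno : ¬ EC μ s U C)
    (hb : C.card = (RA μ U f C r).card + b) (hdeg : ∀ v ∈ U, ee μ v U + 2 ≤ 2 * C.card)
    (IH : ∀ U' : Finset V, U' ⊆ U → U'.card = b * s → (∀ v ∈ U', ee μ v U' + 2 ≤ 2 * b) →
      EC μ s U' (C \ RA μ U f C r))
    (hcB : (BB U f (RA μ U f C r)).card = b * s + 1)
    {W : ℕ} (hW : W ∈ RA μ U f C r) (hWr : W ≠ r) (ht : NoCl (arc μ U f) (RA μ U f C r) r {W})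
    {z : V} (hz : z ∈ cl U f W) (hzm : ∀ c ∈ RA μ U f C r, c ≠ W → ¬ mov μ U f z c)
    {y : V} (hy : y ∈ BB U f (RA μ U f C r)) (hac : Ac μ (insert y ((cl U f W).erase z))) :
    ∃ g : V → ℕ, NE μ U s C g r ∧ RA μ U f C r ⊆ RA μ U g C r ∧
      BB U g (RA μ U f C r) = insert z ((BB U f (RA μ U f C r)).erase y) ∧
      AA U g (RA μ U f C r) = insert y ((AA U f (RA μ U f C r)).erase z) := by
  set 𝒜 := RA μ U f C r with h𝒜
  have hzU : z ∈ U := (mem_cl.mp hz).1
  have hfz : f z = W := (mem_cl.mp hz).2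
  have hyU : y ∈ U := BB_sub hy
  have hfy : f y ∉ 𝒜 := (mem_BB.mp hy).2
  have hzy : z ≠ y := by
    rintro rfl
    exact hfy (hfz ▸ hW)
  have hzB : z ∉ BB U f 𝒜 := by
    rw [mem_BB, hfz]; exact fun h1 => h1.2 hW
  have hcW : Ac μ (cl U f W) := h.ac W (RA_sub hW)
  -- degree of z
  have hz1 : 2 ≤ ee μ z (cl U f W) + μ z y := by
    have h1 : insert z (insert y ((cl U f W).erase z)) = insert y (cl U f W) := by
      rw [Finset.insert_comm, Finset.insert_erase hz]
    have h2 : ¬ Ac μ (insert z (insert y ((cl U f W).erase z))) := by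
      rw [h1]; exact h.blocked y hy W hW
    have h3 := two_le_of_not_ac hμ hac h2
    have hyW : y ∉ (cl U f W).erase z := by
      rw [Finset.mem_erase, mem_cl]
      rintro ⟨_, _, h4⟩
      exact hfy (h4 ▸ hW)
    rw [ee_insert_of_notMem hyW] at h3
    have h4 := ee_erase_add (μ := μ) (v := z) hz
    omega
  have hz2 : 2 * 𝒜.card + ee μ z (cl U f W) ≤ ee μ z (AA U f 𝒜) + 2 := by
    rw [← ee_sum_AA, ← Finset.add_sum_erase _ _ hW]
    have h1 : 2 * (𝒜.erase W).card ≤ ∑ c ∈ 𝒜.erase W, ee μ z (cl U f c) := by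
      rw [mul_comm, ← smul_eq_mul, ← Finset.sum_const]
      apply Finset.sum_le_sum
      intro c hc
      rw [Finset.mem_erase] at hc
      exact two_le_of_not_ac hμ (h.ac c (RA_sub hc.2)) (hzm c hc.2 hc.1)
    have h2 : (𝒜.erase W).card + 1 = 𝒜.card := Finset.card_erase_add_one hW
    omega
  have hzBy : ee μ z ((BB U f 𝒜).erase y) + 2 ≤ 2 * b := by
    have h1 := ee_erase_add (μ := μ) (v := z) hy
    have h2 := ee_AA_add_BB (μ := μ) (U := U) (f := f) 𝒜 z
    have h3 := hdeg z hzU
    omega
  -- the colouring of B - y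
  obtain ⟨h', hh1, hh2⟩ := IH ((BB U f 𝒜).erase y) ((Finset.erase_subset _ _).trans BB_sub)
    (by rw [Finset.card_erase_of_mem hy, hcB]; rfl) (by
      intro v hv
      have h1 := h.deg_BB hμ hb hdeg v (Finset.mem_of_mem_erase hv)
      rw [← h𝒜] at h1
      have h2 : ee μ v ((BB U f 𝒜).erase y) ≤ ee μ v (BB U f 𝒜) := ee_mono (Finset.erase_subset _ _)
      omega)
  have hcard : (C \ 𝒜).card = b := by
    rw [Finset.card_sdiff_of_subset RA_sub, hb, ← h𝒜]; omega
  obtain ⟨d, hd, hd1⟩ := exists_cl_le_one (μ := μ) (v := z) hh1 (by rw [hcard]; exact hzBy)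
  have hdC : d ∈ C := (Finset.mem_sdiff.mp hd).1
  have hdA : d ∉ 𝒜 := (Finset.mem_sdiff.mp hd).2
  set g : V → ℕ := fun v => if v = z then d else if v = y then W else
    if v ∈ BB U f 𝒜 then h' v else f v with hg
  have gz : g z = d := by simp [hg]
  have gy : g y = W := by simp [hg, Ne.symm hzy]
  have gB : ∀ v, v ≠ z → v ≠ y → v ∈ BB U f 𝒜 → g v = h' v := by
    intro v h1 h2 h3; simp [hg, h1, h2, h3]
  have gA : ∀ v, v ≠ z → v ∉ BB U f 𝒜 → g v = f v := by
    intro v h1 h3
    have h2 : v ≠ y := fun h4 => h3 (h4 ▸ hy)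
    simp [hg, h1, h2, h3]
  have gB' : ∀ v, v ≠ z → v ≠ y → v ∈ BB U f 𝒜 → g v ∈ C \ 𝒜 := by
    intro v h1 h2 h3
    rw [gB v h1 h2 h3]
    exact hh1 v (Finset.mem_erase.mpr ⟨h2, h3⟩)
  have gA' : ∀ v ∈ U, v ∉ BB U f 𝒜 → f v ∈ 𝒜 := by
    intro v h1 h2
    by_contra h3
    exact h2 (mem_BB.mpr ⟨h1, h3⟩)
  -- the classes
  have cA : ∀ c ∈ 𝒜, c ≠ W → cl U g c = cl U f c := by
    intro c hc hcW
    ext v
    rw [mem_cl, mem_cl]
    by_cases hvz : v = z
    · subst hvz
      rw [gz, hfz]
      constructor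
      · rintro ⟨_, h2⟩; exact absurd (h2 ▸ hc) hdA
      · rintro ⟨_, h2⟩; exact absurd h2.symm hcW
    · by_cases hvy : v = y
      · subst hvy
        rw [gy]
        constructor
        · rintro ⟨_, h2⟩; exact absurd h2.symm hcW
        · rintro ⟨_, h2⟩; exact absurd (h2 ▸ hc) hfy
      · by_cases hvB : v ∈ BB U f 𝒜
        · have h3 := gB' v hvz hvy hvB
          rw [Finset.mem_sdiff] at h3
          constructor
          · rintro ⟨_, h2⟩; exact absurd (h2 ▸ hc) h3.2
          · rintro ⟨_, h2⟩; exact absurd (h2 ▸ hc) (mem_BB.mp hvB).2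
        · rw [gA v hvz hvB]
  have cW : cl U g W = insert y ((cl U f W).erase z) := by
    ext v
    rw [mem_cl, Finset.mem_insert, Finset.mem_erase, mem_cl]
    by_cases hvz : v = z
    · subst hvz
      rw [gz]
      constructor
      · rintro ⟨_, h2⟩; exact absurd (h2 ▸ hW) hdA
      · rintro (h2 | h2)
        · exact absurd h2 hzy
        · exact absurd rfl h2.1
    · by_cases hvy : v = y
      · subst hvy
        rw [gy]; simp [hyU]
      · by_cases hvB : v ∈ BB U f 𝒜
        · have h3 := gB' v hvz hvy hvB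
          rw [Finset.mem_sdiff] at h3
          constructor
          · rintro ⟨_, h2⟩; exact absurd (h2 ▸ hW) h3.2
          · rintro (h2 | h2)
            · exact absurd h2 hvy
            · exact absurd (h2.2.2 ▸ hW) (mem_BB.mp hvB).2
        · rw [gA v hvz hvB]; simp [hvz, hvy]
  have cB : ∀ c ∈ C \ 𝒜, c ≠ d → cl U g c = cl ((BB U f 𝒜).erase y) h' c := by
    intro c hc hcd
    rw [Finset.mem_sdiff] at hc
    ext v
    rw [mem_cl, mem_cl, Finset.mem_erase]
    by_cases hvz : v = z
    · subst hvz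
      rw [gz]
      constructor
      · rintro ⟨_, h2⟩; exact absurd h2.symm hcd
      · rintro ⟨h2, _⟩; exact absurd h2.2 hzB
    · by_cases hvy : v = y
      · subst hvy
        rw [gy]
        constructor
        · rintro ⟨_, h2⟩; exact absurd (h2 ▸ hW) hc.2
        · rintro ⟨h2, _⟩; exact absurd rfl h2.1
      · by_cases hvB : v ∈ BB U f 𝒜
        · rw [gB v hvz hvy hvB]
          simp [hvy, hvB, BB_sub hvB]
        · rw [gA v hvz hvB]
          constructor
          · rintro ⟨h1, h2⟩
            exact absurd (h2 ▸ gA' v h1 hvB) hc.2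
          · rintro ⟨h2, _⟩; exact absurd h2.2 hvB
  have cd : cl U g d = insert z (cl ((BB U f 𝒜).erase y) h' d) := by
    ext v
    rw [mem_cl, Finset.mem_insert, mem_cl, Finset.mem_erase]
    by_cases hvz : v = z
    · subst hvz
      rw [gz]; simp [hzU]
    · by_cases hvy : v = y
      · subst hvy
        rw [gy]
        constructor
        · rintro ⟨_, h2⟩; exact absurd (h2 ▸ hW) hdA
        · rintro (h2 | ⟨h2, _⟩)
          · exact absurd h2 hvz
          · exact absurd rfl h2.1
      · by_cases hvB : v ∈ BB U f 𝒜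
        · rw [gB v hvz hvy hvB]
          simp [hvz, hvy, hvB, BB_sub hvB]
        · rw [gA v hvz hvB]
          constructor
          · rintro ⟨h1, h2⟩
            exact absurd (h2 ▸ gA' v h1 hvB) hdA
          · rintro (h2 | ⟨h2, _⟩)
            · exact absurd h2 hvz
            · exact absurd h2.2 hvB
  have hznot : z ∉ cl ((BB U f 𝒜).erase y) h' d := by
    rw [mem_cl, Finset.mem_erase]
    exact fun h1 => hzB h1.1.2
  have hynot : y ∉ (cl U f W).erase z := by
    rw [Finset.mem_erase, mem_cl]
    rintro ⟨_, _, h4⟩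
    exact hfy (h4 ▸ hW)
  have hrA : r ∈ 𝒜 := r_mem_RA h.r_mem
  have hdr : d ≠ r := fun h1 => hdA (h1 ▸ hrA)
  have hcols := h.card_cl hno
  refine ⟨g, ⟨?_, ?_, h.r_mem, ?_, d, hdC, hdr, ?_, ?_⟩, ?_, ?_, ?_⟩
  · intro v hv
    by_cases hvz : v = z
    · rw [hvz, gz]; exact hdC
    · by_cases hvy : v = y
      · rw [hvy, gy]; exact RA_sub hW
      · by_cases hvB : v ∈ BB U f 𝒜
        · exact (Finset.mem_sdiff.mp (gB' v hvz hvy hvB)).1
        · rw [gA v hvz hvB]; exact h.col v hv
  · intro c hc
    by_cases hcA : c ∈ 𝒜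
    · by_cases hcW' : c = W
      · rw [hcW', cW]; exact hac
      · rw [cA c hcA hcW']; exact h.ac c hc
    · have hc' : c ∈ C \ 𝒜 := Finset.mem_sdiff.mpr ⟨hc, hcA⟩
      by_cases hcd : c = d
      · rw [hcd, cd]
        exact Ac.insert hμ (hh2 d hd).2 hd1
      · rw [cB c hc' hcd]; exact (hh2 c hc').2
  · rw [cA r hrA (Ne.symm hWr)]; exact h.card_r
  · rw [cd, Finset.card_insert_of_notMem hznot, (hh2 d hd).1]
  · intro c hc hcr hcd
    by_cases hcA : c ∈ 𝒜
    · by_cases hcW' : c = W
      · rw [hcW', cW, Finset.card_insert_of_notMem hynot, Finset.card_erase_add_one hz]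
        exact hcols W hW hWr
      · rw [cA c hcA hcW']; exact hcols c hcA hcr
    · have hc' : c ∈ C \ 𝒜 := Finset.mem_sdiff.mpr ⟨hc, hcA⟩
      rw [cB c hc' hcd]; exact (hh2 c hc').1
  · -- every class still reaches r
    intro c hc
    rw [mem_RA]
    refine ⟨RA_sub hc, fun K hK hrK hcl hcK => ?_⟩
    by_cases hne : ((K ∩ 𝒜).erase W).Nonempty
    · obtain ⟨x, hx, x', hx'A, hx'K, hx'W, hne', w, hw, hm⟩ := ht ((K ∩ 𝒜).erase W)
        ((Finset.erase_subset _ _).trans Finset.inter_subset_right)
        (by rw [Finset.disjoint_singleton_right]; exact Finset.notMem_erase _ _)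
        (fun h1 => hrK (Finset.mem_inter.mp (Finset.mem_of_mem_erase h1)).1) hne
      rw [Finset.mem_erase, Finset.mem_inter] at hx
      rw [Finset.mem_singleton] at hx'W
      have h1 : arc μ U g x x' := by
        refine ⟨hne', w, ?_, ?_⟩
        · rw [cA x hx.2.2 hx.1]; exact hw
        · unfold mov; rw [cA x' hx'A hx'W]; exact hm
      have h2 := hcl x hx.2.1 x' (RA_sub hx'A) h1
      exact hx'K (Finset.mem_erase.mpr ⟨hx'W, Finset.mem_inter.mpr ⟨h2, hx'A⟩⟩)
    · have hcW' : c = W := by
        by_contra h1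
        exact hne ⟨c, Finset.mem_erase.mpr ⟨h1, Finset.mem_inter.mpr ⟨hcK, hc⟩⟩⟩
      subst hcW'
      obtain ⟨x, hx, x', hx'A, hx'K, _, hne', w, hw, hm⟩ := RA_reach (μ := μ) (U := U) (f := f)
        h.r_mem {c} (Finset.singleton_subset_iff.mpr hW) (Finset.disjoint_empty_right _)
        (by rw [Finset.mem_singleton]; exact Ne.symm hWr) (Finset.singleton_nonempty c)
      rw [Finset.mem_singleton] at hx
      subst hx
      rw [Finset.mem_singleton] at hx'K
      have hwz : w ≠ z := by
        rintro rfl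
        exact hzm x' hx'A hx'K hm
      have h1 : arc μ U g x x' := by
        refine ⟨hne', w, ?_, ?_⟩
        · rw [cW]; exact Finset.mem_insert_of_mem (Finset.mem_erase.mpr ⟨hwz, hw⟩)
        · unfold mov; rw [cA x' hx'A hx'K]; exact hm
      have h2 := hcl x hcK x' (RA_sub hx'A) h1
      exact hne ⟨x', Finset.mem_erase.mpr ⟨hx'K, Finset.mem_inter.mpr ⟨h2, hx'A⟩⟩⟩
  · ext v
    rw [mem_BB, Finset.mem_insert, Finset.mem_erase]
    by_cases hvz : v = z
    · subst hvz
      rw [gz]; simp [hzU, hdA]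
    · by_cases hvy : v = y
      · subst hvy
        rw [gy]; simp [hvz, hW]
      · by_cases hvB : v ∈ BB U f 𝒜
        · have h3 := gB' v hvz hvy hvB
          rw [Finset.mem_sdiff] at h3
          simp [hvy, hvB, BB_sub hvB, h3.2]
        · rw [gA v hvz hvB]
          constructor
          · rintro ⟨h1, h2⟩; exact absurd (gA' v h1 hvB) h2
          · rintro (h2 | h2)
            · exact absurd h2 hvz
            · exact absurd h2.2 hvB
  · ext v
    rw [mem_AA, Finset.mem_insert, Finset.mem_erase, mem_AA]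
    by_cases hvz : v = z
    · subst hvz
      rw [gz]; simp [hdA, hzy]
    · by_cases hvy : v = y
      · subst hvy
        rw [gy]; simp [hyU, hW]
      · by_cases hvB : v ∈ BB U f 𝒜
        · have h3 := gB' v hvz hvy hvB
          rw [Finset.mem_sdiff] at h3
          have h4 := (mem_BB.mp hvB).2
          simp [hvy, hvz, h3.2, h4]
        · rw [gA v hvz hvB]; simp [hvz, hvy]

/-- the change of the inner degree sum -/
theorem inner_swap (hμ : MG μ) {A : Finset V} {z y : V} (hz : z ∈ A) (hy : y ∉ A)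
    (hle : ∑ v ∈ insert y (A.erase z), ee μ v (insert y (A.erase z)) ≤ ∑ v ∈ A, ee μ v A) :
    ee μ y A ≤ ee μ z A + μ y z := by
  have hyA : y ∉ A.erase z := fun h => hy (Finset.mem_of_mem_erase h)
  have key : ∀ w : V, w ∉ A.erase z →
      ∑ v ∈ insert w (A.erase z), ee μ v (insert w (A.erase z)) =
        ∑ v ∈ A.erase z, ee μ v (A.erase z) + 2 * ee μ w (A.erase z) := by
    intro w hw
    rw [Finset.sum_insert hw, ee_insert_of_notMem hw, hμ.diag, zero_add]
    have h1 : ∑ v ∈ A.erase z, ee μ v (insert w (A.erase z)) =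
        ∑ v ∈ A.erase z, μ v w + ∑ v ∈ A.erase z, ee μ v (A.erase z) := by
      rw [← Finset.sum_add_distrib]
      exact Finset.sum_congr rfl fun v _ => ee_insert_of_notMem hw
    have h2 : ∑ v ∈ A.erase z, μ v w = ee μ w (A.erase z) := by
      unfold ee
      exact Finset.sum_congr rfl fun v _ => hμ.symm v w
    rw [h1, h2]; ring
  have h1 := key y hyA
  have h2 := key z (Finset.notMem_erase z A)
  rw [Finset.insert_erase hz] at h2
  rw [h1, h2] at hle
  have h3 := ee_erase_add (μ := μ) (v := y) hz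
  have h4 := ee_erase_add (μ := μ) (v := z) hz
  omega

/-- the setup of an extremal nearly equitable colouring -/
theorem exists_setup (hμ : MG μ) {s : ℕ} {C : Finset ℕ} (hno : ¬ EC μ s U C)
    (hdeg : ∀ v ∈ U, ee μ v U + 2 ≤ 2 * C.card) (hU : U.card = C.card * s)
    (IH : ∀ C' ⊆ C, C' ≠ C → ∀ U' : Finset V, U' ⊆ U → U'.card = C'.card * s →
      (∀ v ∈ U', ee μ v U' + 2 ≤ 2 * C'.card) → EC μ s U' C')
    (hNE : ∃ f r, NE μ U s C f r) : ∃ b f 𝒜 r, Setup μ s b U f 𝒜 r := by
  -- the extremal choice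
  obtain ⟨f, r, h, hmax⟩ : ∃ f r, NE μ U s C f r ∧
      ∀ f' r', NE μ U s C f' r' → meas μ U C f' r' ≤ meas μ U C f r := by
    classical
    obtain ⟨f0, r0, h0⟩ := hNE
    let P : ℕ → Prop := fun n => ∃ f r, NE μ U s C f r ∧ meas μ U C f r = n
    have hP0 : P (meas μ U C f0 r0) := ⟨f0, r0, h0, rfl⟩
    have hbd := meas_le (μ := μ) (U := U) C f0 r0
    obtain ⟨f, r, h, hm⟩ := Nat.findGreatest_spec (P := P) hbd hP0
    refine ⟨f, r, h, fun f' r' h' => ?_⟩
    rw [hm]
    exact Nat.le_findGreatest (meas_le C f' r') ⟨f', r', h', rfl⟩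
  set 𝒜 := RA μ U f C r with h𝒜
  have hrA : r ∈ 𝒜 := r_mem_RA h.r_mem
  have hsub : 𝒜 ⊆ C := RA_sub
  obtain ⟨b, hb⟩ : ∃ b, C.card = 𝒜.card + b := Nat.exists_eq_add_of_le (Finset.card_le_card hsub)
  have hcardB' : (C \ 𝒜).card = b := by
    rw [Finset.card_sdiff_of_subset hsub, hb]; omega
  have hne : C \ 𝒜 ≠ C := by
    intro h1
    have := h.r_mem
    rw [← h1, Finset.mem_sdiff] at this
    exact this.2 hrA
  have hcols := h.card_cl hno
  have hcA : (AA U f 𝒜).card + 1 = 𝒜.card * s := by
    rw [← card_sum_AA, ← Finset.add_sum_erase _ _ hrA]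
    have h1 : ∑ c ∈ 𝒜.erase r, (cl U f c).card = ∑ c ∈ 𝒜.erase r, s :=
      Finset.sum_congr rfl fun c hc => hcols c (Finset.mem_of_mem_erase hc) (Finset.ne_of_mem_erase hc)
    rw [h1, Finset.sum_const, smul_eq_mul]
    have h2 : (𝒜.erase r).card + 1 = 𝒜.card := Finset.card_erase_add_one hrA
    have h3 := h.card_r
    rw [← h2, add_mul, one_mul]
    omega
  have hcB : (BB U f 𝒜).card = b * s + 1 := by
    have h1 := card_AA_add_BB (U := U) (f := f) 𝒜
    rw [hU, hb, add_mul] at h1
    omega
  have IH' : ∀ U' : Finset V, U' ⊆ U → U'.card = b * s → (∀ v ∈ U', ee μ v U' + 2 ≤ 2 * b) →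
      EC μ s U' (C \ 𝒜) := by
    intro U' h1 h2 h3
    exact IH (C \ 𝒜) Finset.sdiff_subset hne U' h1 (by rw [hcardB', h2]) (by rw [hcardB']; exact h3)
  refine ⟨b, f, 𝒜, r, hμ, ?_, hrA, h.card_r, hcols, fun c hc => h.ac c (hsub hc), hcB,
    h.blocked, RA_reach h.r_mem, ?_, ?_⟩
  · intro v hv
    rw [← hb]; exact hdeg v hv
  · intro A' hA' hA'c hd hEC
    have h1 : EC μ s (U \ A') (C \ 𝒜) := by
      apply IH' _ Finset.sdiff_subset _ hd
      rw [Finset.card_sdiff_of_subset hA', hU, hA'c, hb, add_mul]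
      omega
    have h2 := EC.glue hA' hEC h1 Finset.disjoint_sdiff
    rw [Finset.union_sdiff_of_subset hsub] at h2
    exact hno h2
  · intro W hW hWr ht z hz hzm y hy hac
    obtain ⟨g, hg, hsubA, hBg, hAg⟩ := h.swap_col hμ hno hb hdeg IH' hcB hW hWr ht hz hzm hy hac
    have hm := hmax g r hg
    rw [← h𝒜] at hAg hBg hsubA
    -- the reachable classes are the same
    have hAeq : RA μ U g C r = 𝒜 := by
      by_contra hneq
      have h1 : 𝒜.card < (RA μ U g C r).card :=
        Finset.card_lt_card ⟨hsubA, fun h2 => hneq (Finset.Subset.antisymm h2 hsubA)⟩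
      have h2 : ∑ v ∈ AA U f 𝒜, ee μ v (AA U f 𝒜) ≤ ∑ v ∈ U, ee μ v U := inner_le AA_sub
      have h3 : (𝒜.card + 1) * (∑ v ∈ U, ee μ v U + 1) ≤
          (RA μ U g C r).card * (∑ v ∈ U, ee μ v U + 1) := Nat.mul_le_mul_right _ h1
      unfold meas at hm
      rw [add_mul, one_mul] at h3
      rw [← h𝒜] at hm
      omega
    constructor
    · have h1 := hg.deg_BB hμ (b := b) (by rw [hAeq]; exact hb) hdeg
      rw [hAeq, hBg] at h1
      exact h1
    · have hzA : z ∈ AA U f 𝒜 := mem_AA.mpr ⟨(mem_cl.mp hz).1, (mem_cl.mp hz).2 ▸ hW⟩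
      have hyA : y ∉ AA U f 𝒜 := fun h1 => (mem_BB.mp hy).2 (mem_AA.mp h1).2
      apply inner_swap hμ hzA hyA
      unfold meas at hm
      rw [hAeq, ← h𝒜, hAg] at hm
      omega

end prep

/-- removing all edges at `u` -/
def cut {V : Type*} [DecidableEq V] (μ : V → V → ℕ) (u : V) : V → V → ℕ :=
  fun v w => if v = u ∨ w = u then 0 else μ v w

theorem main_aux (hcore : ∀ (V : Type) [DecidableEq V] (μ : V → V → ℕ) (s b : ℕ)
      (U : Finset V) (f : V → ℕ) (𝒜 : Finset ℕ) (r : ℕ), ¬ Setup μ s b U f 𝒜 r)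
    (V : Type) [DecidableEq V] (s : ℕ) : ∀ (k m : ℕ) (μ : V → V → ℕ) (U : Finset V) (C : Finset ℕ),
      MG μ → C.card = k → U.card = C.card * s → (∀ v ∈ U, ee μ v U + 2 ≤ 2 * C.card) →
      ∑ v ∈ U, ee μ v U = m → EC μ s U C := by
  intro k
  induction k using Nat.strong_induction_on with
  | _ k ihk =>
    intro m
    induction m using Nat.strong_induction_on with
    | _ m ihm =>
      intro μ U C hμ hC hU hdeg hm
      by_contra hno
      by_cases hz : ∀ v ∈ U, ee μ v U = 0
      · obtain ⟨f, f1, f2⟩ := exists_equal_split s C U hU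
        apply hno
        refine ⟨f, f1, fun c hc => ⟨f2 c hc, ?_⟩⟩
        intro T hT hne
        obtain ⟨v, hv⟩ := hne
        have hTU : T ⊆ U := hT.trans (Finset.filter_subset _ _)
        refine ⟨v, hv, ?_⟩
        have h1 := hz v (hTU hv)
        have h2 : ee μ v T ≤ ee μ v U := ee_mono hTU
        omega
      · push Not at hz
        obtain ⟨u, hu, hu0⟩ := hz
        -- delete the edges at u
        have hμ' : MG (cut μ u) := by
          refine ⟨?_, ?_, ?_⟩
          · intro v w
            unfold cut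
            by_cases h1 : v = u <;> by_cases h2 : w = u <;> simp [h1, h2, hμ.symm v w]
          · intro v
            unfold cut
            split_ifs
            · rfl
            · exact hμ.diag v
          · intro v w
            unfold cut
            split_ifs
            · omega
            · exact hμ.le_two v w
        have hcut_le : ∀ v (S : Finset V), ee (cut μ u) v S ≤ ee μ v S := by
          intro v S
          unfold ee
          apply Finset.sum_le_sum
          intro w _
          unfold cut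
          split_ifs
          · omega
          · exact le_refl _
        have hcut_u : ∀ S : Finset V, ee (cut μ u) u S = 0 := by
          intro S
          unfold ee
          apply Finset.sum_eq_zero
          intro w _
          unfold cut
          simp
        have hcut_eq : ∀ v (S : Finset V), v ≠ u → u ∉ S → ee (cut μ u) v S = ee μ v S := by
          intro v S hv hS
          unfold ee
          apply Finset.sum_congr rfl
          intro w hw
          unfold cut
          rw [if_neg]
          rintro (h1 | h1)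
          · exact hv h1
          · exact hS (h1 ▸ hw)
        have hAc_cut : ∀ S : Finset V, Ac (cut μ u) S → Ac μ (S.erase u) := by
          intro S hS T hT hne
          have hTS : T ⊆ S := hT.trans (Finset.erase_subset _ _)
          have huT : u ∉ T := fun h1 => Finset.notMem_erase u S (hT h1)
          obtain ⟨v, hv, h1⟩ := hS T hTS hne
          refine ⟨v, hv, ?_⟩
          rw [← hcut_eq v T (fun h2 => huT (h2 ▸ hv)) huT]
          exact h1
        have hlt : ∑ v ∈ U, ee (cut μ u) v U < m := by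
          rw [← hm]
          apply Finset.sum_lt_sum (fun v _ => hcut_le v U)
          exact ⟨u, hu, by rw [hcut_u]; omega⟩
        obtain ⟨f0, f1, f2⟩ := ihm _ hlt (cut μ u) U C hμ' hC hU (by
          intro v hv
          have h1 := hcut_le v U
          have h2 := hdeg v hv
          omega) rfl
        -- move u
        obtain ⟨d, hd, hd1⟩ := exists_cl_le_one (μ := μ) (v := u) f1 (hdeg u hu)
        have hfu : f0 u ∈ C := f1 u hu
        have hclass : ∀ c ∈ C, c ≠ f0 u → Ac μ (cl U f0 c) := by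
          intro c hc hcu
          have h1 := hAc_cut _ (f2 c hc).2
          rwa [Finset.erase_eq_of_notMem] at h1
          rw [mem_cl]
          exact fun h2 => hcu h2.2.symm
        have hclassu : Ac μ ((cl U f0 (f0 u)).erase u) := hAc_cut _ (f2 _ hfu).2
        have hucl : u ∈ cl U f0 (f0 u) := mem_cl.mpr ⟨hu, rfl⟩
        by_cases hdu : d = f0 u
        · apply hno
          refine ⟨f0, f1, fun c hc => ⟨(f2 c hc).1, ?_⟩⟩
          by_cases hcu : c = f0 u
          · rw [hcu, ← Finset.insert_erase hucl]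
            apply Ac.insert hμ hclassu
            rw [hdu] at hd1
            exact (ee_mono (Finset.erase_subset _ _)).trans hd1
          · exact hclass c hc hcu
        · have hNE : NE μ U s C (Function.update f0 u d) (f0 u) := by
            have c1 : cl U (Function.update f0 u d) (f0 u) = (cl U f0 (f0 u)).erase u := by
              ext v
              rw [mem_cl, Finset.mem_erase, mem_cl]
              by_cases hvu : v = u
              · rw [hvu, Function.update_self]; simp [hdu]
              · rw [Function.update_of_ne hvu]; simp [hvu]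
            have c2 : cl U (Function.update f0 u d) d = insert u (cl U f0 d) := by
              ext v
              rw [mem_cl, Finset.mem_insert, mem_cl]
              by_cases hvu : v = u
              · rw [hvu, Function.update_self]; simp [hu]
              · rw [Function.update_of_ne hvu]; simp [hvu]
            have c3 : ∀ c, c ≠ f0 u → c ≠ d → cl U (Function.update f0 u d) c = cl U f0 c := by
              intro c h1 h2
              ext v
              rw [mem_cl, mem_cl]
              by_cases hvu : v = u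
              · rw [hvu, Function.update_self]; simp [Ne.symm h1, Ne.symm h2]
              · rw [Function.update_of_ne hvu]
            have hud : u ∉ cl U f0 d := by
              rw [mem_cl]; exact fun h1 => hdu h1.2.symm
            refine ⟨?_, ?_, hfu, ?_, d, hd, hdu, ?_, ?_⟩
            · intro v hv
              by_cases hvu : v = u
              · rw [hvu, Function.update_self]; exact hd
              · rw [Function.update_of_ne hvu]; exact f1 v hv
            · intro c hc
              by_cases h1 : c = f0 u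
              · rw [h1, c1]; exact hclassu
              · by_cases h2 : c = d
                · rw [h2, c2]
                  exact Ac.insert hμ (hclass d hd hdu) hd1
                · rw [c3 c h1 h2]; exact hclass c hc h1
            · rw [c1, Finset.card_erase_add_one hucl]; exact (f2 _ hfu).1
            · rw [c2, Finset.card_insert_of_notMem hud, (f2 d hd).1]
            · intro c hc h1 h2
              rw [c3 c h1 h2]; exact (f2 c hc).1
          obtain ⟨b, f, 𝒜, r, hS⟩ := exists_setup hμ hno hdeg hU (by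
            intro C' hC' hne' U' _ hU' hdeg'
            have hlt' : C'.card < k := by
              rw [← hC]
              exact Finset.card_lt_card ⟨hC', fun h2 => hne' (Finset.Subset.antisymm hC' h2)⟩
            exact ihk _ hlt' _ μ U' C' hμ rfl hU' hdeg' rfl) ⟨_, _, hNE⟩
          exact hcore V μ s b U f 𝒜 r hS

theorem main_of_core (hcore : ∀ (V : Type) [DecidableEq V] (μ : V → V → ℕ) (s b : ℕ)
      (U : Finset V) (f : V → ℕ) (𝒜 : Finset ℕ) (r : ℕ), ¬ Setup μ s b U f 𝒜 r)
    (V : Type) [DecidableEq V] (μ : V → V → ℕ) (hμ : MG μ) (s k : ℕ) (U : Finset V)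
    (hU : U.card = k * s) (hdeg : ∀ v ∈ U, ee μ v U + 2 ≤ 2 * k) :
    EC μ s U (range k) :=
  main_aux hcore V s k _ μ U (range k) hμ (Finset.card_range k) (by rw [Finset.card_range]; exact hU)
    (by rw [Finset.card_range]; exact hdeg) rfl

end Pool.Agent.H25.EA
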