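import Pool.Agent.H25.EA.AcBasic

/-!
# Basic facts on classes, and the shift along a path (helper39)
-/

set_option autoImplicit false
set_option linter.unusedSectionVars false

namespace Pool.Agent.H25.EA

open Finset

variable {V : Type*} [DecidableEq V] {μ : V → V → ℕ} {U : Finset V} {f : V → ℕ}

theorem mem_cl {c : ℕ} {v : V} : v ∈ cl U f c ↔ v ∈ U ∧ f v = c := by
  simp [cl]

theorem mem_AA {𝒜 : Finset ℕ} {v : V} : v ∈ AA U f 𝒜 ↔ v ∈ U ∧ f v ∈ 𝒜 := by
  simp [AA]

theorem mem_BB {𝒜 : Finset ℕ} {v : V} : v ∈ BB U f 𝒜 ↔ v ∈ U ∧ f v ∉ 𝒜 := by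
  simp [BB]

theorem ee_insert_of_notMem {v u : V} {S : Finset V} (hu : u ∉ S) :
    ee μ v (insert u S) = μ v u + ee μ v S := by
  unfold ee; rw [Finset.sum_insert hu]

theorem ee_erase_add {v u : V} {S : Finset V} (hu : u ∈ S) :
    ee μ v (S.erase u) + μ v u = ee μ v S := by
  unfold ee; rw [Finset.sum_erase_add _ _ hu]

theorem ee_union_of_disjoint {v : V} {S T : Finset V} (h : Disjoint S T) :
    ee μ v (S ∪ T) = ee μ v S + ee μ v T := by
  unfold ee; rw [Finset.sum_union h]

theorem ee_AA_add_BB (𝒜 : Finset ℕ) (v : V) :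
    ee μ v (AA U f 𝒜) + ee μ v (BB U f 𝒜) = ee μ v U := by
  unfold ee AA BB
  exact Finset.sum_filter_add_sum_filter_not U (fun v => f v ∈ 𝒜) _

theorem card_AA_add_BB (𝒜 : Finset ℕ) : (AA U f 𝒜).card + (BB U f 𝒜).card = U.card := by
  unfold AA BB
  exact Finset.card_filter_add_card_filter_not (s := U) (fun v => f v ∈ 𝒜)

/-- degrees split over the classes -/
theorem ee_sum_cl {C : Finset ℕ} (hf : ∀ v ∈ U, f v ∈ C) (v : V) :
    ∑ c ∈ C, ee μ v (cl U f c) = ee μ v U := by
  unfold ee cl
  exact Finset.sum_fiberwise_of_maps_to hf _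

theorem card_sum_cl {C : Finset ℕ} (hf : ∀ v ∈ U, f v ∈ C) :
    ∑ c ∈ C, (cl U f c).card = U.card := by
  unfold cl
  exact (Finset.card_eq_sum_card_fiberwise hf).symm

theorem cl_AA {𝒜 : Finset ℕ} {c : ℕ} (hc : c ∈ 𝒜) : cl (AA U f 𝒜) f c = cl U f c := by
  ext v
  rw [mem_cl, mem_AA, mem_cl]
  constructor
  · rintro ⟨⟨h1, _⟩, h2⟩; exact ⟨h1, h2⟩
  · rintro ⟨h1, h2⟩; exact ⟨⟨h1, h2 ▸ hc⟩, h2⟩

theorem ee_sum_AA (𝒜 : Finset ℕ) (v : V) :
    ∑ c ∈ 𝒜, ee μ v (cl U f c) = ee μ v (AA U f 𝒜) := by
  rw [← ee_sum_cl (U := AA U f 𝒜) (f := f) (C := 𝒜) (fun v hv => (mem_AA.mp hv).2)]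
  exact Finset.sum_congr rfl fun c hc => by rw [cl_AA hc]

theorem card_sum_AA (𝒜 : Finset ℕ) : ∑ c ∈ 𝒜, (cl U f c).card = (AA U f 𝒜).card := by
  rw [← card_sum_cl (U := AA U f 𝒜) (f := f) (C := 𝒜) (fun v hv => (mem_AA.mp hv).2)]
  exact Finset.sum_congr rfl fun c hc => by rw [cl_AA hc]

/-- a class which receives at most one edge -/
theorem exists_cl_le_one {C : Finset ℕ} (hf : ∀ v ∈ U, f v ∈ C) {v : V}
    (hd : ee μ v U + 2 ≤ 2 * C.card) : ∃ c ∈ C, ee μ v (cl U f c) ≤ 1 := by
  by_contra hno
  push Not at hno
  have h1 : ∑ c ∈ C, 2 ≤ ∑ c ∈ C, ee μ v (cl U f c) :=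
    Finset.sum_le_sum fun c hc => hno c hc
  rw [ee_sum_cl hf, Finset.sum_const, smul_eq_mul] at h1
  omega

/-- Shift along a path which avoids `S`: the class `Y` loses a vertex, the class `r` receives one,
all other classes keep their size, and the classes outside `𝒜` and in `S` are unchanged. -/
theorem shift {𝒜 S : Finset ℕ} {r : ℕ} (hr : r ∈ 𝒜) (hrS : r ∉ S)
    (hac : ∀ c ∈ 𝒜, Ac μ (cl U f c)) (hno : NoCl (arc μ U f) 𝒜 r S) :
    ∀ Y ∈ 𝒜, Y ∉ S → ∃ g : V → ℕ,
      (∀ v, ¬ (v ∈ U ∧ f v ∈ 𝒜 ∧ f v ∉ S) → g v = f v) ∧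
      (∀ v ∈ U, f v ∈ 𝒜 → f v ∉ S → g v ∈ 𝒜 ∧ g v ∉ S) ∧
      (∀ d ∈ 𝒜, Ac μ (cl U g d)) ∧
      cl U g Y ⊆ cl U f Y ∧
      ∀ d ∈ 𝒜, (cl U g d).card + (if d = Y then 1 else 0) =
        (cl U f d).card + (if d = r then 1 else 0) := by
  -- the invariant of the search
  have key : ∀ n : ℕ, ∀ G : Finset ℕ, G ⊆ 𝒜 → Disjoint G S → r ∈ G →
      (∀ Y ∈ G, ∃ g : V → ℕ,
        (∀ v, ¬ (v ∈ U ∧ f v ∈ G) → g v = f v) ∧
        (∀ v ∈ U, f v ∈ G → g v ∈ G) ∧
        (∀ d ∈ 𝒜, Ac μ (cl U g d)) ∧
        cl U g Y ⊆ cl U f Y ∧
        ∀ d ∈ 𝒜, (cl U g d).card + (if d = Y then 1 else 0) =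
          (cl U f d).card + (if d = r then 1 else 0)) →
      ((𝒜 \ S) \ G).card = n →
      ∀ Y ∈ 𝒜, Y ∉ S → ∃ g : V → ℕ,
        (∀ v, ¬ (v ∈ U ∧ f v ∈ 𝒜 ∧ f v ∉ S) → g v = f v) ∧
        (∀ v ∈ U, f v ∈ 𝒜 → f v ∉ S → g v ∈ 𝒜 ∧ g v ∉ S) ∧
        (∀ d ∈ 𝒜, Ac μ (cl U g d)) ∧
        cl U g Y ⊆ cl U f Y ∧
        ∀ d ∈ 𝒜, (cl U g d).card + (if d = Y then 1 else 0) =
          (cl U f d).card + (if d = r then 1 else 0) := by
    intro n
    induction n with
    | zero =>
      intro G hG hGS hrG hinv hn Y hY hYS
      have hall : (𝒜 \ S) ⊆ G := by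
        rw [Finset.card_eq_zero, Finset.sdiff_eq_empty_iff_subset] at hn
        exact hn
      have hGe : ∀ c, c ∈ G ↔ c ∈ 𝒜 ∧ c ∉ S := fun c =>
        ⟨fun h => ⟨hG h, Finset.disjoint_left.mp hGS h⟩, fun h => hall (Finset.mem_sdiff.mpr h)⟩
      obtain ⟨g, g1, g2, g3, g4, g5⟩ := hinv Y ((hGe Y).mpr ⟨hY, hYS⟩)
      refine ⟨g, ?_, ?_, g3, g4, g5⟩
      · intro v hv
        apply g1
        rw [hGe]; exact hv
      · intro v hv h1 h2
        exact (hGe _).mp (g2 v hv ((hGe _).mpr ⟨h1, h2⟩))
    | succ n ih =>
      intro G hG hGS hrG hinv hn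
      have hne : ((𝒜 \ S) \ G).Nonempty := by
        rw [← Finset.card_pos]; omega
      obtain ⟨c', hc', c, hc, hcK, hcS, hne', w, hw, hmov⟩ := hno ((𝒜 \ S) \ G)
        (fun x hx => (Finset.mem_sdiff.mp (Finset.mem_sdiff.mp hx).1).1)
        (Finset.disjoint_left.mpr fun x hx => (Finset.mem_sdiff.mp (Finset.mem_sdiff.mp hx).1).2)
        (fun h => (Finset.mem_sdiff.mp h).2 hrG) hne
      have hcG : c ∈ G := by
        by_contra h
        exact hcK (Finset.mem_sdiff.mpr ⟨Finset.mem_sdiff.mpr ⟨hc, hcS⟩, h⟩)
      have hc'G : c' ∉ G := (Finset.mem_sdiff.mp hc').2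
      have hc'A : c' ∈ 𝒜 := (Finset.mem_sdiff.mp (Finset.mem_sdiff.mp hc').1).1
      have hc'S : c' ∉ S := (Finset.mem_sdiff.mp (Finset.mem_sdiff.mp hc').1).2
      apply ih (insert c' G)
      · exact Finset.insert_subset hc'A hG
      · rw [Finset.disjoint_insert_left]; exact ⟨hc'S, hGS⟩
      · exact Finset.mem_insert_of_mem hrG
      · intro Y hY
        rw [Finset.mem_insert] at hY
        rcases hY with rfl | hY
        · obtain ⟨g, g1, g2, g3, g4, g5⟩ := hinv c hcG
          have hwU : w ∈ U := (mem_cl.mp hw).1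
          have hfw : f w = Y := (mem_cl.mp hw).2
          have hgw : g w = Y := by
            rw [g1 w (by rw [hfw]; exact fun h => hc'G h.2), hfw]
          refine ⟨Function.update g w c, ?_, ?_, ?_, ?_, ?_⟩
          · intro v hv
            have hvw : v ≠ w := by
              rintro rfl
              apply hv
              exact ⟨hwU, by rw [hfw]; exact Finset.mem_insert_self _ _⟩
            rw [Function.update_of_ne hvw]
            apply g1
            intro h
            exact hv ⟨h.1, Finset.mem_insert_of_mem h.2⟩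
          · intro v hv h1
            by_cases hvw : v = w
            · rw [hvw, Function.update_self]
              exact Finset.mem_insert_of_mem hcG
            · rw [Function.update_of_ne hvw]
              by_cases h2 : f v ∈ G
              · exact Finset.mem_insert_of_mem (g2 v hv h2)
              · rw [g1 v (fun h => h2 h.2)]
                exact h1
          · intro d hd
            by_cases hdc : d = c
            · subst hdc
              have hsub : cl U (Function.update g w d) d ⊆ insert w (cl U f d) := by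
                intro v hv
                rw [mem_cl] at hv
                rw [Finset.mem_insert]
                by_cases hvw : v = w
                · left; exact hvw
                · right
                  rw [Function.update_of_ne hvw] at hv
                  exact g4 (mem_cl.mpr hv)
              exact Ac.mono hmov hsub
            · have hsub : cl U (Function.update g w c) d ⊆ cl U g d := by
                intro v hv
                rw [mem_cl] at hv ⊢
                by_cases hvw : v = w
                · rw [hvw, Function.update_self] at hv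
                  exact absurd hv.2.symm hdc
                · rw [Function.update_of_ne hvw] at hv
                  exact hv
              exact Ac.mono (g3 d hd) hsub
          · intro v hv
            rw [mem_cl] at hv ⊢
            by_cases hvw : v = w
            · rw [hvw, Function.update_self] at hv
              exact absurd hv.2.symm hne'
            · rw [Function.update_of_ne hvw] at hv
              refine ⟨hv.1, ?_⟩
              by_cases h2 : f v ∈ G
              · have := g2 v hv.1 h2
                rw [hv.2] at this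
                exact absurd this hc'G
              · rw [← g1 v (fun h => h2 h.2)]; exact hv.2
          · intro d hd
            have hgd := g5 d hd
            by_cases hdc : d = c
            · subst hdc
              have h1 : cl U (Function.update g w d) d = insert w (cl U g d) := by
                ext v
                rw [mem_cl, Finset.mem_insert, mem_cl]
                by_cases hvw : v = w
                · rw [hvw, Function.update_self]; simp [hwU]
                · rw [Function.update_of_ne hvw]; simp [hvw]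
              have h2 : w ∉ cl U g d := by
                rw [mem_cl, hgw]; exact fun h => hne' h.2
              rw [h1, Finset.card_insert_of_notMem h2, if_neg (Ne.symm hne')]
              rw [if_pos rfl] at hgd
              omega
            · by_cases hdY : d = Y
              · subst hdY
                have h1 : cl U (Function.update g w c) d = (cl U g d).erase w := by
                  ext v
                  rw [mem_cl, Finset.mem_erase, mem_cl]
                  by_cases hvw : v = w
                  · rw [hvw, Function.update_self]; simp [Ne.symm hdc]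
                  · rw [Function.update_of_ne hvw]; simp [hvw]
                have h2 : w ∈ cl U g d := by
                  rw [mem_cl, hgw]; exact ⟨hwU, rfl⟩
                rw [h1, if_pos rfl, Finset.card_erase_add_one h2]
                rw [if_neg hdc] at hgd
                omega
              · have h1 : cl U (Function.update g w c) d = cl U g d := by
                  ext v
                  rw [mem_cl, mem_cl]
                  by_cases hvw : v = w
                  · rw [hvw, Function.update_self, hgw]; simp [Ne.symm hdc, Ne.symm hdY]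
                  · rw [Function.update_of_ne hvw]
                rw [h1, if_neg hdY]
                rw [if_neg hdc] at hgd
                omega
        · obtain ⟨g, g1, g2, g3, g4, g5⟩ := hinv Y hY
          refine ⟨g, ?_, ?_, g3, g4, g5⟩
          · intro v hv
            apply g1
            intro h
            exact hv ⟨h.1, Finset.mem_insert_of_mem h.2⟩
          · intro v hv h1
            by_cases h2 : f v ∈ G
            · exact Finset.mem_insert_of_mem (g2 v hv h2)
            · rw [g1 v (fun h => h2 h.2)]
              exact h1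
      · have h1 : (𝒜 \ S) \ insert c' G = ((𝒜 \ S) \ G).erase c' := by
          ext x
          simp only [Finset.mem_sdiff, Finset.mem_insert, Finset.mem_erase]
          tauto
        rw [h1, Finset.card_erase_of_mem hc', hn]
        rfl
  apply key _ {r} (Finset.singleton_subset_iff.mpr hr) (Finset.disjoint_singleton_left.mpr hrS)
    (Finset.mem_singleton_self r) ?_ rfl
  intro Y hY
  rw [Finset.mem_singleton] at hY
  subst hY
  exact ⟨f, fun _ _ => rfl, fun v _ h => h, hac, Finset.Subset.refl _, fun d _ => rfl⟩

end Pool.Agent.H25.EA
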